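import Pool.Agent.Lib_MP_92ef0c_sg.Defs

/-! # [SG-A] the activities -/

set_option autoImplicit false

namespace Pool.MP_92ef0c_nt.SG

open Finset

/-- bound of the activities -/
noncomputable def Qb (lam : Finset ℕ → ℝ) (j : ℕ) : ℝ :=
  (1 + ∑ A ∈ (range (j + 1)).powerset, lam A) ^ (j * 4 ^ j)

/-- [SG-A1] PROOF: base `≥ 1`, base and exponent monotone in `j`; exponent `0` for `j = 0`. -/
theorem Qb_props (lam : Finset ℕ → ℝ) (hlam : ∀ A, 0 ≤ lam A) :
    (∀ j, 1 ≤ Qb lam j) ∧ Monotone (Qb lam) ∧ Qb lam 0 = 1 := by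
  have hb : ∀ j, 1 ≤ 1 + ∑ A ∈ (range (j + 1)).powerset, lam A := fun j =>
    le_add_of_nonneg_right (Finset.sum_nonneg fun A _ => hlam A)
  refine ⟨fun j => one_le_pow₀ (hb j), fun j k hjk => ?_, by simp [Qb]⟩
  have h1 : 1 + ∑ A ∈ (range (j + 1)).powerset, lam A ≤ 1 + ∑ A ∈ (range (k + 1)).powerset, lam A := by
    have hsub : (range (j + 1)).powerset ⊆ (range (k + 1)).powerset :=
      Finset.powerset_mono.2 (Finset.range_mono (by omega))
    have := Finset.sum_le_sum_of_subset_of_nonneg (f := lam) hsub (fun A _ _ => hlam A)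
    linarith
  have h2 : j * 4 ^ j ≤ k * 4 ^ k := Nat.mul_le_mul hjk (Nat.pow_le_pow_right (by norm_num) hjk)
  unfold Qb
  calc (1 + ∑ A ∈ (range (j + 1)).powerset, lam A) ^ (j * 4 ^ j)
      ≤ (1 + ∑ A ∈ (range (k + 1)).powerset, lam A) ^ (j * 4 ^ j) :=
        pow_le_pow_left₀ (zero_le_one.trans (hb j)) h1 _
    _ ≤ (1 + ∑ A ∈ (range (k + 1)).powerset, lam A) ^ (k * 4 ^ k) := pow_le_pow_right₀ (hb k) h2

private theorem two_mul_log_le_act (u : ℕ) : 2 * Nat.log 2 u ≤ u := by
  rcases Nat.eq_zero_or_pos u with h0 | h0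
  · subst h0; simp
  · have h1 : 2 ^ Nat.log 2 u ≤ u := Nat.pow_log_le_self 2 h0.ne'
    have h2 : ∀ k : ℕ, 2 * k ≤ 2 ^ k := by
      intro k
      induction k with
      | zero => simp
      | succ k ih =>
        rcases Nat.eq_zero_or_pos k with hk | hk
        · subst hk; norm_num
        · rw [pow_succ]; omega
    exact (h2 _).trans h1

/-- [SG-A2] PROOF. Put `j = w (2 v)`. If `κ (insert v A) ≠ 1` for `A ⊆ S` then `A ≠ ∅` and all pairs of elements of
`insert v A` are neighbours; for `u ∈ A`: `u ≤ v + w u`, `w u ≤ Nat.log 2 u ≤ u / 2`, so `u ≤ 2 v`, `w u ≤ j` (`w` monotone), and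
`w v ≤ j`; so `|u - v| ≤ j`, `u ≠ v` (`v ∉ S`): `A ⊆ [v - j, v + j] \ {v}`: at most `4 ^ j` sets `A`; if `j = 0` there is none.
For each of them `κ (insert v A) = lam (insert v A)`, where `B = insert v A` has all differences at most `j`
(two elements `s ≤ t`: `t ≤ s + w t ≤ s + j`); with `m = min B`: `B = B'.image (· + m)`, `B' ⊆ range (j + 1)`, so
`lam B = lam B' ≤ 1 + ∑_{A ⊆ range (j+1)} lam A =: b`, `b ≥ 1`. The product is at most
`b ^ (4 ^ j)` (`≤ b ^ (j 4^j)` as `j ≥ 1`; for `j = 0` it is `1`): factors different from `1` only for at most `4 ^ j` sets `A`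
(`Finset.prod_subset` / `prod_filter_ne_one`, `Finset.prod_le_pow_card`-like). -/
theorem act_le (lam : Finset ℕ → ℝ) (hlam : ∀ A, 0 ≤ lam A)
    (hinv : ∀ (A : Finset ℕ) (t : ℕ), lam (A.image (fun a => a + t)) = lam A)
    (w : ℕ → ℕ) (hmono : Monotone w) (hw : ∀ n, w n ≤ Nat.log 2 n) (v : ℕ) (S : Finset ℕ)
    (hv : v ∉ S) : ∏ A ∈ S.powerset, kap lam w (insert v A) ≤ Qb lam (w (2 * v)) := by
  classical
  set j := w (2 * v) with hj
  set b : ℝ := 1 + ∑ A ∈ (range (j + 1)).powerset, lam A with hb
  have hb1 : 1 ≤ b := le_add_of_nonneg_right (Finset.sum_nonneg fun A _ => hlam A)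
  -- elements of a set with a nontrivial factor
  have key : ∀ A ∈ S.powerset, kap lam w (insert v A) ≠ 1 →
      A ≠ ∅ ∧ A ⊆ (Icc (v - j) (v + j)).erase v ∧ kap lam w (insert v A) ≤ b := by
    intro A hA hne
    have hAS := Finset.mem_powerset.1 hA
    have hcond : 2 ≤ (insert v A).card ∧ ∀ s ∈ insert v A, ∀ t ∈ insert v A, nbr w s t := by
      by_contra hc
      exact hne (by unfold kap; rw [if_neg hc])
    have hvj : w v ≤ j := hmono (by omega)
    have hel : ∀ u ∈ insert v A, w u ≤ j := by
      intro u hu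
      have hn := (hcond.2 u hu v (Finset.mem_insert_self v A)).1
      have h2 := two_mul_log_le_act u
      have h3 := hw u
      exact hmono (by omega)
    refine ⟨?_, ?_, ?_⟩
    · rintro rfl
      have := hcond.1
      simp at this
    · intro u hu
      have hu' : u ∈ insert v A := Finset.mem_insert_of_mem hu
      have hn := hcond.2 u hu' v (Finset.mem_insert_self v A)
      have h1 := hn.1
      have h2 := hn.2
      have h3 := hel u hu'
      refine Finset.mem_erase.2 ⟨?_, Finset.mem_Icc.2 ⟨by omega, by omega⟩⟩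
      rintro rfl
      exact hv (hAS hu)
    · have hk : kap lam w (insert v A) = lam (insert v A) := by
        unfold kap; rw [if_pos hcond]
      rw [hk]
      set B := insert v A with hB
      have hBn : B.Nonempty := ⟨v, Finset.mem_insert_self v A⟩
      set m := B.min' hBn with hm
      have hmB : m ∈ B := Finset.min'_mem B hBn
      have hle : ∀ s ∈ B, m ≤ s := fun s hs => Finset.min'_le B s hs
      have hup : ∀ s ∈ B, s ≤ m + j := by
        intro s hs
        have := (hcond.2 s hs m hmB).1
        have h3 := hel s hs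
        omega
      have hBim : (B.image (fun s => s - m)).image (fun a => a + m) = B := by
        ext x
        simp only [Finset.mem_image]
        constructor
        · rintro ⟨y, ⟨z, hz, rfl⟩, rfl⟩
          have := hle z hz
          rwa [Nat.sub_add_cancel this]
        · intro hx
          exact ⟨x - m, ⟨x, hx, rfl⟩, Nat.sub_add_cancel (hle x hx)⟩
      have hlamB : lam B = lam (B.image (fun s => s - m)) := by
        conv_lhs => rw [← hBim]
        exact hinv _ _
      have hmem : B.image (fun s => s - m) ∈ (range (j + 1)).powerset := by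
        rw [Finset.mem_powerset]
        intro x hx
        obtain ⟨z, hz, rfl⟩ := Finset.mem_image.1 hx
        have := hup z hz
        exact Finset.mem_range.2 (by omega)
      have hs := Finset.single_le_sum (f := lam) (fun A _ => hlam A) hmem
      rw [hlamB, hb]
      linarith
  rw [← Finset.prod_filter_ne_one]
  set F := S.powerset.filter (fun A => kap lam w (insert v A) ≠ 1) with hF
  have hprod : ∏ A ∈ F, kap lam w (insert v A) ≤ b ^ F.card := by
    have h0 : ∀ A ∈ F, 0 ≤ kap lam w (insert v A) := by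
      intro A _
      unfold kap
      split_ifs
      · exact hlam _
      · exact zero_le_one
    have h1 : ∀ A ∈ F, kap lam w (insert v A) ≤ b := by
      intro A hA
      obtain ⟨hA1, hA2⟩ := Finset.mem_filter.1 hA
      exact (key A hA1 hA2).2.2
    have := Finset.prod_le_prod h0 h1
    rwa [Finset.prod_const] at this
  have hcard : F.card ≤ 4 ^ j := by
    have hsub : F ⊆ ((Icc (v - j) (v + j)).erase v).powerset := by
      intro A hA
      obtain ⟨hA1, hA2⟩ := Finset.mem_filter.1 hA
      exact Finset.mem_powerset.2 (key A hA1 hA2).2.1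
    have h1 := Finset.card_le_card hsub
    rw [Finset.card_powerset] at h1
    have hve : v ∈ Icc (v - j) (v + j) := Finset.mem_Icc.2 ⟨by omega, by omega⟩
    have h2 : ((Icc (v - j) (v + j)).erase v).card ≤ 2 * j := by
      rw [Finset.card_erase_of_mem hve, Nat.card_Icc]
      omega
    calc F.card ≤ 2 ^ ((Icc (v - j) (v + j)).erase v).card := h1
      _ ≤ 2 ^ (2 * j) := Nat.pow_le_pow_right (by norm_num) h2
      _ = 4 ^ j := by rw [pow_mul]; norm_num
  have hcard2 : F.card ≤ j * 4 ^ j := by
    rcases Nat.eq_zero_or_pos j with h0 | h0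
    · have hFe : F = ∅ := by
        refine Finset.eq_empty_of_forall_notMem fun A hA => ?_
        obtain ⟨hA1, hA2⟩ := Finset.mem_filter.1 hA
        obtain ⟨hne, hsub, _⟩ := key A hA1 hA2
        apply hne
        refine Finset.eq_empty_of_forall_notMem fun u hu => ?_
        obtain ⟨h1, h2⟩ := Finset.mem_erase.1 (hsub hu)
        have h3 := Finset.mem_Icc.1 h2
        apply h1
        omega
      rw [hFe]
      simp
    · calc F.card ≤ 4 ^ j := hcard
        _ = 1 * 4 ^ j := (one_mul _).symm
        _ ≤ j * 4 ^ j := Nat.mul_le_mul_right _ h0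
  calc ∏ A ∈ F, kap lam w (insert v A) ≤ b ^ F.card := hprod
    _ ≤ b ^ (j * 4 ^ j) := pow_le_pow_right₀ hb1 hcard2
    _ = Qb lam (w (2 * v)) := by rw [Qb, ← hj]

end Pool.MP_92ef0c_nt.SG
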