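import Pool.Agent.Lib_MP_92ef0c_sg.Defs

/-! # [SG-B1] few exceptional terms -/

set_option autoImplicit false

namespace Pool.MP_92ef0c_nt.SG

open Finset
open Pool.MP_92ef0c_nt.PB (Pz V zz Rough rho)
open Pool.MP_92ef0c_nt.SH (EX ind rr gg Bd Prim IsD SSL Del Lam Exc Inter exc_card)

/-- [SG-B1] PROOF: the sum is over the set `B` of the `n ∈ Ioc u v` with `n < n₀` or `Exc L (2 M + 1) n`, `|B| ≤
n₀ + Del |L| M` (`exc_card`, `Del k M = k^2 (2 (2 M + 1) + 1)`); Cauchy-Schwarz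
(`sum_mul_sq_le_sq_mul_sq` or `inner_mul_le_norm_mul_norm`), `|X n| ≤ 1`. -/
theorem bad_sum (L : Finset (ℕ × ℕ)) (M n₀ u v : ℕ) (F X : ℕ → ℝ) (hX1 : ∀ n, |X n| ≤ 1)
    (hX0 : ∀ n, n₀ ≤ n → n ≤ v → ¬ Exc L (2 * M + 1) n → X n = 0) :
    |∑ n ∈ Ioc u v, F n * X n| ≤
      √(((n₀ : ℝ) + Del L.card M) * ∑ n ∈ Ioc u v, (F n) ^ 2) := by
  classical
  obtain ⟨B, hB⟩ : ∃ B, B = (Ioc u v).filter (fun n => n < n₀ ∨ Exc L (2 * M + 1) n) := ⟨_, rfl⟩
  have hcard : B.card ≤ n₀ + Del L.card M := by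
    have h1 : B ⊆ range n₀ ∪ (Ioc u v).filter (fun n => Exc L (2 * M + 1) n) := by
      intro n hn
      rw [hB, mem_filter] at hn
      rw [mem_union, mem_range, mem_filter]
      rcases hn.2 with h | h
      · exact Or.inl h
      · exact Or.inr ⟨hn.1, h⟩
    have h2 := exc_card L (2 * M + 1) (Ioc u v)
    have h3 : L.card ^ 2 * (2 * (2 * M + 1) + 1) = Del L.card M := by
      unfold Del
      ring
    rw [h3] at h2
    calc B.card ≤ (range n₀ ∪ (Ioc u v).filter (fun n => Exc L (2 * M + 1) n)).card := card_le_card h1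
      _ ≤ (range n₀).card + ((Ioc u v).filter (fun n => Exc L (2 * M + 1) n)).card := card_union_le _ _
      _ ≤ n₀ + Del L.card M := by
        rw [card_range]
        exact Nat.add_le_add_left h2 n₀
  have hsub : B ⊆ Ioc u v := by
    rw [hB]
    exact filter_subset _ _
  have hsum : ∑ n ∈ Ioc u v, F n * X n = ∑ n ∈ B, F n * X n := by
    symm
    refine sum_subset hsub fun n hn hnB => ?_
    rw [hB, mem_filter, not_and, not_or] at hnB
    have h1 := hnB hn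
    rw [hX0 n (not_lt.1 h1.1) (mem_Ioc.1 hn).2 h1.2, mul_zero]
  rw [hsum]
  refine Real.le_sqrt_of_sq_le ?_
  rw [sq_abs]
  have h1 : (∑ n ∈ B, F n * X n) ^ 2 ≤ (B.card : ℝ) * ∑ n ∈ B, (F n * X n) ^ 2 := sq_sum_le_card_mul_sum_sq
  have h2 : ∑ n ∈ B, (F n * X n) ^ 2 ≤ ∑ n ∈ B, (F n) ^ 2 := by
    refine sum_le_sum fun n _ => ?_
    rw [mul_pow]
    have h3 : (X n) ^ 2 ≤ 1 := by
      rw [← sq_abs]
      exact pow_le_one₀ (abs_nonneg _) (hX1 n)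
    exact mul_le_of_le_one_right (sq_nonneg _) h3
  have h3 : ∑ n ∈ B, (F n) ^ 2 ≤ ∑ n ∈ Ioc u v, (F n) ^ 2 :=
    sum_le_sum_of_subset_of_nonneg hsub fun n _ _ => sq_nonneg _
  have h4 : (B.card : ℝ) ≤ (n₀ : ℝ) + Del L.card M := by exact_mod_cast hcard
  calc (∑ n ∈ B, F n * X n) ^ 2 ≤ (B.card : ℝ) * ∑ n ∈ B, (F n * X n) ^ 2 := h1
    _ ≤ ((n₀ : ℝ) + Del L.card M) * ∑ n ∈ Ioc u v, (F n) ^ 2 :=
      mul_le_mul h4 (h2.trans h3) (sum_nonneg fun n _ => sq_nonneg _) (by positivity)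

end Pool.MP_92ef0c_nt.SG
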