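import Pool.Agent.Lib_MP_92ef0c_sg.Defs

/-! # [SG-N3] codes of the bilinear weights -/

set_option autoImplicit false

namespace Pool.MP_92ef0c_nt.SG

open Finset

private theorem symm_lt {m₀ : ℕ} {A : Finset ℕ} (hA : A ⊆ Icc 1 m₀) : Finset.equivBitIndices.symm A < 2 ^ (m₀ + 1) := by
  show ∑ i ∈ A, 2 ^ i < 2 ^ (m₀ + 1)
  exact Nat.geomSum_lt le_rfl fun k hk => Nat.lt_succ_of_le (mem_Icc.1 (hA hk)).2

private theorem pair_lt_sq {a b c : ℕ} (ha : a < c) (hb : b < c) : Nat.pair a b < c ^ 2 := by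
  refine (Nat.pair_lt_max_add_one_sq a b).trans_le (Nat.pow_le_pow_left ?_ 2)
  exact Nat.succ_le_of_lt (max_lt ha hb)

/-- [SG-N3] PROOF: `a = ∑_{i ∈ A} 2^i` (`Finset.equivBitIndices.symm A`), `a < 2 ^ (m₀ + 1)` (`A ⊆ Icc 1 m₀`; geometric sum), `b` similarly;
`j = Nat.pair (Nat.pair m₀ n₀) (Nat.pair a b)`, `i = 2 j + 2`: `FF F i = bilc j = conv m₀ n₀ (sg A) (sg B)`. `Nat.pair_lt_max_add_one_sq`:
`pair p q < (max p q + 1)^2`; with `s = m₀ + n₀`: `pair a b < (2^(s+1))^2 = 2^(2 s + 2)`, `pair m₀ n₀ < (s+1)^2 ≤ 2^(2 s + 2)`, so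
`j < 2^(4 s + 4)`, `i + 2 ≤ 2^(4 s + 7)`. -/
theorem code_exists (F : ℕ → ℕ → ℝ) (m₀ n₀ : ℕ) (A B : Finset ℕ) (hA : A ⊆ Icc 1 m₀)
    (hB : B ⊆ Icc 1 n₀) : ∃ i : ℕ, FF F i = conv m₀ n₀ (sg A) (sg B) ∧
      i + 2 ≤ 2 ^ (4 * (m₀ + n₀) + 7) := by
  have hj : bilc (Nat.pair (Nat.pair m₀ n₀)
      (Nat.pair (Finset.equivBitIndices.symm A) (Finset.equivBitIndices.symm B))) =
      conv m₀ n₀ (sg A) (sg B) := by
    unfold bilc
    rw [Nat.unpair_pair]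
    simp only [Nat.unpair_pair, Equiv.apply_symm_apply]
  have hb : Nat.pair (Nat.pair m₀ n₀)
      (Nat.pair (Finset.equivBitIndices.symm A) (Finset.equivBitIndices.symm B)) < 2 ^ (4 * (m₀ + n₀) + 4) := by
    have h1 : Nat.pair (Finset.equivBitIndices.symm A) (Finset.equivBitIndices.symm B) < (2 ^ (m₀ + n₀ + 1)) ^ 2 := by
      refine pair_lt_sq ((symm_lt hA).trans_le ?_) ((symm_lt hB).trans_le ?_)
      · exact Nat.pow_le_pow_right two_pos (by omega)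
      · exact Nat.pow_le_pow_right two_pos (by omega)
    have h2 : Nat.pair m₀ n₀ < (2 ^ (m₀ + n₀ + 1)) ^ 2 := by
      have h3 : m₀ + n₀ + 1 < 2 ^ (m₀ + n₀ + 1) := Nat.lt_two_pow_self
      exact pair_lt_sq (by omega) (by omega)
    have h3 := pair_lt_sq h2 h1
    refine h3.trans_le (le_of_eq ?_)
    rw [← pow_mul, ← pow_mul]
    congr 1
    ring
  generalize hjj : Nat.pair (Nat.pair m₀ n₀)
      (Nat.pair (Finset.equivBitIndices.symm A) (Finset.equivBitIndices.symm B)) = j at hj hb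
  refine ⟨2 * j + 2, ?_, ?_⟩
  · rw [← hj]
    funext n
    unfold FF
    rw [if_neg (by omega), if_neg (by omega), show (2 * j + 2) / 2 - 1 = j by omega]
  · have h4 : 2 ^ (4 * (m₀ + n₀) + 7) = 2 ^ (4 * (m₀ + n₀) + 4) * 8 := by
      rw [show 4 * (m₀ + n₀) + 7 = 4 * (m₀ + n₀) + 4 + 3 by ring, pow_add]
      rfl
    omega

/-- PROOF: unfold. -/
theorem FF_zero (F : ℕ → ℕ → ℝ) (n : ℕ) : FF F 0 n = 1 := by
  unfold FF
  rw [if_pos rfl]

/-- PROOF: unfold. -/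
theorem FF_odd (F : ℕ → ℕ → ℝ) (i n : ℕ) : FF F (2 * i + 1) n = F i n := by
  unfold FF
  rw [if_neg (by omega), if_pos (by omega), show (2 * i + 1) / 2 = i by omega]

end Pool.MP_92ef0c_nt.SG
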