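import Pool.Agent.Lib_MP_92ef0c_sg.Quad

/-! # [SG-N1b, N1c] the energy of a convolution -/

set_option autoImplicit false

namespace Pool.MP_92ef0c_nt.SG

open Finset

private theorem conv_prod_en (m₀ n₀ : ℕ) (α β : ℕ → ℝ) (r : ℕ) :
    conv m₀ n₀ α β r = ∑ p ∈ Icc 1 m₀ ×ˢ Icc 1 n₀, if p.1 * p.2 = r then α p.1 * β p.2 else 0 := by
  unfold conv
  rw [Finset.sum_product]

private theorem mem_prod_en {m₀ n₀ : ℕ} {p : ℕ × ℕ} (hp : p ∈ Icc 1 m₀ ×ˢ Icc 1 n₀) :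
    p.1 * p.2 ∈ Ioc 0 (m₀ * n₀) := by
  rw [Finset.mem_product, Finset.mem_Icc, Finset.mem_Icc] at hp
  rw [Finset.mem_Ioc]
  exact ⟨Nat.mul_pos hp.1.1 hp.2.1, Nat.mul_le_mul hp.1.2 hp.2.2⟩

/-- [SG-N1b] PROOF: `∑_{r ≤ m₀ n₀} (∑_{m n = r} α m β n)^2 = ∑_{quadruples} α m β n α m' β n' ≤` number of quadruples
(`quad_card`). -/
theorem energy (m₀ n₀ : ℕ) (α β : ℕ → ℝ) (hα : ∀ m, |α m| ≤ 1) (hβ : ∀ n, |β n| ≤ 1) :
    ∑ r ∈ Ioc 0 (m₀ * n₀), (conv m₀ n₀ α β r) ^ 2 ≤ 2 * m₀ * n₀ * (1 + Real.log m₀) := by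
  classical
  set P := Icc 1 m₀ ×ˢ Icc 1 n₀ with hP
  set c : ℕ × ℕ → ℝ := fun p => α p.1 * β p.2 with hc
  have hc1 : ∀ p, |c p| ≤ 1 := by
    intro p
    rw [hc]
    change |α p.1 * β p.2| ≤ 1
    rw [abs_mul]
    exact mul_le_one₀ (hα _) (abs_nonneg _) (hβ _)
  have hsq : ∀ r, (conv m₀ n₀ α β r) ^ 2 =
      ∑ p ∈ P, ∑ p' ∈ P, if p.1 * p.2 = r then (if p'.1 * p'.2 = r then c p * c p' else 0) else 0 := by
    intro r
    rw [conv_prod_en, pow_two, Finset.sum_mul_sum]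
    refine Finset.sum_congr rfl fun p _ => Finset.sum_congr rfl fun p' _ => ?_
    split_ifs <;> simp [hc]
  have hsum : ∑ r ∈ Ioc 0 (m₀ * n₀), (conv m₀ n₀ α β r) ^ 2 =
      ∑ p ∈ P, ∑ p' ∈ P, if p.1 * p.2 = p'.1 * p'.2 then c p * c p' else 0 := by
    simp only [hsq]
    rw [Finset.sum_comm]
    refine Finset.sum_congr rfl fun p hp => ?_
    rw [Finset.sum_comm]
    refine Finset.sum_congr rfl fun p' _ => ?_
    rw [Finset.sum_ite_eq, if_pos (mem_prod_en hp)]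
    by_cases h : p.1 * p.2 = p'.1 * p'.2
    · rw [if_pos h, if_pos h.symm]
    · rw [if_neg h, if_neg (Ne.symm h)]
  have hle : ∑ p ∈ P, ∑ p' ∈ P, (if p.1 * p.2 = p'.1 * p'.2 then c p * c p' else 0) ≤
      ∑ p ∈ P, ∑ p' ∈ P, (if p.1 * p.2 = p'.1 * p'.2 then (1 : ℝ) else 0) := by
    refine Finset.sum_le_sum fun p _ => Finset.sum_le_sum fun p' _ => ?_
    split_ifs
    · refine (le_abs_self _).trans ?_
      rw [abs_mul]
      exact mul_le_one₀ (hc1 _) (abs_nonneg _) (hc1 _)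
    · exact le_refl _
  have hcard : ∑ p ∈ P, ∑ p' ∈ P, (if p.1 * p.2 = p'.1 * p'.2 then (1 : ℝ) else 0) =
      (((P ×ˢ P).filter (fun q => q.1.1 * q.1.2 = q.2.1 * q.2.2)).card : ℝ) := by
    rw [Finset.card_filter, Nat.cast_sum]
    have h1 := Finset.sum_product P P
      (fun q : (ℕ × ℕ) × (ℕ × ℕ) => (((if q.1.1 * q.1.2 = q.2.1 * q.2.2 then 1 else 0 : ℕ)) : ℝ))
    rw [h1]
    refine Finset.sum_congr rfl fun p _ => Finset.sum_congr rfl fun p' _ => ?_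
    split_ifs <;> simp
  rw [hsum]
  refine hle.trans ?_
  rw [hcard]
  exact quad_card m₀ n₀

/-- [SG-N1c] PROOF: exchange the sums; for `m ∈ Icc 1 m₀`, `n ∈ Icc 1 n₀` exactly one `r ∈ Ioc 0 (m₀ n₀)` is `m n`. -/
theorem conv_sum (m₀ n₀ : ℕ) (α β X : ℕ → ℝ) :
    ∑ r ∈ Ioc 0 (m₀ * n₀), conv m₀ n₀ α β r * X r =
      ∑ m ∈ Icc 1 m₀, ∑ n ∈ Icc 1 n₀, α m * β n * X (m * n) := by
  classical
  have h1 : ∑ m ∈ Icc 1 m₀, ∑ n ∈ Icc 1 n₀, α m * β n * X (m * n) =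
      ∑ p ∈ Icc 1 m₀ ×ˢ Icc 1 n₀, α p.1 * β p.2 * X (p.1 * p.2) := by
    rw [Finset.sum_product]
  rw [h1]
  have h2 : ∀ r, conv m₀ n₀ α β r * X r =
      ∑ p ∈ Icc 1 m₀ ×ˢ Icc 1 n₀, if p.1 * p.2 = r then α p.1 * β p.2 * X r else 0 := by
    intro r
    rw [conv_prod_en, Finset.sum_mul]
    refine Finset.sum_congr rfl fun p _ => ?_
    split_ifs
    · rfl
    · rw [zero_mul]
  simp only [h2]
  rw [Finset.sum_comm]
  refine Finset.sum_congr rfl fun p hp => ?_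
  rw [Finset.sum_ite_eq, if_pos (mem_prod_en hp)]

end Pool.MP_92ef0c_nt.SG
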