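import Pool.Agent.Lib_MP_92ef0c_sg.Defs

/-! # [SG-N2] bilinear forms are largest at signs -/

set_option autoImplicit false

namespace Pool.MP_92ef0c_nt.SG

open Finset

/-- [SG-N2] PROOF: `|∑_m α m (∑_n β n X(mn))| ≤ ∑_m |∑_n β n X(mn)| = ∑_m s_m ∑_n β n X(mn)` with `s_m = sg A m`,
`A = {m ∈ Icc 1 m₀ | 0 ≤ ∑_n β n X(mn)}`; exchange: `= ∑_n β n ∑_m s_m X(mn) ≤ ∑_n |∑_m s_m X(mn)| = ∑_n t_n ∑_m s_m X(mn)`
with `B = {n ∈ Icc 1 n₀ | 0 ≤ ∑_m s_m X(mn)}`. -/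
theorem signs (m₀ n₀ : ℕ) (X α β : ℕ → ℝ) (hα : ∀ m, |α m| ≤ 1) (hβ : ∀ n, |β n| ≤ 1) :
    ∃ A B : Finset ℕ, A ⊆ Icc 1 m₀ ∧ B ⊆ Icc 1 n₀ ∧
      |∑ m ∈ Icc 1 m₀, ∑ n ∈ Icc 1 n₀, α m * β n * X (m * n)| ≤
        |∑ m ∈ Icc 1 m₀, ∑ n ∈ Icc 1 n₀, sg A m * sg B n * X (m * n)| := by
  classical
  let A : Finset ℕ := (Icc 1 m₀).filter fun m => 0 ≤ ∑ n ∈ Icc 1 n₀, β n * X (m * n)
  let B : Finset ℕ := (Icc 1 n₀).filter fun n => 0 ≤ ∑ m ∈ Icc 1 m₀, sg A m * X (m * n)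
  have hA : ∀ m ∈ Icc 1 m₀, |∑ n ∈ Icc 1 n₀, β n * X (m * n)| = sg A m * ∑ n ∈ Icc 1 n₀, β n * X (m * n) := by
    intro m hm
    unfold sg
    split_ifs with h
    · have h1 := (mem_filter.1 h).2
      rw [one_mul, abs_of_nonneg h1]
    · have h1 : ¬ 0 ≤ ∑ n ∈ Icc 1 n₀, β n * X (m * n) := fun h2 => h (mem_filter.2 ⟨hm, h2⟩)
      rw [abs_of_neg (not_le.1 h1)]
      ring
  have hB : ∀ n ∈ Icc 1 n₀, |∑ m ∈ Icc 1 m₀, sg A m * X (m * n)| = sg B n * ∑ m ∈ Icc 1 m₀, sg A m * X (m * n) := by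
    intro n hn
    by_cases h : n ∈ B
    · have h1 := (mem_filter.1 h).2
      have h2 : sg B n = 1 := if_pos h
      rw [h2, one_mul, abs_of_nonneg h1]
    · have h1 : ¬ 0 ≤ ∑ m ∈ Icc 1 m₀, sg A m * X (m * n) := fun h2 => h (mem_filter.2 ⟨hn, h2⟩)
      have h2 : sg B n = -1 := if_neg h
      rw [h2, abs_of_neg (not_le.1 h1)]
      ring
  refine ⟨A, B, filter_subset _ _, filter_subset _ _, ?_⟩
  have h1 : |∑ m ∈ Icc 1 m₀, ∑ n ∈ Icc 1 n₀, α m * β n * X (m * n)| ≤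
      ∑ m ∈ Icc 1 m₀, sg A m * ∑ n ∈ Icc 1 n₀, β n * X (m * n) := by
    refine (abs_sum_le_sum_abs _ _).trans (sum_le_sum fun m hm => ?_)
    have h2 : ∑ n ∈ Icc 1 n₀, α m * β n * X (m * n) = α m * ∑ n ∈ Icc 1 n₀, β n * X (m * n) := by
      rw [mul_sum]
      exact sum_congr rfl fun n _ => by ring
    rw [h2, abs_mul, ← hA m hm]
    exact mul_le_of_le_one_left (abs_nonneg _) (hα m)
  have h3 : ∑ m ∈ Icc 1 m₀, sg A m * ∑ n ∈ Icc 1 n₀, β n * X (m * n) =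
      ∑ n ∈ Icc 1 n₀, β n * ∑ m ∈ Icc 1 m₀, sg A m * X (m * n) := by
    simp only [mul_sum]
    rw [sum_comm]
    exact sum_congr rfl fun n _ => sum_congr rfl fun m _ => by ring
  have h4 : ∑ n ∈ Icc 1 n₀, β n * ∑ m ∈ Icc 1 m₀, sg A m * X (m * n) ≤
      ∑ n ∈ Icc 1 n₀, sg B n * ∑ m ∈ Icc 1 m₀, sg A m * X (m * n) := by
    refine sum_le_sum fun n hn => ?_
    rw [← hB n hn]
    calc β n * ∑ m ∈ Icc 1 m₀, sg A m * X (m * n) ≤ |β n * ∑ m ∈ Icc 1 m₀, sg A m * X (m * n)| := le_abs_self _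
      _ = |β n| * |∑ m ∈ Icc 1 m₀, sg A m * X (m * n)| := abs_mul _ _
      _ ≤ |∑ m ∈ Icc 1 m₀, sg A m * X (m * n)| := mul_le_of_le_one_left (abs_nonneg _) (hβ n)
  have h5 : ∑ n ∈ Icc 1 n₀, sg B n * ∑ m ∈ Icc 1 m₀, sg A m * X (m * n) =
      ∑ m ∈ Icc 1 m₀, ∑ n ∈ Icc 1 n₀, sg A m * sg B n * X (m * n) := by
    simp only [mul_sum]
    rw [sum_comm]
    exact sum_congr rfl fun m _ => sum_congr rfl fun n _ => by ring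
  calc |∑ m ∈ Icc 1 m₀, ∑ n ∈ Icc 1 n₀, α m * β n * X (m * n)| ≤ _ := h1
    _ = _ := h3
    _ ≤ _ := h4
    _ = _ := h5
    _ ≤ _ := le_abs_self _

theorem sg_abs (A : Finset ℕ) (m : ℕ) : |sg A m| ≤ 1 := by
  unfold sg
  split_ifs <;> simp

end Pool.MP_92ef0c_nt.SG
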