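import Pool.Agent.Lib_MP_92ef0c_sg.Defs

/-! # [SG-B2] sizes of the bounds -/

set_option autoImplicit false

namespace Pool.MP_92ef0c_nt.SG

open Finset
open Pool.MP_92ef0c_nt.PB (Pz V zz Rough rho)
open Pool.MP_92ef0c_nt.SH (EX ind rr gg Bd Prim IsD SSL Del Lam Exc Inter)

private theorem logM_erle {x : ℕ} (hx : 2 ≤ x) :
    (((Nat.log 2 x + 1 : ℕ)) : ℝ) ≤ 3 * Real.log x ∧ (1 : ℝ) ≤ 2 * Real.log x := by
  have h2 := Real.log_two_gt_d9
  have hl : Real.log 2 ≤ Real.log x := Real.log_le_log (by norm_num) (by exact_mod_cast hx)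
  have h3 : ((Nat.log 2 x : ℕ) : ℝ) * Real.log 2 ≤ Real.log x := by
    have h4 : (2 : ℝ) ^ (Nat.log 2 x) ≤ x := by
      exact_mod_cast Nat.pow_log_le_self 2 (by omega)
    rw [← Real.log_pow]
    exact Real.log_le_log (by positivity) h4
  have h5 : (0 : ℝ) ≤ ((Nat.log 2 x : ℕ) : ℝ) := Nat.cast_nonneg _
  constructor
  · push_cast
    nlinarith
  · linarith

/-- [SG-B2] PROOF: `M = Nat.log 2 x + 1 ≤ C log x`; `Del k M + 1 ≤ C_k log x`, `Lam k M + 2 log (i + 2) ≤ C_k log (x + i)`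
as `i + 2 ≤ x + i`. -/
theorem Er_le (k : ℕ) : ∃ K : ℝ, 0 < K ∧ ∀ (x i : ℕ) (E : ℝ), 2 ≤ x → 0 ≤ E →
    Er k (Nat.log 2 x + 1) i E ≤ K * √(Real.log x * Real.log ((x : ℝ) + i) * E) ∧
    ((Del k (Nat.log 2 x + 1) : ℝ)) ≤ K * Real.log x := by
  have hk : (0 : ℝ) ≤ k := Nat.cast_nonneg k
  refine ⟨8 * (18 * (k : ℝ) ^ 2 + 8 * k + 18), by positivity, fun x i E hx hE => ?_⟩
  obtain ⟨hM, h1⟩ := logM_erle hx
  set M : ℕ := Nat.log 2 x + 1 with hMdef
  set l : ℝ := Real.log x with hl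
  have hl0 : 0 < l := by linarith
  have hM0 : (0 : ℝ) ≤ M := Nat.cast_nonneg _
  have hxi : l ≤ Real.log ((x : ℝ) + i) := by
    refine Real.log_le_log (by exact_mod_cast (by omega : 0 < x)) ?_
    have : (0 : ℝ) ≤ i := Nat.cast_nonneg _
    linarith
  have hi2 : Real.log ((i : ℝ) + 2) ≤ Real.log ((x : ℝ) + i) := by
    refine Real.log_le_log (by positivity) ?_
    have : (2 : ℝ) ≤ x := by exact_mod_cast hx
    linarith
  set l' : ℝ := Real.log ((x : ℝ) + i) with hl'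
  set c : ℝ := 18 * (k : ℝ) ^ 2 + 8 * k + 18 with hc
  have hc0 : 0 < c := by positivity
  have hD : (Del k M : ℝ) = (k : ℝ) ^ 2 * (4 * M + 3) := by
    unfold Del
    push_cast
    ring
  have hkk : (0 : ℝ) ≤ (k : ℝ) ^ 2 := sq_nonneg _
  have hD1 : (Del k M : ℝ) ≤ 18 * (k : ℝ) ^ 2 * l := by
    rw [hD]
    nlinarith
  have hD2 : (Del k M : ℝ) + 1 ≤ c * l := by
    have h3 : 0 ≤ (8 * (k : ℝ) + 16) * l := by positivity
    rw [hc]
    nlinarith
  have hL : Lam k M + 2 * Real.log ((i : ℝ) + 2) ≤ c * l' := by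
    have e1 : Lam k M = (2 * k + 3) * M + (M + k + 2) + Del k M := rfl
    have h3 : (2 * (k : ℝ) + 4) * M ≤ (2 * (k : ℝ) + 4) * (3 * l) :=
      mul_le_mul_of_nonneg_left hM (by positivity)
    have h4 : ((k : ℝ) + 2) * 1 ≤ ((k : ℝ) + 2) * (2 * l) :=
      mul_le_mul_of_nonneg_left h1 (by positivity)
    have h5 : Lam k M ≤ (18 * (k : ℝ) ^ 2 + 8 * k + 16) * l := by
      rw [e1]
      nlinarith
    have h6 : (18 * (k : ℝ) ^ 2 + 8 * k + 16) * l ≤ (18 * (k : ℝ) ^ 2 + 8 * k + 16) * l' :=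
      mul_le_mul_of_nonneg_left hxi (by positivity)
    rw [hc]
    nlinarith
  have hL0 : 0 ≤ Lam k M + 2 * Real.log ((i : ℝ) + 2) := by
    have e1 : Lam k M = (2 * k + 3) * M + (M + k + 2) + Del k M := rfl
    have h3 : 0 ≤ Real.log ((i : ℝ) + 2) := Real.log_nonneg (by
      have : (0 : ℝ) ≤ i := Nat.cast_nonneg _
      linarith)
    have h4 : (0 : ℝ) ≤ (Del k M : ℝ) := Nat.cast_nonneg _
    rw [e1]
    positivity
  have hl'0 : 0 < l' := lt_of_lt_of_le hl0 hxi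
  constructor
  · have h3 : 8 * ((Del k M : ℝ) + 1) * (Lam k M + 2 * Real.log ((i : ℝ) + 2)) * E ≤
        (8 * c) ^ 2 * (l * l' * E) := by
      have h4 : ((Del k M : ℝ) + 1) * (Lam k M + 2 * Real.log ((i : ℝ) + 2)) ≤ (c * l) * (c * l') :=
        mul_le_mul hD2 hL hL0 (by positivity)
      have h5 : ((Del k M : ℝ) + 1) * (Lam k M + 2 * Real.log ((i : ℝ) + 2)) * E ≤
          (c * l) * (c * l') * E := mul_le_mul_of_nonneg_right h4 hE
      have h6 : 0 ≤ c ^ 2 * (l * l' * E) := by positivity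
      nlinarith
    calc Er k M i E = √(8 * ((Del k M : ℝ) + 1) * (Lam k M + 2 * Real.log ((i : ℝ) + 2)) * E) := rfl
      _ ≤ √((8 * c) ^ 2 * (l * l' * E)) := Real.sqrt_le_sqrt h3
      _ = 8 * c * √(l * l' * E) := by
        rw [Real.sqrt_mul (by positivity), Real.sqrt_sq (by positivity)]
  · have h3 : 0 ≤ c * l := by positivity
    nlinarith

end Pool.MP_92ef0c_nt.SG
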