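import Pool.Agent.Lib_MP_92ef0c_sg.Defs

/-! # [SG-E2, E3] the factor of a system -/

set_option autoImplicit false

namespace Pool.MP_92ef0c_nt.SG

open Finset
open Pool.MP_92ef0c_nt.PB (Pz V zz Rough rho)
open Pool.MP_92ef0c_nt.SH (EX ind rr gg Bd Prim IsD SSL Del Lam Exc Inter)

private theorem shift_lamL (lam : Finset ℕ → ℝ) (hlam : ∀ A, 0 ≤ lam A)
    (hinv : ∀ (A : Finset ℕ) (t : ℕ), lam (A.image (fun a => a + t)) = lam A) (R : ℕ) (S : Finset ℕ)
    (hne : S.Nonempty) (hS : ∀ a ∈ S, ∀ b ∈ S, a ≤ b + R) :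
    lam S ≤ ∑ B ∈ (range (R + 1)).powerset, lam B := by
  have hm := S.min'_mem hne
  have h1 : ((S.image (fun a => a - S.min' hne)).image (fun a => a + S.min' hne)) = S := by
    rw [Finset.image_image]
    conv_rhs => rw [← Finset.image_id (s := S)]
    refine Finset.image_congr fun a ha => ?_
    have h2 : S.min' hne ≤ a := S.min'_le a ha
    show a - S.min' hne + S.min' hne = a
    omega
  have h3 : lam S = lam (S.image (fun a => a - S.min' hne)) := by
    conv_lhs => rw [← h1]
    exact hinv _ _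
  rw [h3]
  refine Finset.single_le_sum (f := lam) (fun B _ => hlam B) ?_
  rw [Finset.mem_powerset]
  intro b hb
  rw [Finset.mem_image] at hb
  obtain ⟨a, ha, rfl⟩ := hb
  have h4 := hS a ha _ hm
  rw [Finset.mem_range]
  omega

/-- [SG-E2] PROOF: for `k = |L|`; each of the `2^k` factors is `1` or `lam (A.image Prod.snd)` with, if not equal to `1`, all
differences of the elements of `A.image Prod.snd` at most `R`; by translation invariance it is `lam B` for some
`B ⊆ range (R + 1)`. So `K = (1 + ∑_{B ⊆ range (R+1)} lam B) ^ (2 ^ k)`. -/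
theorem lamL_bound (lam : Finset ℕ → ℝ) (hlam : ∀ A, 0 ≤ lam A)
    (hinv : ∀ (A : Finset ℕ) (t : ℕ), lam (A.image (fun a => a + t)) = lam A) (k R : ℕ) :
    ∃ K : ℝ, 1 ≤ K ∧ ∀ L : Finset (ℕ × ℕ), L.card = k → Near lam R L →
      0 ≤ lamL lam L ∧ lamL lam L ≤ K := by
  classical
  obtain ⟨K0, hK0⟩ : ∃ K0, K0 = 1 + ∑ B ∈ (range (R + 1)).powerset, lam B := ⟨_, rfl⟩
  have hs : 0 ≤ ∑ B ∈ (range (R + 1)).powerset, lam B := Finset.sum_nonneg fun B _ => hlam B
  have h1 : 1 ≤ K0 := by rw [hK0]; linarith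
  refine ⟨K0 ^ (2 ^ k), one_le_pow₀ h1, fun L hk hN => ?_⟩
  have h0 : ∀ A ∈ L.powerset, 0 ≤ (if 2 ≤ A.card ∧ Par A then lam (A.image Prod.snd) else 1) := by
    intro A _
    split_ifs
    · exact hlam _
    · exact zero_le_one
  have h2 : ∀ A ∈ L.powerset, (if 2 ≤ A.card ∧ Par A then lam (A.image Prod.snd) else 1) ≤ K0 := by
    intro A hA
    split_ifs with hc
    · rcases hN A (Finset.mem_powerset.1 hA) hc.1 hc.2 with h3 | h3
      · have hne : (A.image Prod.snd).Nonempty := by
          rw [Finset.image_nonempty]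
          exact Finset.card_pos.1 (by omega)
        have h4 := shift_lamL lam hlam hinv R (A.image Prod.snd) hne (by
          intro a ha b hb
          rw [Finset.mem_image] at ha hb
          obtain ⟨l, hl, rfl⟩ := ha
          obtain ⟨l', hl', rfl⟩ := hb
          exact h3 l hl l' hl')
        rw [hK0]
        linarith
      · rw [h3]
        exact h1
    · exact h1
  refine ⟨?_, ?_⟩
  · unfold lamL
    exact Finset.prod_nonneg h0
  · unfold lamL
    calc (∏ A ∈ L.powerset, if 2 ≤ A.card ∧ Par A then lam (A.image Prod.snd) else 1)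
        ≤ ∏ A ∈ L.powerset, K0 := Finset.prod_le_prod h0 h2
      _ = K0 ^ (2 ^ k) := by rw [Finset.prod_const, Finset.card_powerset, hk]

/-- [SG-E3] PROOF: unfold; the factors agree. -/
theorem lamL_same (lam lam' : Finset ℕ → ℝ) (L : Finset (ℕ × ℕ)) (h : Same lam lam' L) :
    lamL lam L = lamL lam' L := by
  classical
  unfold lamL
  refine Finset.prod_congr rfl fun A hA => ?_
  by_cases hc : 2 ≤ A.card ∧ Par A
  · rw [if_pos hc, if_pos hc, h A (Finset.mem_powerset.1 hA) hc.1 hc.2]
  · rw [if_neg hc, if_neg hc]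

end Pool.MP_92ef0c_nt.SG
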