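import Pool.Agent.Lib_MP_92ef0c_sg.Defs

/-! # [SG-C] one configuration passes all tests, with weights -/

set_option autoImplicit false

namespace Pool.MP_92ef0c_nt.SG

open Finset
open Pool.MP_92ef0c_nt.SH (EX)

private theorem EXc_const {Ω : Type} (W : Finset Ω) (μ : Ω → ℝ) (h1 : ∑ ω ∈ W, μ ω = 1) (c : ℝ) :
    EX W μ (fun _ => c) = c := by
  unfold EX
  rw [← Finset.sum_mul, h1, one_mul]

private theorem EXc_add {Ω : Type} (W : Finset Ω) (μ : Ω → ℝ) (f g : Ω → ℝ) :
    EX W μ (fun v => f v + g v) = EX W μ f + EX W μ g := by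
  unfold EX
  rw [← Finset.sum_add_distrib]
  exact Finset.sum_congr rfl (fun v _ => by ring)

private theorem EXc_smul {Ω : Type} (W : Finset Ω) (μ : Ω → ℝ) (c : ℝ) (f : Ω → ℝ) :
    EX W μ (fun v => c * f v) = c * EX W μ f := by
  unfold EX
  rw [Finset.mul_sum]
  exact Finset.sum_congr rfl (fun v _ => by ring)

private theorem EXc_mono {Ω : Type} (W : Finset Ω) (μ : Ω → ℝ) (hμ : ∀ ω ∈ W, 0 ≤ μ ω)
    (f g : Ω → ℝ) (h : ∀ v ∈ W, f v ≤ g v) : EX W μ f ≤ EX W μ g := by
  unfold EX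
  exact Finset.sum_le_sum (fun v hv => mul_le_mul_of_nonneg_left (h v hv) (hμ v hv))

private theorem EXc_sum {Ω ι : Type} (W : Finset Ω) (μ : Ω → ℝ) (J : Finset ι)
    (f : ι → Ω → ℝ) : EX W μ (fun v => ∑ j ∈ J, f j v) = ∑ j ∈ J, EX W μ (f j) := by
  unfold EX
  rw [Finset.sum_comm]
  exact Finset.sum_congr rfl (fun v _ => by rw [Finset.mul_sum])

/-- the moment generating function of a centred function bounded by `2` -/
private theorem EXc_exp {Ω : Type} (W : Finset Ω) (μ : Ω → ℝ) (hμ : ∀ ω ∈ W, 0 ≤ μ ω)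
    (h1 : ∑ ω ∈ W, μ ω = 1) (f : Ω → ℝ) (hf : ∀ v ∈ W, |f v| ≤ 1) (s : ℝ) :
    EX W μ (fun v => Real.exp (s * (f v - EX W μ f))) ≤ Real.exp (2 * s ^ 2) := by
  have hE0 : -1 ≤ EX W μ f := by
    have := EXc_mono W μ hμ (fun _ => -1) f (fun v hv => (abs_le.mp (hf v hv)).1)
    rwa [EXc_const W μ h1] at this
  have hE1 : EX W μ f ≤ 1 := by
    have := EXc_mono W μ hμ f (fun _ => 1) (fun v hv => (abs_le.mp (hf v hv)).2)
    rwa [EXc_const W μ h1] at this
  have hc : ∀ x : ℝ, |x| ≤ 2 →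
      Real.exp (s * x) ≤ Real.cosh (2 * s) + x / 2 * Real.sinh (2 * s) := by
    intro x hx
    rw [abs_le] at hx
    have ha : 0 ≤ (1 - x / 2) / 2 := by linarith
    have hb : 0 ≤ (1 + x / 2) / 2 := by linarith
    have h2 := convexOn_exp.2 (Set.mem_univ (-(2 * s))) (Set.mem_univ (2 * s)) ha hb (by ring)
    simp only [smul_eq_mul] at h2
    have h3 : (1 - x / 2) / 2 * -(2 * s) + (1 + x / 2) / 2 * (2 * s) = s * x := by ring
    rw [h3] at h2
    refine h2.trans (le_of_eq ?_)
    rw [Real.cosh_eq, Real.sinh_eq]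
    ring
  calc EX W μ (fun v => Real.exp (s * (f v - EX W μ f)))
      ≤ EX W μ (fun v => (Real.cosh (2 * s) - EX W μ f / 2 * Real.sinh (2 * s)) +
          Real.sinh (2 * s) / 2 * f v) := by
        apply EXc_mono W μ hμ
        intro v hv
        have h1 := abs_le.mp (hf v hv)
        refine (hc (f v - EX W μ f) (by rw [abs_le]; constructor <;> linarith)).trans (le_of_eq ?_)
        ring
    _ = Real.cosh (2 * s) := by
        rw [EXc_add, EXc_const W μ h1, EXc_smul]; ring
    _ ≤ Real.exp ((2 * s) ^ 2 / 2) := Real.cosh_le_exp_half_sq (2 * s)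
    _ = Real.exp (2 * s ^ 2) := by
        congr 1
        ring

/-- the same for a function bounded by `c` -/
private theorem EXc_expW {Ω : Type} (W : Finset Ω) (μ : Ω → ℝ) (hμ : ∀ ω ∈ W, 0 ≤ μ ω)
    (h1 : ∑ ω ∈ W, μ ω = 1) (f : Ω → ℝ) (c : ℝ) (hf : ∀ v ∈ W, |f v| ≤ c) (s : ℝ) :
    EX W μ (fun v => Real.exp (s * (f v - EX W μ f))) ≤ Real.exp (2 * s ^ 2 * c ^ 2) := by
  rcases lt_trichotomy c 0 with hc | hc | hc
  · have hW : W = ∅ := by
      rw [Finset.eq_empty_iff_forall_notMem]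
      intro v hv
      have := (abs_nonneg (f v)).trans (hf v hv)
      linarith
    rw [hW, Finset.sum_empty] at h1
    norm_num at h1
  · subst hc
    have hf0 : ∀ v ∈ W, f v = 0 := fun v hv => abs_nonpos_iff.1 (hf v hv)
    have hE : EX W μ f = 0 := by
      unfold EX
      exact Finset.sum_eq_zero (fun v hv => by rw [hf0 v hv, mul_zero])
    have h2 : EX W μ (fun v => Real.exp (s * (f v - EX W μ f))) = EX W μ (fun _ => 1) := by
      unfold EX at hE ⊢
      refine Finset.sum_congr rfl (fun v hv => ?_)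
      simp only [hE, hf0 v hv, sub_zero, mul_zero, Real.exp_zero]
    rw [h2, EXc_const W μ h1]
    simp
  · have h2 := EXc_exp W μ hμ h1 (fun v => f v / c) (fun v hv => by
      rw [abs_div, abs_of_pos hc, div_le_one hc]
      exact hf v hv) (s * c)
    have h3 : EX W μ (fun v => f v / c) = EX W μ f / c := by
      have := EXc_smul W μ c⁻¹ f
      calc EX W μ (fun v => f v / c) = EX W μ (fun v => c⁻¹ * f v) := by
            congr 1
            funext v
            rw [div_eq_mul_inv, mul_comm]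
        _ = EX W μ f / c := by rw [this, div_eq_mul_inv, mul_comm]
    rw [h3] at h2
    have h4 : (fun v => Real.exp (s * c * (f v / c - EX W μ f / c))) =
        fun v => Real.exp (s * (f v - EX W μ f)) := by
      funext v
      congr 1
      field_simp
    rw [h4] at h2
    refine h2.trans (le_of_eq ?_)
    congr 1
    ring

/-- [SG-C] PROOF: as `config'` of `Lib_MP_92ef0c_sh/Config.lean` (copy the file, the helpers are private) with the bound
`|f j n ω| ≤ c j n` in place of `1`: `EX exp (s (f - E f)) ≤ exp (2 s^2 (c j n)^2)` (from `EXc_exp` by scaling, or the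
same convexity argument for `|x| ≤ 2 c`), so the moment generating function of `Y j` is at most
`exp (2 s^2 E_j)` with `E_j = ∑_{n ∈ T j} (c j n)^2`; `σ j = √(Λ j / (2 E_j))`. If `E_j = 0` then all `f j n ω = 0` for `ω ∈ W`, so
the sum vanishes. -/
theorem configW {Ω ι : Type} (W : Finset Ω) (μ : Ω → ℝ) (hμ : ∀ ω ∈ W, 0 ≤ μ ω)
    (h1 : ∑ ω ∈ W, μ ω = 1) (J : Finset ι) (T : ι → Finset ℕ) (f : ι → ℕ → Ω → ℝ)
    (c : ι → ℕ → ℝ) (hf : ∀ j ∈ J, ∀ n ∈ T j, ∀ ω ∈ W, |f j n ω| ≤ c j n)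
    (hind : ∀ j ∈ J, ∀ s : ℝ,
      EX W μ (fun ω => ∏ n ∈ T j, Real.exp (s * (f j n ω - EX W μ (f j n)))) =
        ∏ n ∈ T j, EX W μ (fun ω => Real.exp (s * (f j n ω - EX W μ (f j n)))))
    (Λ : ι → ℝ) (hΛ : ∀ j ∈ J, 0 < Λ j) (hsum : ∑ j ∈ J, 2 * Real.exp (-Λ j) < 1) :
    ∃ ω ∈ W, 0 < μ ω ∧
      ∀ j ∈ J, |∑ n ∈ T j, (f j n ω - EX W μ (f j n))| ≤ √(8 * (∑ n ∈ T j, (c j n) ^ 2) * Λ j) := by
  have hex : ∃ C : ι → ℝ, ∀ j, C j = ∑ n ∈ T j, (c j n) ^ 2 := ⟨_, fun _ => rfl⟩
  obtain ⟨C, hC⟩ := hex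
  have hC0 : ∀ j, 0 ≤ C j := fun j => by
    rw [hC]
    exact Finset.sum_nonneg (fun n _ => sq_nonneg _)
  have hgoal : ∃ ω ∈ W, 0 < μ ω ∧
      ∀ j ∈ J, |∑ n ∈ T j, (f j n ω - EX W μ (f j n))| ≤ √(8 * C j * Λ j) := by
    set σ : ι → ℝ := fun j => √(Λ j / (2 * C j)) with hσ
    set Y : ι → Ω → ℝ := fun j v => ∑ n ∈ T j, (f j n v - EX W μ (f j n)) with hY
    have hmgf : ∀ j ∈ J, ∀ s : ℝ,
        EX W μ (fun v => Real.exp (s * Y j v)) ≤ Real.exp (2 * s ^ 2 * C j) := by
      intro j hj s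
      have h2 : ∀ v, Real.exp (s * Y j v) =
          ∏ n ∈ T j, Real.exp (s * (f j n v - EX W μ (f j n))) := by
        intro v
        rw [hY, ← Real.exp_sum, Finset.mul_sum]
      simp only [h2]
      rw [hind j hj s]
      calc ∏ n ∈ T j, EX W μ (fun v => Real.exp (s * (f j n v - EX W μ (f j n))))
          ≤ ∏ n ∈ T j, Real.exp (2 * s ^ 2 * c j n ^ 2) := by
            apply Finset.prod_le_prod
            · intro n _
              have := EXc_mono W μ hμ (fun _ => 0)
                (fun v => Real.exp (s * (f j n v - EX W μ (f j n)))) (fun v _ => (Real.exp_pos _).le)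
              rwa [EXc_const W μ h1] at this
            · intro n hn
              exact EXc_expW W μ hμ h1 (f j n) (c j n) (hf j hj n hn) s
        _ = Real.exp (2 * s ^ 2 * C j) := by
            rw [← Real.exp_sum, hC j, Finset.mul_sum]
    have hσT : ∀ j ∈ J, 2 * σ j ^ 2 * C j ≤ Λ j := by
      intro j hj
      have hL := hΛ j hj
      rcases (hC0 j).eq_or_lt with h0 | hn
      · rw [← h0, mul_zero]
        exact hL.le
      · have hσ2 : σ j ^ 2 = Λ j / (2 * C j) := Real.sq_sqrt (by positivity)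
        rw [hσ2]
        apply le_of_eq
        field_simp
    set Φ : Ω → ℝ := fun v => ∑ j ∈ J,
      Real.exp (-(2 * Λ j)) * (Real.exp (σ j * Y j v) + Real.exp (-σ j * Y j v))
      with hΦ
    have hEΦ : EX W μ Φ < 1 := by
      refine lt_of_le_of_lt ?_ hsum
      rw [hΦ, EXc_sum]
      apply Finset.sum_le_sum
      intro j hj
      rw [EXc_smul, EXc_add]
      have h2 := hmgf j hj (σ j)
      have h3 := hmgf j hj (-σ j)
      rw [neg_sq] at h3
      have h4 : Real.exp (2 * σ j ^ 2 * C j) ≤ Real.exp (Λ j) :=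
        Real.exp_le_exp.mpr (hσT j hj)
      calc Real.exp (-(2 * Λ j)) * (EX W μ (fun v => Real.exp (σ j * Y j v)) +
            EX W μ (fun v => Real.exp (-σ j * Y j v))) ≤
            Real.exp (-(2 * Λ j)) * (2 * Real.exp (Λ j)) :=
            mul_le_mul_of_nonneg_left (by linarith) (Real.exp_pos _).le
        _ = 2 * (Real.exp (-(2 * Λ j)) * Real.exp (Λ j)) := by ring
        _ = 2 * Real.exp (-Λ j) := by
            rw [← Real.exp_add]
            congr 2
            ring
    obtain ⟨v, hvW, hv1, hv2⟩ : ∃ v ∈ W, 0 < μ v ∧ Φ v < 1 := by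
      by_contra hcon
      push Not at hcon
      have h2 : (1 : ℝ) ≤ EX W μ Φ := by
        rw [← h1]
        unfold EX
        apply Finset.sum_le_sum
        intro v hv
        rcases (hμ v hv).lt_or_eq with h | h
        · exact le_mul_of_one_le_right h.le (hcon v hv h)
        · rw [← h, zero_mul]
      linarith
    refine ⟨v, hvW, hv1, ?_⟩
    intro j hj
    show |Y j v| ≤ _
    have hL := hΛ j hj
    rcases (hC0 j).eq_or_lt with h0 | hn
    · have hc0 : ∀ n ∈ T j, c j n = 0 := by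
        intro n hn
        have h5 : ∑ n ∈ T j, (c j n) ^ 2 = 0 := by
          rw [← hC j]
          exact h0.symm
        have h6 := (Finset.sum_eq_zero_iff_of_nonneg (fun n _ => sq_nonneg (c j n))).1 h5 n hn
        exact pow_eq_zero_iff (two_ne_zero) |>.1 h6
      have hf0 : ∀ n ∈ T j, ∀ v ∈ W, f j n v = 0 := fun n hn v hv =>
        abs_nonpos_iff.1 ((hf j hj n hn v hv).trans (hc0 n hn).le)
      have hY0 : Y j v = 0 := by
        rw [hY]
        refine Finset.sum_eq_zero (fun n hn => ?_)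
        have hE : EX W μ (f j n) = 0 := by
          unfold EX
          exact Finset.sum_eq_zero (fun w hw => by rw [hf0 n hn w hw, mul_zero])
        rw [hE, hf0 n hn v hvW, sub_zero]
      rw [hY0, abs_zero]
      exact Real.sqrt_nonneg _
    have hσ2 : σ j ^ 2 = Λ j / (2 * C j) := Real.sq_sqrt (by positivity)
    have h2 : Real.exp (-(2 * Λ j)) *
        (Real.exp (σ j * Y j v) + Real.exp (-σ j * Y j v)) ≤ 1 := by
      refine le_trans ?_ hv2.le
      exact Finset.single_le_sum (f := fun j => Real.exp (-(2 * Λ j)) *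
        (Real.exp (σ j * Y j v) + Real.exp (-σ j * Y j v))) (fun i _ => by positivity) hj
    rw [Real.exp_neg, inv_mul_le_iff₀ (Real.exp_pos _), mul_one] at h2
    have h3 : Real.exp (σ j * |Y j v|) ≤ Real.exp (σ j * Y j v) + Real.exp (-σ j * Y j v) := by
      rcases abs_cases (Y j v) with h | h
      · rw [h.1]
        have := Real.exp_pos (-σ j * Y j v)
        linarith
      · rw [h.1]
        have := Real.exp_pos (σ j * Y j v)
        have h6 : σ j * -Y j v = -σ j * Y j v := by ring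
        rw [h6]
        linarith
    have h5 : σ j * |Y j v| ≤ 2 * Λ j := Real.exp_le_exp.1 (h3.trans h2)
    apply Real.le_sqrt_of_sq_le
    have hσ0 : 0 ≤ σ j := Real.sqrt_nonneg _
    have h6 : (σ j * |Y j v|) ^ 2 ≤ (2 * Λ j) ^ 2 := by
      apply pow_le_pow_left₀ (by positivity) h5
    rw [mul_pow, hσ2] at h6
    have h9 : |Y j v| ^ 2 * Λ j ≤ (8 * C j * Λ j) * Λ j := by
      have h10 : Λ j / (2 * C j) * |Y j v| ^ 2 * (2 * C j) = |Y j v| ^ 2 * Λ j := by
        field_simp
      rw [← h10]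
      calc Λ j / (2 * C j) * |Y j v| ^ 2 * (2 * C j) ≤
            (2 * Λ j) ^ 2 * (2 * C j) :=
            mul_le_mul_of_nonneg_right h6 (by positivity)
        _ = (8 * C j * Λ j) * Λ j := by ring
    exact le_of_mul_le_mul_right h9 hL
  obtain ⟨ω, hω, h2, h3⟩ := hgoal
  refine ⟨ω, hω, h2, fun j hj => ?_⟩
  rw [← hC j]
  exact h3 j hj

end Pool.MP_92ef0c_nt.SG
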