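import Pool.Agent.Lib_MP_92ef0c_sh.Defs
import Pool.Agent.Lib_MP_92ef0c_sh.Color

/-!
# MP_92ef0c_nt, independence of all constants: definitions

Measures on subsets of `ℕ` with prescribed inclusion probabilities `f T = ∏_{t ∈ T} ρ t * ∏_{A ⊆ T} κ A`,
where `κ A` is an arbitrary factor `lam A ≥ 0` if `A` has at least two elements, all of them close to each
other, and `1` otherwise.
-/

set_option autoImplicit false

namespace Pool.MP_92ef0c_nt.SG

open Finset
open Pool.MP_92ef0c_nt.PB (Pz V zz Rough rho)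
open Pool.MP_92ef0c_nt.SH (EX ind rr gg Bd Prim IsD SSL Del Lam Exc Inter)

noncomputable section

/-- `s` and `t` are neighbours for the width `w` -/
def nbr (w : ℕ → ℕ) (s t : ℕ) : Prop := s ≤ t + w s ∧ t ≤ s + w t

/-- the interaction of the points of `A` -/
def kap (lam : Finset ℕ → ℝ) (w : ℕ → ℕ) (A : Finset ℕ) : ℝ :=
  open Classical in if 2 ≤ A.card ∧ ∀ s ∈ A, ∀ t ∈ A, nbr w s t then lam A else 1

/-- product of the intensities and of the interactions of all subsets -/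
def wtG (κ : Finset ℕ → ℝ) (ρ : ℕ → ℝ) (T : Finset ℕ) : ℝ :=
  (∏ t ∈ T, ρ t) * ∏ A ∈ T.powerset, κ A

/-- signed measure on the subsets of `U` with the inclusion probabilities `f` -/
def muG (U : Finset ℕ) (f : Finset ℕ → ℝ) (S : Finset ℕ) : ℝ :=
  ∑ T ∈ U.powerset.filter (fun T => S ⊆ T), (-1 : ℝ) ^ (T \ S).card * f T

/-- the values of the forms at `n` -/
def sites (L : Finset (ℕ × ℕ)) (n : ℕ) : Finset ℕ := L.image (fun l => l.1 * n + l.2)

/-- all forms of `A` have the same leading coefficient -/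
def Par (A : Finset (ℕ × ℕ)) : Prop := ∀ l ∈ A, ∀ l' ∈ A, l.1 = l'.1

open Classical in
/-- product of the factors of the sets of the constant terms of at least two forms of `L` with the same
leading coefficient -/
def lamL (lam : Finset ℕ → ℝ) (L : Finset (ℕ × ℕ)) : ℝ :=
  ∏ A ∈ L.powerset, if 2 ≤ A.card ∧ Par A then lam (A.image Prod.snd) else 1

/-- every set of the constant terms of at least two forms of `L` with the same leading coefficient has
diameter at most `R` or factor `1` -/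
def Near (lam : Finset ℕ → ℝ) (R : ℕ) (L : Finset (ℕ × ℕ)) : Prop :=
  ∀ A ⊆ L, 2 ≤ A.card → Par A →
    (∀ l ∈ A, ∀ l' ∈ A, l.2 ≤ l'.2 + R) ∨ lam (A.image Prod.snd) = 1

/-- the factors of `lam` and `lam'` along `L` are the same -/
def Same (lam lam' : Finset ℕ → ℝ) (L : Finset (ℕ × ℕ)) : Prop :=
  ∀ A ⊆ L, 2 ≤ A.card → Par A → lam (A.image Prod.snd) = lam' (A.image Prod.snd)

/-- error bound -/
def Er (k M i : ℕ) (E : ℝ) : ℝ :=
  √(8 * ((Del k M : ℝ) + 1) * (Lam k M + 2 * Real.log ((i : ℝ) + 2)) * E)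

/-- `w` is an admissible width for `lam` -/
def Wid (N₁ : ℕ) (lam : Finset ℕ → ℝ) (w : ℕ → ℕ) : Prop :=
  (∀ n, w n ≤ Nat.log 2 n) ∧ (∀ R, ∃ n₀, ∀ n, n₀ ≤ n → R ≤ w n) ∧
    ∀ T, 0 ≤ wtG (kap lam w) (rho N₁) T ∧ wtG (kap lam w) (rho N₁) T ≤ 1

/-- the correlations of `P` with the weights `F i` -/
def Tst (N₁ : ℕ) (lam : Finset ℕ → ℝ) (w : ℕ → ℕ) (F : ℕ → ℕ → ℝ) (P : Set ℕ) : Prop :=
  ∀ (M i u v : ℕ) (L : Finset (ℕ × ℕ)), Bd M L → u < 2 ^ M → v < 2 ^ M →
    |∑ n ∈ Ioc u v, F i n * (ind P L n - wtG (kap lam w) (rho N₁) (sites L n))| ≤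
      Er L.card M i (∑ n ∈ Ioc u v, (F i n) ^ 2)

/-! ## bilinear weights -/

/-- sign -/
def sg (A : Finset ℕ) (m : ℕ) : ℝ := open Classical in if m ∈ A then 1 else -1

/-- the multiplicative convolution of two sequences -/
def conv (m₀ n₀ : ℕ) (α β : ℕ → ℝ) (r : ℕ) : ℝ :=
  ∑ m ∈ Icc 1 m₀, ∑ n ∈ Icc 1 n₀, if m * n = r then α m * β n else 0

/-- the bilinear weight with the code `j` -/
def bilc (j : ℕ) : ℕ → ℝ :=
  conv (Nat.unpair (Nat.unpair j).1).1 (Nat.unpair (Nat.unpair j).1).2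
    (sg (Finset.equivBitIndices (Nat.unpair (Nat.unpair j).2).1))
    (sg (Finset.equivBitIndices (Nat.unpair (Nat.unpair j).2).2))

/-- the constant `1`, the weights `F` and the bilinear weights in one sequence -/
def FF (F : ℕ → ℕ → ℝ) (i n : ℕ) : ℝ :=
  if i = 0 then 1 else if i % 2 = 1 then F (i / 2) n else bilc (i / 2 - 1) n

/-! ## the form of Q1 -/

/-- the frozen form of Q1 for the pairs `n, n + e` in `P`, with the main term multiplied by `t` -/
def PQ (P : Set ℕ) (e : ℕ) (t : ℝ) : Prop :=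
  ∀ B C : ℝ, 0 ≤ B → 0 ≤ C →
    ∃ K : ℝ, ∃ x0 : ℝ, ∀ x : ℝ, x0 ≤ x → ∀ q a : ℕ, 0 < q →
      (q : ℝ) ≤ (Real.log x) ^ B →
      Nat.Coprime a q → Nat.Coprime (a + e) q →
      |(open Classical in (((Finset.range (⌊x⌋₊ + 1)).filter
            (fun n => n ∈ P ∧ n + e ∈ P ∧ n ≡ a [MOD q])).card : ℝ))
        - t * (2 / (((Finset.range q).filter
              (fun A => Nat.Coprime A q ∧ Nat.Coprime (A + e) q)).card : ℝ)
          * (∏ p ∈ e.primeFactors.filter (fun p => 2 < p),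
              (((p : ℝ) - 1) / ((p : ℝ) - 2)))
          * (∏' p : {p : ℕ // p.Prime ∧ 2 < p}, (1 - 1 / (((p : ℕ) : ℝ) - 1) ^ 2))
          * (∫ t in (2 : ℝ)..x, 1 / (Real.log t) ^ 2))|
        ≤ K * x / (Real.log x) ^ C

end

end Pool.MP_92ef0c_nt.SG
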