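import Pool.Agent.Lib_MP_92ef0c_sg.Defs

/-! # [SG-U] products over all subsets -/

set_option autoImplicit false

namespace Pool.MP_92ef0c_nt.SG

open Finset

/-- PROOF: unfold; one subset, `κ ∅ = 1`. -/
theorem wtG_empty (κ : Finset ℕ → ℝ) (ρ : ℕ → ℝ) (h1 : ∀ A : Finset ℕ, A.card ≤ 1 → κ A = 1) :
    wtG κ ρ ∅ = 1 := by
  unfold wtG
  rw [Finset.prod_empty, one_mul, Finset.powerset_empty, Finset.prod_singleton]
  exact h1 ∅ (by simp)

/-- PROOF: `Finset.prod_insert`, `Finset.prod_powerset_insert` (or `powerset_insert` + disjoint union). -/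
theorem wtG_insert (κ : Finset ℕ → ℝ) (ρ : ℕ → ℝ) (v : ℕ) (S : Finset ℕ) (hv : v ∉ S) :
    wtG κ ρ (insert v S) = (ρ v * ∏ A ∈ S.powerset, κ (insert v A)) * wtG κ ρ S := by
  unfold wtG
  rw [Finset.prod_insert hv, Finset.prod_powerset_insert hv]
  ring

/-- [SG-U] PROOF: the subsets of `T ∪ T'` are the `A ∪ A'`, `A ⊆ T`, `A' ⊆ T'`; if both are nonempty then the factor
is `1` (`hloc`); so the product over the subsets of `T ∪ T'` is the product over the subsets of `T` times
the product over the nonempty subsets of `T'` (and `κ ∅ = 1`). An easy way: induction on `T'` with `wtG_insert`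
(`insert a (T ∪ T')`: for `B ⊆ T ∪ T'` the factor `κ (insert a B)` is `1` unless `B ⊆ T'`). -/
theorem wtG_union (nb : ℕ → ℕ → Prop) (κ : Finset ℕ → ℝ) (ρ : ℕ → ℝ)
    (h1 : ∀ A : Finset ℕ, A.card ≤ 1 → κ A = 1)
    (hloc : ∀ A : Finset ℕ, ∀ s ∈ A, ∀ t ∈ A, ¬ nb s t → κ A = 1)
    (T T' : Finset ℕ) (hd : Disjoint T T') (hno : ∀ s ∈ T, ∀ t ∈ T', ¬ nb s t) :
    wtG κ ρ (T ∪ T') = wtG κ ρ T * wtG κ ρ T' := by
  induction T' using Finset.induction_on with
  | empty => rw [Finset.union_empty, wtG_empty κ ρ h1, mul_one]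
  | insert a T' ha ih =>
    have haT : a ∉ T := fun h => (Finset.disjoint_left.1 hd h) (Finset.mem_insert_self a T')
    have hd' : Disjoint T T' := hd.mono_right (Finset.subset_insert a T')
    have ih' := ih hd' (fun s hs t ht => hno s hs t (Finset.mem_insert_of_mem ht))
    have ha2 : a ∉ T ∪ T' := by
      rw [Finset.mem_union]
      exact fun h => h.elim haT ha
    rw [Finset.union_insert, wtG_insert κ ρ a _ ha2, wtG_insert κ ρ a _ ha, ih']
    have hprod : ∏ A ∈ (T ∪ T').powerset, κ (insert a A) = ∏ A ∈ T'.powerset, κ (insert a A) := by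
      symm
      refine Finset.prod_subset (Finset.powerset_mono.2 Finset.subset_union_right) ?_
      intro A hA hA'
      rw [Finset.mem_powerset] at hA hA'
      obtain ⟨s, hs, hs'⟩ := Finset.not_subset.1 hA'
      have hsT : s ∈ T := (Finset.mem_union.1 (hA hs)).resolve_right hs'
      exact hloc _ s (Finset.mem_insert_of_mem hs) a (Finset.mem_insert_self a A)
        (hno s hsT a (Finset.mem_insert_self a T'))
    rw [hprod]
    ring

/-- the interaction is local -/
theorem kap_one (lam : Finset ℕ → ℝ) (w : ℕ → ℕ) (A : Finset ℕ) (h : A.card ≤ 1) :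
    kap lam w A = 1 := by
  unfold kap
  rw [if_neg]
  omega

theorem kap_loc (lam : Finset ℕ → ℝ) (w : ℕ → ℕ) (A : Finset ℕ) (s : ℕ) (hs : s ∈ A) (t : ℕ)
    (ht : t ∈ A) (h : ¬ nbr w s t) : kap lam w A = 1 := by
  unfold kap
  rw [if_neg]
  exact fun h' => h (h'.2 s hs t ht)

theorem kap_nonneg (lam : Finset ℕ → ℝ) (hlam : ∀ A, 0 ≤ lam A) (w : ℕ → ℕ) (A : Finset ℕ) :
    0 ≤ kap lam w A := by
  unfold kap
  split_ifs
  · exact hlam A
  · exact zero_le_one

theorem nbr_symm (w : ℕ → ℕ) (s t : ℕ) (h : nbr w s t) : nbr w t s := ⟨h.2, h.1⟩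

end Pool.MP_92ef0c_nt.SG
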