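import Pool.Agent.Lib_MP_92ef0c_sg.Fini
import Pool.Agent.Lib_MP_92ef0c_sg.Union
import Pool.Agent.Lib_MP_92ef0c_sh.Compact

/-! # [SG-K2] the sets -/

set_option autoImplicit false

namespace Pool.MP_92ef0c_nt.SG

open Finset
open Pool.MP_92ef0c_nt.PB (Pz V zz Rough rho)
open Pool.MP_92ef0c_nt.SH (EX ind rr gg Bd Prim IsD SSL Del Lam Exc Inter compact)

/-- [SG-K2] PROOF: `compact` applied to the sets of `finite_gen` (`f = wtG (kap lam w) (rho N₁)`, `hmul` from `wtG_union`,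
`kap_one`, `kap_loc`), as in `exists_P` of `Lib_MP_92ef0c_sh/ExistsP.lean` (copy). `wtG T ≠ 0` implies `rho t ≠ 0` for `t ∈ T` and
`κ A ≠ 0` for all `A ⊆ T`. -/
theorem exists_PP (N₁ : ℕ) (hρ : ∀ n, 0 ≤ rho N₁ n ∧ rho N₁ n ≤ 1 / 4) (lam : Finset ℕ → ℝ)
    (w : ℕ → ℕ) (hw : Wid N₁ lam w)
    (hpos : ∀ U S : Finset ℕ, S ⊆ U → 0 ≤ muG U (wtG (kap lam w) (rho N₁)) S)
    (F : ℕ → ℕ → ℝ) : ∃ P : Set ℕ, (∀ n ∈ P, 0 < rho N₁ n) ∧
      (∀ A : Finset ℕ, (∀ a ∈ A, a ∈ P) → kap lam w A ≠ 0) ∧ Tst N₁ lam w F P := by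
  choose S hS1 hS2 using finite_gen w hw.1 (wtG (kap lam w) (rho N₁))
    (wtG_empty _ _ (kap_one lam w))
    (fun T T' hd hno => wtG_union (nbr w) _ _ (kap_one lam w)
      (fun A s hs t ht h => kap_loc lam w A s hs t ht h) T T' hd hno) hpos F
  obtain ⟨P, hP⟩ := compact (fun N => (S N : Set ℕ))
  refine ⟨P, ?_, ?_, ?_⟩
  · intro n hn
    obtain ⟨N, -, h⟩ := hP (n + 1) 0
    have h1 : n ∈ S N := (h n (Nat.lt_succ_self n)).1 hn
    obtain ⟨T, hT, hf⟩ := hS1 N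
    have h2 : ∏ t ∈ T, rho N₁ t ≠ 0 := fun h0 => hf (by unfold wtG; rw [h0, zero_mul])
    exact lt_of_le_of_ne (hρ n).1 (Ne.symm (Finset.prod_ne_zero_iff.1 h2 n (hT h1)))
  · intro A hA
    obtain ⟨N, -, h⟩ := hP (A.sup id + 1) 0
    obtain ⟨T, hT, hf⟩ := hS1 N
    have h1 : A ⊆ T := fun a ha => hT
      ((h a (Nat.lt_succ_of_le (Finset.le_sup (f := id) ha))).1 (hA a ha))
    have h2 : ∏ A ∈ T.powerset, kap lam w A ≠ 0 := fun h0 => hf (by unfold wtG; rw [h0, mul_zero])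
    exact Finset.prod_ne_zero_iff.1 h2 A (Finset.mem_powerset.2 h1)
  · intro M i u v L hBd hu hv
    have hm : ∀ l ∈ L, l.1 * v + l.2 < ∑ l ∈ L, (l.1 * v + l.2) + 1 := fun l hl =>
      Nat.lt_succ_of_le (Finset.single_le_sum (f := fun l : ℕ × ℕ => l.1 * v + l.2)
        (fun _ _ => Nat.zero_le _) hl)
    obtain ⟨N, hN, h⟩ := hP (∑ l ∈ L, (l.1 * v + l.2) + 1)
      (M + 1 + (L.card + 1) + (i + 1) + (∑ l ∈ L, (l.1 * v + l.2) + 1))
    have h1 := hS2 N M i u v L (by omega) (by omega) (by omega) hBd hu hv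
      (fun l hl => by have := hm l hl; omega)
    have h2 : ∀ n ∈ Ioc u v, ind P L n = ind (S N : Set ℕ) L n := by
      intro n hn
      have hnv : n ≤ v := (mem_Ioc.1 hn).2
      have h3 : (∀ l ∈ L, l.1 * n + l.2 ∈ P) ↔ ∀ l ∈ L, l.1 * n + l.2 ∈ (S N : Set ℕ) := by
        refine forall₂_congr fun l hl => h _ ?_
        have h4 := hm l hl
        have h5 : l.1 * n ≤ l.1 * v := Nat.mul_le_mul_left _ hnv
        omega
      unfold ind
      by_cases h4 : ∀ l ∈ L, l.1 * n + l.2 ∈ P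
      · rw [if_pos h4, if_pos (h3.1 h4)]
      · rw [if_neg h4, if_neg (fun h5 => h4 (h3.2 h5))]
    rw [Finset.sum_congr rfl (fun n hn => by rw [h2 n hn])]
    exact h1

end Pool.MP_92ef0c_nt.SG
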