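import Pool.Agent.Lib_MP_92ef0c_sg.Union

/-! # [SG-2] the measure is nonnegative -/

set_option autoImplicit false

namespace Pool.MP_92ef0c_nt.SG

open Finset

/-- alternating sum over the sets between `S` and `S ∪ W` -/
private def Yp (f : Finset ℕ → ℝ) (S W : Finset ℕ) : ℝ :=
  ∑ T ∈ W.powerset, (-1 : ℝ) ^ T.card * f (S ∪ T)

private theorem Yp_insert (f : Finset ℕ → ℝ) (S W : Finset ℕ) (v : ℕ) (hv : v ∉ W) :
    Yp f S (insert v W) = Yp f S W - Yp f (insert v S) W := by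
  unfold Yp
  rw [sum_powerset_insert hv, sub_eq_add_neg, ← sum_neg_distrib]
  congr 1
  apply sum_congr rfl
  intro T hT
  rw [mem_powerset] at hT
  rw [card_insert_of_notMem (fun h => hv (hT h)), pow_succ]
  have h1 : S ∪ insert v T = insert v S ∪ T := by
    rw [union_insert, insert_union]
  rw [h1]
  ring

private theorem Yp_act (nb : ℕ → ℕ → Prop) (κ : Finset ℕ → ℝ) (ρ : ℕ → ℝ)
    (hloc : ∀ A : Finset ℕ, ∀ s ∈ A, ∀ t ∈ A, ¬ nb s t → κ A = 1)
    (S W : Finset ℕ) (v : ℕ) (hv : v ∉ S) (hvW : v ∉ W) (hd : Disjoint S W)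
    (hno : ∀ u ∈ W, ¬ nb u v) :
    Yp (wtG κ ρ) (insert v S) W = (ρ v * ∏ A ∈ S.powerset, κ (insert v A)) * Yp (wtG κ ρ) S W := by
  unfold Yp
  rw [mul_sum]
  apply sum_congr rfl
  intro T hT
  rw [mem_powerset] at hT
  have hvT : v ∉ S ∪ T := by
    rw [mem_union, not_or]
    exact ⟨hv, fun h => hvW (hT h)⟩
  have h1 : insert v S ∪ T = insert v (S ∪ T) := by
    rw [insert_union]
  have h2 : ∏ A ∈ (S ∪ T).powerset, κ (insert v A) = ∏ A ∈ S.powerset, κ (insert v A) := by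
    symm
    apply prod_subset
    · exact powerset_mono.2 subset_union_left
    · intro A hA hAS
      rw [mem_powerset] at hA hAS
      obtain ⟨t, htA, htS⟩ := not_subset.1 hAS
      have htT : t ∈ T := by
        rcases mem_union.1 (hA htA) with h | h
        · exact absurd h htS
        · exact h
      exact hloc _ t (mem_insert_of_mem htA) v (mem_insert_self v A) (hno t (hT htT))
  rw [h1, wtG_insert κ ρ v (S ∪ T) hvT, h2]
  ring

private theorem pos_claim (nb : ℕ → ℕ → Prop) (κ : Finset ℕ → ℝ)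
    (ρ a : ℕ → ℝ) (hκ : ∀ A, 0 ≤ κ A)
    (hloc : ∀ A : Finset ℕ, ∀ s ∈ A, ∀ t ∈ A, ¬ nb s t → κ A = 1)
    (hρ : ∀ n, 0 ≤ ρ n) (ha : ∀ v, a v ≤ 1 / 4) (ha0 : ∀ v, 0 ≤ a v)
    (hact : ∀ (v : ℕ) (S : Finset ℕ), v ∉ S → ρ v * ∏ A ∈ S.powerset, κ (insert v A) ≤ a v)
    (hN : ∀ (v : ℕ) (T : Finset ℕ), (∀ u ∈ T, u ≠ v ∧ nb u v) → ∑ u ∈ T, a u ≤ 1 / 4) (n : ℕ) :
    ∀ W : Finset ℕ, W.card = n → ∀ S : Finset ℕ, Disjoint S W →
      0 ≤ Yp (wtG κ ρ) S W ∧
        ∀ v, v ∉ S → v ∉ W → Yp (wtG κ ρ) (insert v S) W ≤ 2 * a v * Yp (wtG κ ρ) S W := by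
  classical
  induction n using Nat.strong_induction_on with
  | _ n ih =>
    intro W hn S hd
    have hpos : 0 ≤ Yp (wtG κ ρ) S W := by
      rcases W.eq_empty_or_nonempty with h | ⟨u, hu⟩
      · subst h
        unfold Yp
        rw [powerset_empty, sum_singleton, card_empty, pow_zero, one_mul, union_empty]
        unfold wtG
        exact mul_nonneg (prod_nonneg fun i _ => hρ i) (prod_nonneg fun A _ => hκ A)
      · have h1 : (W.erase u).card < n := by
          rw [← hn]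
          exact card_erase_lt_of_mem hu
        have huS : u ∉ S := fun h => disjoint_left.1 hd h hu
        obtain ⟨h2, h3⟩ := ih _ h1 (W.erase u) rfl S (disjoint_of_subset_right (erase_subset _ _) hd)
        have h4 := h3 u huS (notMem_erase u W)
        have h5 := Yp_insert (wtG κ ρ) S (W.erase u) u (notMem_erase u W)
        rw [insert_erase hu] at h5
        rw [h5]
        nlinarith [ha u]
    refine ⟨hpos, ?_⟩
    intro v hvS hvW
    set N := W.filter (fun u => nb u v) with hNdef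
    set W0 := W.filter (fun u => ¬ nb u v) with hW0
    have hW0W : W0 ⊆ W := filter_subset _ _
    have hNW : N ⊆ W := filter_subset _ _
    have h0 : 0 ≤ Yp (wtG κ ρ) S W0 := by
      by_cases hc : W0.card < n
      · exact (ih _ hc W0 rfl S (disjoint_of_subset_right hW0W hd)).1
      · have : W0 = W := eq_of_subset_of_card_le hW0W (by omega)
        rw [this]
        exact hpos
    have hsub : ∀ M : Finset ℕ, M ⊆ N →
        (1 - 2 * ∑ u ∈ M, a u) * Yp (wtG κ ρ) S W0 ≤ Yp (wtG κ ρ) S (W0 ∪ M) ∧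
          Yp (wtG κ ρ) (insert v S) (W0 ∪ M) ≤ Yp (wtG κ ρ) (insert v S) W0 := by
      intro M
      induction M using Finset.induction_on with
      | empty => intro _; simp
      | @insert u M huM ihM =>
        intro hM
        have hMN : M ⊆ N := (subset_insert u M).trans hM
        have huN : u ∈ N := hM (mem_insert_self u M)
        have huW : u ∈ W := (mem_filter.1 huN).1
        obtain ⟨h1, h1'⟩ := ihM hMN
        have hu0 : u ∉ W0 ∪ M := by
          rw [mem_union, not_or]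
          refine ⟨fun h => ?_, huM⟩
          exact (mem_filter.1 h).2 (mem_filter.1 huN).2
        have hWs : W0 ∪ M ⊆ W := union_subset hW0W (hMN.trans hNW)
        have hcard : (W0 ∪ M).card < n := by
          rw [← hn]
          exact card_lt_card ⟨hWs, fun h => hu0 (h huW)⟩
        have huS : u ∉ S := fun h => disjoint_left.1 hd h huW
        have hdS : Disjoint S (W0 ∪ M) := disjoint_of_subset_right hWs hd
        obtain ⟨h2, h3⟩ := ih _ hcard (W0 ∪ M) rfl S hdS
        have h4 := h3 u huS hu0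
        have hdv : Disjoint (insert u (insert v S)) (W0 ∪ M) := by
          rw [disjoint_insert_left, disjoint_insert_left]
          exact ⟨hu0, fun h => hvW (hWs h), hdS⟩
        have h5 := (ih _ hcard (W0 ∪ M) rfl _ hdv).1
        have h6 := Yp_insert (wtG κ ρ) S (W0 ∪ M) u hu0
        have h7 := Yp_insert (wtG κ ρ) (insert v S) (W0 ∪ M) u hu0
        rw [union_insert, sum_insert huM, h6, h7]
        constructor
        · have hsum : 0 ≤ ∑ u ∈ M, a u := sum_nonneg (fun i _ => ha0 i)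
          have h8 : (1 - 2 * a u) * ((1 - 2 * ∑ u ∈ M, a u) * Yp (wtG κ ρ) S W0) ≤
              (1 - 2 * a u) * Yp (wtG κ ρ) S (W0 ∪ M) :=
            mul_le_mul_of_nonneg_left h1 (by linarith [ha u])
          have h9 : 0 ≤ a u * (∑ u ∈ M, a u) * Yp (wtG κ ρ) S W0 :=
            mul_nonneg (mul_nonneg (ha0 u) hsum) h0
          nlinarith
        · linarith
    obtain ⟨h1, h1'⟩ := hsub N (Subset.refl _)
    have h2 : W0 ∪ N = W := by
      rw [hW0, hNdef, union_comm]
      exact filter_union_filter_not_eq _ _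
    rw [h2] at h1 h1'
    have h3 : ∑ u ∈ N, a u ≤ 1 / 4 := hN v N
      (fun u hu => ⟨fun h => hvW (h ▸ hNW hu), (mem_filter.1 hu).2⟩)
    have h4 : 1 / 2 * Yp (wtG κ ρ) S W0 ≤ Yp (wtG κ ρ) S W := by
      refine le_trans ?_ h1
      apply mul_le_mul_of_nonneg_right _ h0
      linarith
    have h5 := Yp_act nb κ ρ hloc S W0 v hvS (fun h => hvW (hW0W h))
      (disjoint_of_subset_right hW0W hd) (fun u hu => (mem_filter.1 hu).2)
    rw [h5] at h1'
    have h6 := mul_le_mul_of_nonneg_right (hact v S hvS) h0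
    have h7 := mul_le_mul_of_nonneg_left h4 (ha0 v)
    nlinarith

/-- [SG-2] PROOF. Write `f = wtG κ ρ`, for disjoint `S`, `W` put `Y S W = ∑_{T ⊆ W} (-1)^|T| f (S ∪ T)`; so for `v ∉ S ∪ W`:
`Y S (insert v W) = Y S W - Y (insert v S) W` (`sum_powerset_insert`). Note `0 ≤ a v` (`hact` with `S = ∅`) and
`f ≥ 0`. CLAIM, by strong induction on `|W|`: for all `S` disjoint from `W`
(i) `0 ≤ Y S W`; (ii) for all `v ∉ S ∪ W`: `Y (insert v S) W ≤ 2 a v * Y S W`.
`W = ∅`: `Y S ∅ = f S ≥ 0`, `f (insert v S) = act * f S ≤ a v * f S` (`wtG_insert`, `hact`).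
(i) for `W = insert u W'`: `Y S W = Y S W' - Y (insert u S) W' ≥ (1 - 2 a u) Y S W' ≥ 0` by (ii) for `W'`.
(ii): `N = W.filter (nb · v)`, `W0 = W \ N`. Removing the elements of `N` one after the other:
`Y (insert v S) W ≤ Y (insert v S) W0` (each step subtracts `Y (insert u (insert v S)) W'' ≥ 0`, `|W''| < |W|`), and
`Y S W ≥ (1 - 2 ∑_{u ∈ N} a u) Y S W0 ≥ (1/2) Y S W0` (by (ii) for smaller sets, as in `a2_claim` of
`Lib_MP_92ef0c_sh/ShA2.lean`; `hN`). And `Y (insert v S) W0 = act * Y S W0`, `act = ρ v ∏_{A ⊆ S} κ (insert v A) ≤ a v`: for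
`T ⊆ W0` (`wtG_insert` for `insert v (S ∪ T)`) the factor `κ (insert v A)`, `A ⊆ S ∪ T`, is `1` unless `A ⊆ S` (`hloc`).
So `Y (insert v S) W ≤ a v * Y S W0 ≤ 2 a v * Y S W`.
Finally `muG U f S = Y S (U \ S)` (bijection `T ↦ T \ S`, as `h1` in the proof of `mu_nonneg` of `ShA2.lean`). -/
theorem muG_nonneg (nb : ℕ → ℕ → Prop) (hsymm : ∀ s t, nb s t → nb t s) (κ : Finset ℕ → ℝ)
    (ρ a : ℕ → ℝ) (hκ : ∀ A, 0 ≤ κ A) (h1 : ∀ A : Finset ℕ, A.card ≤ 1 → κ A = 1)
    (hloc : ∀ A : Finset ℕ, ∀ s ∈ A, ∀ t ∈ A, ¬ nb s t → κ A = 1)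
    (hρ : ∀ n, 0 ≤ ρ n) (ha : ∀ v, a v ≤ 1 / 4)
    (hact : ∀ (v : ℕ) (S : Finset ℕ), v ∉ S → ρ v * ∏ A ∈ S.powerset, κ (insert v A) ≤ a v)
    (hN : ∀ (v : ℕ) (T : Finset ℕ), (∀ u ∈ T, u ≠ v ∧ nb u v) → ∑ u ∈ T, a u ≤ 1 / 4)
    (U S : Finset ℕ) (hS : S ⊆ U) : 0 ≤ muG U (wtG κ ρ) S := by
  classical
  have ha0 : ∀ v, 0 ≤ a v := by
    intro v
    refine le_trans ?_ (hact v ∅ (notMem_empty v))
    exact mul_nonneg (hρ v) (prod_nonneg fun A _ => hκ _)
  have h2 : muG U (wtG κ ρ) S = Yp (wtG κ ρ) S (U \ S) := by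
    unfold muG Yp
    symm
    apply sum_bij' (fun T _ => S ∪ T) (fun T _ => T \ S)
    · intro T hT
      rw [mem_powerset] at hT
      rw [mem_filter, mem_powerset]
      exact ⟨union_subset hS (hT.trans sdiff_subset), subset_union_left⟩
    · intro T hT
      rw [mem_filter, mem_powerset] at hT
      rw [mem_powerset]
      exact sdiff_subset_sdiff hT.1 (Subset.refl _)
    · intro T hT
      rw [mem_powerset] at hT
      have hd : Disjoint S T := disjoint_of_subset_right hT disjoint_sdiff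
      show (S ∪ T) \ S = T
      rw [union_sdiff_cancel_left hd]
    · intro T hT
      rw [mem_filter, mem_powerset] at hT
      exact union_sdiff_of_subset hT.2
    · intro T hT
      rw [mem_powerset] at hT
      have hd : Disjoint S T := disjoint_of_subset_right hT disjoint_sdiff
      rw [union_sdiff_cancel_left hd]
  rw [h2]
  exact (pos_claim nb κ ρ a hκ hloc hρ ha ha0 hact hN _ (U \ S) rfl S disjoint_sdiff).1

end Pool.MP_92ef0c_nt.SG
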