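import Pool.Agent.Lib_MP_92ef0c_sg.Defs
import Pool.Agent.Lib_MP_92ef0c_sh.RhoSmall

/-! # [SG-W] a slowly growing width -/

set_option autoImplicit false

namespace Pool.MP_92ef0c_nt.SG

open Finset
open Pool.MP_92ef0c_nt.PB (Pz V zz Rough rho)
open Pool.MP_92ef0c_nt.SH (rho_small)

private theorem wide_log (n : ℕ) : 2 * Nat.log 2 n ≤ n := by
  rcases Nat.eq_zero_or_pos n with rfl | hn
  · simp
  · have h2 : 2 ^ Nat.log 2 n ≤ n := Nat.pow_log_le_self 2 hn.ne'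
    rcases Nat.eq_zero_or_pos (Nat.log 2 n) with h | h
    · rw [h]
      omega
    · have h3 : Nat.log 2 n - 1 < 2 ^ (Nat.log 2 n - 1) := Nat.lt_two_pow_self
      have h4 : 2 ^ Nat.log 2 n = 2 * 2 ^ (Nat.log 2 n - 1) := by
        rw [← pow_succ']
        congr 1
        omega
      omega

private theorem wide_ex (σ : ℕ → ℕ) (hσ : ∀ j, j ≤ σ j) :
    ∃ w : ℕ → ℕ, Monotone w ∧ (∀ n, w n ≤ Nat.log 2 n) ∧ (∀ R, ∃ n₀, ∀ n, n₀ ≤ n → R ≤ w n) ∧
      ∀ n, w n ≠ 0 → σ (w n) ≤ Nat.log 2 n := by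
  refine ⟨fun n => Nat.findGreatest (fun j => σ j ≤ Nat.log 2 n) (Nat.log 2 n), ?_, ?_, ?_, ?_⟩
  · intro n n' h
    have h1 : Nat.log 2 n ≤ Nat.log 2 n' := Nat.log_mono_right h
    exact Nat.findGreatest_mono (fun j hj => hj.trans h1) h1
  · intro n
    exact Nat.findGreatest_le _
  · intro R
    refine ⟨2 ^ σ R, fun n hn => ?_⟩
    have h1 : σ R ≤ Nat.log 2 n := by
      have h2 : Nat.log 2 (2 ^ σ R) ≤ Nat.log 2 n := Nat.log_mono_right hn
      rwa [Nat.log_pow (by norm_num)] at h2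
    exact Nat.le_findGreatest ((hσ R).trans h1) h1
  · intro n hn
    exact Nat.findGreatest_of_ne_zero (P := fun j => σ j ≤ Nat.log 2 n) rfl hn

private theorem wide_tau (C q : ℝ) (j : ℕ) :
    ∃ τ : ℕ, ∀ m : ℕ, τ ≤ m → 0 < m → C / √(m : ℝ) * q ≤ 1 / (8 * ((j : ℝ) + 1)) := by
  refine ⟨⌈(8 * ((j : ℝ) + 1) * (C * q)) ^ 2⌉₊, fun m hm h0 => ?_⟩
  have h1 : (8 * ((j : ℝ) + 1) * (C * q)) ^ 2 ≤ (m : ℝ) := Nat.ceil_le.1 hm
  have h2 : 8 * ((j : ℝ) + 1) * (C * q) ≤ √(m : ℝ) := Real.le_sqrt_of_sq_le h1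
  have h3 : 0 < √(m : ℝ) := Real.sqrt_pos.2 (by exact_mod_cast h0)
  rw [div_mul_eq_mul_div, div_le_div_iff₀ h3 (by positivity)]
  linarith

/-- [SG-W] PROOF. `C` from `rho_small`. For every `j` there is `τ j ∈ ℕ` with
`C / √m * Q j ≤ 1 / (8 (j + 1))` for all `m ≥ τ j`; put `τ' j = ∑_{i ≤ j} τ i + 4 * j + 4` (monotone) and
`w n = Nat.findGreatest (fun j => τ' j ≤ Nat.log 2 n) (Nat.log 2 n)` (so `w n = 0` if there is no such `j`). Monotone
in `n` (`Nat.findGreatest_mono`), `≤ Nat.log 2 n`, tends to infinity (`Nat.le_findGreatest`). If `w n = j ≥ 1` then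
`τ' j ≤ Nat.log 2 n` (`Nat.findGreatest_spec`-like / `findGreatest_of_ne_zero`).
Fourth part: `j = w (2 v)`; `j = 0`: `Q 0 = 1` and `hρ`; `j ≥ 1`: `Nat.log 2 v ≥ Nat.log 2 (2 v) - 1 ≥ τ j`, so
`rho v * Q j ≤ 1 / (8 (j+1)) ≤ 1/4`.
Fifth part: `u ∈ T`: as `w n ≤ Nat.log 2 n ≤ n / 2` (`Nat.log 2 n < 2 ^ Nat.log 2 n ≤ n`..., `2 * Nat.log 2 n ≤ n`), `u ≤ 2 v`
and `v ≤ 2 u`; put `j = w (4 v)`, so `w u, w v, w (2 u) ≤ j`; `|u - v| ≤ j`, `u ≠ v`, so `|T| ≤ 2 j`; if `j = 0`, `T` is empty.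
If `j ≥ 1`: `Nat.log 2 u ≥ Nat.log 2 (4 v) - 3 ≥ τ j`, each term is `≤ C / √(log₂ u) * Q j ≤ 1 / (8 (j+1))` (`Q` monotone),
the sum is `≤ 2 j / (8 (j+1)) ≤ 1/4`. -/
theorem width (N₁ : ℕ) (hρ : ∀ n, 0 ≤ rho N₁ n ∧ rho N₁ n ≤ 1 / 4) (Q : ℕ → ℝ)
    (hQ : ∀ j, 1 ≤ Q j) (hQm : Monotone Q) (hQ0 : Q 0 = 1) :
    ∃ w : ℕ → ℕ, Monotone w ∧ (∀ n, w n ≤ Nat.log 2 n) ∧ (∀ R, ∃ n₀, ∀ n, n₀ ≤ n → R ≤ w n) ∧
      (∀ v, rho N₁ v * Q (w (2 * v)) ≤ 1 / 4) ∧
      ∀ (v : ℕ) (T : Finset ℕ), (∀ u ∈ T, u ≠ v ∧ nbr w u v) →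
        ∑ u ∈ T, rho N₁ u * Q (w (2 * u)) ≤ 1 / 4 := by
  classical
  obtain ⟨C, hC, hCr⟩ := rho_small
  choose τ hτ using fun j => wide_tau C (Q j) j
  obtain ⟨σ, hσd⟩ : ∃ σ : ℕ → ℕ, σ = fun j => τ j + 4 * j + 4 := ⟨_, rfl⟩
  have hσ1 : ∀ j, j ≤ σ j := fun j => by
    rw [hσd]
    show j ≤ τ j + 4 * j + 4
    omega
  obtain ⟨w, hwm, hwl, hwR, hws⟩ := wide_ex σ hσ1
  have key : ∀ j n : ℕ, σ j ≤ Nat.log 2 n + 3 → rho N₁ n * Q j ≤ 1 / (8 * ((j : ℝ) + 1)) := by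
    intro j n h
    have h1 : τ j + 4 * j + 4 ≤ Nat.log 2 n + 3 := by
      rw [hσd] at h
      exact h
    have h0 : 0 < Nat.log 2 n := by omega
    refine le_trans ?_ (hτ j (Nat.log 2 n) (by omega) h0)
    exact mul_le_mul_of_nonneg_right (hCr N₁ n h0) (zero_le_one.trans (hQ j))
  refine ⟨w, hwm, hwl, hwR, ?_, ?_⟩
  · intro v
    by_cases hj : w (2 * v) = 0
    · rw [hj, hQ0, mul_one]
      exact (hρ v).2
    · have h1 := hws _ hj
      have hv : v ≠ 0 := by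
        rintro rfl
        have h2 := hσ1 (w (2 * 0))
        have h3 : Nat.log 2 (2 * 0) = 0 := by simp
        omega
      have h2 : Nat.log 2 (2 * v) = Nat.log 2 v + 1 := by
        rw [mul_comm]
        exact Nat.log_mul_base (by norm_num) hv
      refine (key (w (2 * v)) v (by omega)).trans ?_
      have h3 : (0 : ℝ) ≤ (w (2 * v) : ℝ) := Nat.cast_nonneg _
      rw [div_le_div_iff₀ (by positivity) (by norm_num)]
      linarith
  · intro v T hT
    obtain ⟨j, hj⟩ : ∃ j, j = w (4 * v) := ⟨_, rfl⟩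
    have hu : ∀ u ∈ T, u ≠ v ∧ u ≤ v + j ∧ v ≤ u + j ∧ v ≤ 2 * u ∧ w (2 * u) ≤ j := by
      intro u huT
      obtain ⟨h1, h2, h3⟩ := hT u huT
      have a1 := hwl u
      have a2 := hwl v
      have a3 := wide_log u
      have a4 := wide_log v
      have a5 : u ≤ 2 * v := by omega
      have a6 : v ≤ 2 * u := by omega
      have a7 : w u ≤ j := by
        rw [hj]
        exact hwm (by omega)
      have a8 : w v ≤ j := by
        rw [hj]
        exact hwm (by omega)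
      have a9 : w (2 * u) ≤ j := by
        rw [hj]
        exact hwm (by omega)
      exact ⟨h1, by omega, by omega, a6, a9⟩
    by_cases hj0 : j = 0
    · have hTe : T = ∅ := by
        rw [eq_empty_iff_forall_notMem]
        intro u huT
        obtain ⟨h1, h2, h3, -⟩ := hu u huT
        omega
      rw [hTe, sum_empty]
      norm_num
    · have h1 : σ j ≤ Nat.log 2 (4 * v) := by
        rw [hj]
        exact hws _ (by rwa [← hj])
      have hv : v ≠ 0 := by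
        rintro rfl
        have h2 := hσ1 j
        have h3 : Nat.log 2 (4 * 0) = 0 := by simp
        omega
      have hterm : ∀ u ∈ T, rho N₁ u * Q (w (2 * u)) ≤ 1 / (8 * ((j : ℝ) + 1)) := by
        intro u huT
        obtain ⟨-, -, -, h4, h5⟩ := hu u huT
        have hu0 : u ≠ 0 := by omega
        have h6 : Nat.log 2 (4 * v) ≤ Nat.log 2 (u * 2 * 2 * 2) := Nat.log_mono_right (by omega)
        rw [Nat.log_mul_base (by norm_num) (by omega), Nat.log_mul_base (by norm_num) (by omega),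
          Nat.log_mul_base (by norm_num) hu0] at h6
        refine le_trans ?_ (key j u (by omega))
        exact mul_le_mul_of_nonneg_left (hQm h5) (hρ u).1
      have hcard : T.card ≤ 2 * j := by
        have h2 : T ⊆ (Icc (v - j) (v + j)).erase v := by
          intro u huT
          obtain ⟨h3, h4, h5, -⟩ := hu u huT
          rw [mem_erase, mem_Icc]
          exact ⟨h3, by omega, h4⟩
        refine (card_le_card h2).trans ?_
        rw [card_erase_of_mem (by rw [mem_Icc]; omega), Nat.card_Icc]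
        omega
      have hj1 : (0 : ℝ) ≤ (j : ℝ) := Nat.cast_nonneg j
      calc ∑ u ∈ T, rho N₁ u * Q (w (2 * u)) ≤ ∑ _u ∈ T, 1 / (8 * ((j : ℝ) + 1)) := sum_le_sum hterm
        _ = T.card * (1 / (8 * ((j : ℝ) + 1))) := by rw [sum_const, nsmul_eq_mul]
        _ ≤ (2 * j) * (1 / (8 * ((j : ℝ) + 1))) := by
            refine mul_le_mul_of_nonneg_right ?_ (by positivity)
            exact_mod_cast hcard
        _ ≤ 1 / 4 := by
            rw [mul_one_div, div_le_div_iff₀ (by positivity) (by norm_num)]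
            linarith

end Pool.MP_92ef0c_nt.SG
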