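import Pool.Agent.Lib_MP_92ef0c_sg.Mob
import Pool.Agent.Lib_MP_92ef0c_sg.Pos
import Pool.Agent.Lib_MP_92ef0c_sg.Wide
import Pool.Agent.Lib_MP_92ef0c_sg.Act

/-! # [SG-K1] the width and the measure -/

set_option autoImplicit false

namespace Pool.MP_92ef0c_nt.SG

open Finset
open Pool.MP_92ef0c_nt.PB (Pz V zz Rough rho)
open Pool.MP_92ef0c_nt.SH (EX ind rr gg Bd Prim IsD SSL Del Lam Exc Inter)

/-- [SG-K1] PROOF: `width` with `Q = Qb lam` (`Qb_props`), `muG_nonneg` with `a v = rho v * Qb lam (w (2 v))` (`hact`: `act_le`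
times `rho v ≥ 0`), `f_bounds` (`wtG_empty`). -/
theorem exists_width (N₁ : ℕ) (hρ : ∀ n, 0 ≤ rho N₁ n ∧ rho N₁ n ≤ 1 / 4) (lam : Finset ℕ → ℝ)
    (hlam : ∀ A, 0 ≤ lam A)
    (hinv : ∀ (A : Finset ℕ) (t : ℕ), lam (A.image (fun a => a + t)) = lam A) :
    ∃ w : ℕ → ℕ, Wid N₁ lam w ∧
      ∀ U S : Finset ℕ, S ⊆ U → 0 ≤ muG U (wtG (kap lam w) (rho N₁)) S := by
  obtain ⟨hQ, hQm, hQ0⟩ := Qb_props lam hlam
  obtain ⟨w, hmono, hlog, hR, ha, hN⟩ := width N₁ hρ (Qb lam) hQ hQm hQ0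
  have hκ : ∀ A, 0 ≤ kap lam w A := by
    intro A
    unfold kap
    split_ifs
    · exact hlam A
    · exact zero_le_one
  have h1 : ∀ A : Finset ℕ, A.card ≤ 1 → kap lam w A = 1 := by
    intro A hA
    unfold kap
    rw [if_neg]
    rintro ⟨h, _⟩
    omega
  have hloc : ∀ A : Finset ℕ, ∀ s ∈ A, ∀ t ∈ A, ¬ nbr w s t → kap lam w A = 1 := by
    intro A s hs t ht h
    unfold kap
    rw [if_neg]
    rintro ⟨_, h2⟩
    exact h (h2 s hs t ht)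
  have hpos : ∀ U S : Finset ℕ, S ⊆ U → 0 ≤ muG U (wtG (kap lam w) (rho N₁)) S := fun U S hS =>
    muG_nonneg (nbr w) (fun s t h => h.symm) (kap lam w) (rho N₁) (fun v => rho N₁ v * Qb lam (w (2 * v)))
      hκ h1 hloc (fun n => (hρ n).1) ha
      (fun v S hv => mul_le_mul_of_nonneg_left (act_le lam hlam hinv w hmono hlog v S hv) (hρ v).1) hN U S hS
  have h0 : wtG (kap lam w) (rho N₁) ∅ = 1 := by
    unfold wtG
    rw [Finset.prod_empty, Finset.powerset_empty, Finset.prod_singleton, one_mul]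
    exact h1 ∅ (by simp)
  exact ⟨w, ⟨hlog, hR, f_bounds _ h0 hpos⟩, hpos⟩

end Pool.MP_92ef0c_nt.SG
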