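import Pool.Agent.Lib_MP_92ef0c_sg.Defs
import Pool.Agent.Lib_MP_92ef0c_sh.Q1a
import Pool.Agent.Lib_MP_92ef0c_sh.Series
import Pool.Agent.Lib_MP_92ef0c_pb.Q1

/-! # [SG-Q] the frozen form of Q1 with a factor -/

set_option autoImplicit false

namespace Pool.MP_92ef0c_nt.SG

open Finset
open Pool.MP_92ef0c_nt.PB (Pz V zz Rough rho adm pair_const)
open Pool.MP_92ef0c_nt.SH (EX ind rr gg Bd Prim IsD SSL Del Lam Exc Inter)

/-- the estimates for large `x` -/
private theorem q1g_ev (B C c A E : ℝ) (hc : 0 < c) (hA : 0 < A) :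
    ∀ᶠ x : ℝ in Filter.atTop, 81 ≤ x ∧ E ≤ x ∧ 1 ≤ x / (Real.log x) ^ C ∧
      (Real.log x) ^ B ≤ x ^ (1 / 4 : ℝ) ∧
      A * ((Real.log x) ^ B) ^ 2 ≤ x / (Real.log x) ^ C ∧
      Real.exp (-(c * √(Real.log x))) ≤ 1 / (Real.log x) ^ C := by
  have h0 : ∀ᶠ x : ℝ in Filter.atTop, (81 : ℝ) ≤ x := Filter.eventually_ge_atTop 81
  have h0' : ∀ᶠ x : ℝ in Filter.atTop, E ≤ x := Filter.eventually_ge_atTop E
  have hev : ∀ (r : ℝ), ∀ A : ℝ, 0 < A → ∀ᶠ x : ℝ in Filter.atTop,
      A * (Real.log x) ^ r ≤ x ^ (1 / 4 : ℝ) := by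
    intro r A hA
    have h1 := (isLittleO_log_rpow_rpow_atTop r (show (0 : ℝ) < 1 / 4 by norm_num)).def
      (c := 1 / A) (by positivity)
    filter_upwards [h1, h0] with x hx hx4
    have hlog : 0 < Real.log x := Real.log_pos (by linarith)
    rw [Real.norm_of_nonneg (Real.rpow_nonneg hlog.le _),
      Real.norm_of_nonneg (Real.rpow_nonneg (by linarith) _)] at hx
    calc A * (Real.log x) ^ r ≤ A * (1 / A * x ^ (1 / 4 : ℝ)) :=
          mul_le_mul_of_nonneg_left hx hA.le
      _ = x ^ (1 / 4 : ℝ) := by field_simp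
  have h1 := hev C 1 one_pos
  have h2 := hev B 1 one_pos
  have h3 := hev (2 * B + C) A (by positivity)
  have h4 : ∀ᶠ x : ℝ in Filter.atTop, Real.exp (-(c * √(Real.log x))) ≤ 1 / (Real.log x) ^ C := by
    have h5 := (isLittleO_rpow_exp_pos_mul_atTop (2 * C) (show (0 : ℝ) < c by positivity)).def
      (c := 1) one_pos
    have h6 : Filter.Tendsto (fun x : ℝ => √(Real.log x)) Filter.atTop Filter.atTop :=
      Real.tendsto_sqrt_atTop.comp Real.tendsto_log_atTop
    filter_upwards [h6.eventually h5, h0] with x hx hx4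
    have hlog : 0 < Real.log x := Real.log_pos (by linarith)
    have hsq : 0 < √(Real.log x) := Real.sqrt_pos.2 hlog
    rw [one_mul, Real.norm_of_nonneg (Real.rpow_nonneg hsq.le _), Real.norm_of_nonneg
      (Real.exp_pos _).le] at hx
    have e1 : (√(Real.log x)) ^ (2 * C) = (Real.log x) ^ C := by
      rw [Real.sqrt_eq_rpow, ← Real.rpow_mul hlog.le]
      congr 1
      ring
    rw [e1] at hx
    rw [Real.exp_neg, one_div]
    exact inv_anti₀ (Real.rpow_pos_of_pos hlog _) hx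
  filter_upwards [h0, h0', h1, h2, h3, h4] with x a0 a0' a1 a2 a3 a4
  have hlog : 0 < Real.log x := Real.log_pos (by linarith)
  have hx0 : 0 < x := by linarith
  have hx1 : (1 : ℝ) ≤ x := by linarith
  have hq : x ^ (1 / 4 : ℝ) ≤ x := by
    calc x ^ (1 / 4 : ℝ) ≤ x ^ (1 : ℝ) := Real.rpow_le_rpow_of_exponent_le hx1 (by norm_num)
      _ = x := Real.rpow_one x
  refine ⟨a0, a0', ?_, ?_, ?_, a4⟩
  · rw [le_div_iff₀ (Real.rpow_pos_of_pos hlog _)]
    linarith
  · linarith
  · rw [le_div_iff₀ (Real.rpow_pos_of_pos hlog _)]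
    have e1 : A * ((Real.log x) ^ B) ^ 2 * (Real.log x) ^ C =
        A * (Real.log x) ^ (2 * B + C) := by
      rw [Real.rpow_add hlog, two_mul B, Real.rpow_add hlog]
      ring
    rw [e1]
    exact a3.trans hq

private theorem q1g_int (X x : ℝ) (hX : 2 ≤ X) (hx : X ≤ x) (hx1 : x ≤ X + 1) :
    |(∫ t in (2 : ℝ)..x, 1 / (Real.log t) ^ 2) - ∫ t in (2 : ℝ)..X, 1 / (Real.log t) ^ 2| ≤ 3 := by
  have hcont : ContinuousOn (fun t : ℝ => 1 / (Real.log t) ^ 2) (Set.Ici 2) := by
    intro t ht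
    have ht2 : (2 : ℝ) ≤ t := ht
    have h1 : 0 < Real.log t := Real.log_pos (by linarith)
    apply ContinuousAt.continuousWithinAt
    apply ContinuousAt.div continuousAt_const
    · exact (Real.continuousAt_log (by linarith)).pow 2
    · positivity
  have hI : ∀ a b : ℝ, 2 ≤ a → 2 ≤ b →
      IntervalIntegrable (fun t : ℝ => 1 / (Real.log t) ^ 2) MeasureTheory.volume a b := by
    intro a b ha hb
    apply ContinuousOn.intervalIntegrable
    apply hcont.mono
    intro t ht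
    have h1 : min a b ≤ t := ht.1
    have h2 : 2 ≤ min a b := le_min ha hb
    exact h2.trans h1
  rw [← intervalIntegral.integral_add_adjacent_intervals (hI 2 X le_rfl hX) (hI X x hX (by linarith)),
    add_sub_cancel_left]
  have h1 : ∀ t ∈ Set.uIoc X x, ‖1 / (Real.log t) ^ 2‖ ≤ 3 := by
    intro t ht
    rw [Set.uIoc_of_le hx] at ht
    have ht2 : 2 ≤ t := by linarith [ht.1]
    have h2 : Real.log 2 ≤ Real.log t := Real.log_le_log (by norm_num) ht2
    have h3 := Real.log_two_gt_d9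
    have h4 : (0.69 : ℝ) ≤ Real.log t := by linarith
    have h5 : (1 : ℝ) / 3 ≤ (Real.log t) ^ 2 := by nlinarith
    rw [Real.norm_of_nonneg (by positivity), div_le_iff₀ (by positivity)]
    linarith
  have h2 := intervalIntegral.norm_integral_le_of_norm_le_const h1
  rw [Real.norm_eq_abs, abs_of_nonneg (show (0 : ℝ) ≤ x - X by linarith)] at h2
  linarith

/-- the count and the sum of the indicators differ by at most one -/
private theorem q1g_card (P : Set ℕ) (e q a X : ℕ) (hq : 0 < q) (haX : a % q ≤ X) :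
    |(open Classical in (((Finset.range (X + 1)).filter
        (fun n => n ∈ P ∧ n + e ∈ P ∧ n ≡ a [MOD q])).card : ℝ)) -
      ∑ m ∈ Ioc 0 ((X - a % q) / q), ind P {(q, a % q), (q, a % q + e)} m| ≤ 1 := by
  classical
  set A := (Finset.range (X + 1)).filter (fun n => n ∈ P ∧ n + e ∈ P ∧ n ≡ a [MOD q]) with hA
  set D := (Ioc 0 ((X - a % q) / q)).filter (fun m => q * m + a % q ∈ P ∧ q * m + (a % q + e) ∈ P)
    with hD
  have hsum : ∑ m ∈ Ioc 0 ((X - a % q) / q), ind P {(q, a % q), (q, a % q + e)} m = (D.card : ℝ) := by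
    rw [hD, card_filter]
    push_cast
    apply sum_congr rfl
    intro m _
    unfold ind
    by_cases h : q * m + a % q ∈ P ∧ q * m + (a % q + e) ∈ P
    · rw [if_pos h, if_pos]
      intro l hl
      rw [mem_insert, mem_singleton] at hl
      rcases hl with rfl | rfl
      · exact h.1
      · exact h.2
    · rw [if_neg h, if_neg]
      intro h'
      exact h ⟨h' (q, a % q) (by simp), h' (q, a % q + e) (by simp)⟩
  have hinj : Function.Injective (fun m : ℕ => q * m + a % q) := by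
    intro m n hmn
    have h1 : q * m + a % q = q * n + a % q := hmn
    exact Nat.eq_of_mul_eq_mul_left hq (by omega)
  have hcardim : (D.image (fun m : ℕ => q * m + a % q)).card = D.card := card_image_of_injective D hinj
  have h1 : D.image (fun m : ℕ => q * m + a % q) ⊆ A := by
    intro n hn
    rw [mem_image] at hn
    obtain ⟨m, hm, rfl⟩ := hn
    rw [hD, mem_filter, mem_Ioc] at hm
    rw [hA, mem_filter, mem_range]
    have h2 : q * m ≤ X - a % q :=
      (Nat.mul_le_mul_left q hm.1.2).trans (Nat.mul_div_le _ _)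
    refine ⟨by omega, hm.2.1, ?_, ?_⟩
    · rw [add_assoc]
      exact hm.2.2
    · show (q * m + a % q) % q = a % q
      rw [Nat.mul_add_mod, Nat.mod_mod]
  have h2 : A ⊆ insert (a % q) (D.image (fun m : ℕ => q * m + a % q)) := by
    intro n hn
    rw [hA, mem_filter, mem_range] at hn
    rw [mem_insert, mem_image]
    have hmod : n % q = a % q := hn.2.2.2
    have hdiv : q * (n / q) + n % q = n := Nat.div_add_mod n q
    rcases Nat.eq_zero_or_pos (n / q) with h | h
    · left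
      rw [h, mul_zero, zero_add] at hdiv
      omega
    · right
      refine ⟨n / q, ?_, ?_⟩
      · rw [hD, mem_filter, mem_Ioc]
        have e1 : q * (n / q) + a % q = n := by rw [← hmod]; exact hdiv
        refine ⟨⟨h, ?_⟩, ?_, ?_⟩
        · rw [Nat.le_div_iff_mul_le hq, mul_comm]
          omega
        · rw [e1]
          exact hn.2.1
        · rw [← add_assoc, e1]
          exact hn.2.2.1
      · show q * (n / q) + a % q = n
        rw [← hmod]
        exact hdiv
  have h3 := card_le_card h1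
  have h4 := (card_le_card h2).trans (card_insert_le _ _)
  rw [hcardim] at h3 h4
  have h3' : (D.card : ℝ) ≤ A.card := by exact_mod_cast h3
  have h4' : (A.card : ℝ) ≤ D.card + 1 := by exact_mod_cast h4
  rw [hsum, abs_le]
  constructor
  · show -1 ≤ (A.card : ℝ) - (D.card : ℝ)
    linarith
  · show (A.card : ℝ) - (D.card : ℝ) ≤ 1
    linarith

/-- the length of the interval of the `m` -/
private theorem q1g_len (x E : ℝ) (X q a₀ : ℕ) (hx : 81 ≤ x) (hE : 2 * (E + 1) ≤ x)
    (hX : (X : ℝ) ≤ x) (hX1 : x ≤ X + 1) (hq : 0 < q) (ha₀ : a₀ < q)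
    (hqx : (q : ℝ) ≤ x ^ (1 / 4 : ℝ)) :
    q ≤ X ∧ ((X : ℝ) + E + 1) ^ (1 / 2 : ℝ) ≤ (((X - a₀) / q : ℕ) : ℝ) := by
  set y : ℝ := x ^ (1 / 4 : ℝ) with hy
  have hx0 : 0 < x := by linarith
  have hy4 : y ^ 4 = x := by
    rw [hy, ← Real.rpow_natCast, ← Real.rpow_mul hx0.le]
    norm_num
  have hy0 : 0 ≤ y := Real.rpow_nonneg hx0.le _
  have hy3 : 3 ≤ y := by
    by_contra hcon
    push Not at hcon
    have h1 : y ^ 4 < 3 ^ 4 := pow_lt_pow_left₀ hcon hy0 (by norm_num)
    rw [hy4] at h1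
    linarith
  have hqpos : (0 : ℝ) < q := by exact_mod_cast hq
  have hy2 : 9 ≤ y ^ 2 := by nlinarith
  have hy3' : 27 ≤ y ^ 3 := by nlinarith
  have hyy : y + 1 ≤ x := by
    have h1 : y ^ 4 = y * y ^ 3 := by ring
    nlinarith
  have hqX' : (q : ℝ) ≤ X := by linarith
  have hqX : q ≤ X := by exact_mod_cast hqX'
  refine ⟨hqX, ?_⟩
  -- upper bound for the root
  have h1 : ((X : ℝ) + E + 1) ^ (1 / 2 : ℝ) ≤ 3 / 2 * y ^ 2 := by
    rw [← Real.sqrt_eq_rpow]
    apply Real.sqrt_le_iff.2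
    refine ⟨by positivity, ?_⟩
    have e1 : (3 / 2 * y ^ 2) ^ 2 = 9 / 4 * x := by
      rw [← hy4]
      ring
    rw [e1]
    linarith
  -- lower bound for the quotient
  have h2 : (X - a₀) / q * q + q > X - a₀ := by
    have := Nat.div_add_mod (X - a₀) q
    have h3 := Nat.mod_lt (X - a₀) hq
    rw [mul_comm] at this
    omega
  have h3 : X < ((X - a₀) / q) * q + q + a₀ := by omega
  have h4 : (X : ℝ) < (((X - a₀) / q : ℕ) : ℝ) * q + q + a₀ := by exact_mod_cast h3
  have ha₀' : (a₀ : ℝ) ≤ q := by exact_mod_cast ha₀.le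
  have h5 : (X : ℝ) < ((((X - a₀) / q : ℕ) : ℝ) + 2) * q := by
    have : ((((X - a₀) / q : ℕ) : ℝ) + 2) * q = (((X - a₀) / q : ℕ) : ℝ) * q + q + q := by ring
    linarith
  set v : ℝ := (((X - a₀) / q : ℕ) : ℝ) with hv
  have hv0 : 0 ≤ v := by rw [hv]; positivity
  have h6 : (X : ℝ) < (v + 2) * y := h5.trans_le (mul_le_mul_of_nonneg_left hqx (by linarith))
  have h7 : y ^ 4 - 1 < (v + 2) * y := by
    rw [hy4]
    linarith
  refine h1.trans ?_
  by_contra hcon
  push Not at hcon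
  have h8 : (v + 2) * y ≤ (3 / 2 * y ^ 2 + 2) * y := mul_le_mul_of_nonneg_right (by linarith) hy0
  nlinarith [mul_nonneg hy0 (sq_nonneg y), mul_nonneg (sub_nonneg.2 hy3) (sq_nonneg y),
    mul_nonneg (sub_nonneg.2 hy3) hy0]

private theorem q1g_lam (lam : Finset ℕ → ℝ)
    (hinv : ∀ (A : Finset ℕ) (t : ℕ), lam (A.image (fun a => a + t)) = lam A) (q a₀ e : ℕ) (he0 : 0 < e) :
    lamL lam {(q, a₀), (q, a₀ + e)} = lam {0, e} := by
  classical
  have hne : ((q, a₀) : ℕ × ℕ) ≠ (q, a₀ + e) := by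
    intro h
    have := congrArg Prod.snd h
    simp only at this
    omega
  have hcard : ({(q, a₀), (q, a₀ + e)} : Finset (ℕ × ℕ)).card = 2 := card_pair hne
  have hPar : Par ({(q, a₀), (q, a₀ + e)} : Finset (ℕ × ℕ)) := by
    intro l hl l' hl'
    rw [mem_insert, mem_singleton] at hl hl'
    rcases hl with rfl | rfl <;> rcases hl' with rfl | rfl <;> rfl
  unfold lamL
  rw [Finset.prod_eq_single ({(q, a₀), (q, a₀ + e)} : Finset (ℕ × ℕ))]
  · rw [if_pos ⟨hcard.ge, hPar⟩]
    have h1 : ({(q, a₀), (q, a₀ + e)} : Finset (ℕ × ℕ)).image Prod.snd =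
        ({0, e} : Finset ℕ).image (fun a => a + a₀) := by
      ext x
      simp only [mem_image, mem_insert, mem_singleton]
      constructor
      · rintro ⟨l, hl | hl, rfl⟩
        · exact ⟨0, Or.inl rfl, by rw [hl, zero_add]⟩
        · exact ⟨e, Or.inr rfl, by rw [hl, add_comm]⟩
      · rintro ⟨b, hb | hb, rfl⟩
        · exact ⟨(q, a₀), Or.inl rfl, by rw [hb, zero_add]⟩
        · exact ⟨(q, a₀ + e), Or.inr rfl, by rw [hb, add_comm]⟩
    rw [h1, hinv]
  · intro A hA hAne
    rw [if_neg]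
    rintro ⟨h2, _⟩
    apply hAne
    apply Finset.eq_of_subset_of_card_le (mem_powerset.1 hA)
    rw [hcard]
    exact h2
  · intro h
    exact absurd (mem_powerset_self _) h

/-- [SG-Q] PROOF: as `q1_of_dickson` of `Lib_MP_92ef0c_sh/Q1b.lean` (copy the file, its helpers are private) with the
factor `t = lam {0, e}`: the system is `L = {(q, a₀), (q, a₀ + e)}`; `Near lam e L` (all differences are `≤ e`);
`lamL lam L = lam {a₀, a₀ + e} = lam {0, e}` (the only subset with two elements is `L`; `hinv` with the translation `a₀`);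
all errors of the main term are multiplied by `t ≥ 0`. `PQ` is the last display there with `t * (...)`; `adm e q` is by
definition the cardinality in `PQ`. -/
theorem q1_gen (P : Set ℕ) (lam : Finset ℕ → ℝ) (hlam : ∀ A, 0 ≤ lam A)
    (hinv : ∀ (A : Finset ℕ) (t : ℕ), lam (A.image (fun a => a + t)) = lam A)
    (e : ℕ) (he0 : 0 < e) (he : Even e)
    (hP : ∀ ε : ℝ, 0 < ε → ∃ c K : ℝ, 0 < c ∧ 0 < K ∧ ∀ (x : ℕ) (L : Finset (ℕ × ℕ)),
      2 ≤ x → L.card = 2 → Prim L → (∀ l ∈ L, l.1 ≤ x ∧ l.2 ≤ x) → Near lam e L →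
      ∀ u v : ℕ, u ≤ v → v ≤ x → (x : ℝ) ^ ε ≤ (v : ℝ) - u → ∃ S : ℝ, IsD L S ∧
        |∑ n ∈ Ioc u v, ind P L n - lamL lam L * S * ∑ n ∈ Ioc (max u 1) v, gg L n| ≤
          K * ((v : ℝ) - u) * Real.exp (-(c * √(Real.log x)))) :
    PQ P e (lam {0, e}) := by
  intro B C hB hC
  have ht0 : 0 ≤ lam {0, e} := hlam _
  set t : ℝ := lam {0, e} with ht
  obtain ⟨c, K, hc, hK, hmain⟩ := hP (1 / 2) (by norm_num)
  obtain ⟨C₀, hC₀, hHL⟩ := Pool.MP_92ef0c_nt.PB.HL_quant {0, e}
  obtain ⟨C₁, hC₁, hsi⟩ := Pool.MP_92ef0c_nt.SH.sum_int_class e he0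
  have hcard : ({0, e} : Finset ℕ).card = 2 := by
    rw [card_insert_of_notMem (by simpa using he0.ne), card_singleton]
  have hev := q1g_ev B C c (C₀ * (C₁ + 3)) (2 * ((e : ℝ) + 1)) hc (by positivity)
  rw [Filter.eventually_atTop] at hev
  obtain ⟨x0, hx0⟩ := hev
  refine ⟨1 + t + K, x0, fun x hx q a hq hqB hca hcae => ?_⟩
  obtain ⟨hx81, hxe, b1, b2, b3, b4⟩ := hx0 x hx
  set X : ℕ := ⌊x⌋₊ with hX
  have hxpos : 0 < x := by linarith
  have hXx : (X : ℝ) ≤ x := Nat.floor_le hxpos.le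
  have hxX : x < X + 1 := Nat.lt_floor_add_one x
  have hX2 : 2 ≤ X := by
    rw [hX]
    apply Nat.le_floor
    push_cast
    linarith
  have hX2' : (2 : ℝ) ≤ X := by exact_mod_cast hX2
  have hqpos : (0 : ℝ) < q := by exact_mod_cast hq
  have hq1 : (1 : ℝ) ≤ q := by exact_mod_cast hq
  have hlog : 0 < Real.log x := Real.log_pos (by linarith)
  have ha₀ : a % q < q := Nat.mod_lt a hq
  obtain ⟨hqX, hlen⟩ := q1g_len x e X q (a % q) hx81 hxe hXx hxX.le hq ha₀
    (hqB.trans b2)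
  have haX : a % q ≤ X := ha₀.le.trans hqX
  -- coprimality
  have hca' : Nat.Coprime (a % q) q := by
    have : Nat.gcd (a % q) q = Nat.gcd q a := (Nat.gcd_rec q a).symm
    rw [Nat.Coprime, this, Nat.gcd_comm]
    exact hca
  have hcae' : Nat.Coprime (a % q + e) q := by
    have h1 : (a % q + e) % q = (a + e) % q := by rw [Nat.mod_add_mod]
    have h2 : Nat.gcd ((a % q + e) % q) q = Nat.gcd q (a % q + e) := (Nat.gcd_rec q _).symm
    have h3 : Nat.gcd ((a + e) % q) q = Nat.gcd q (a + e) := (Nat.gcd_rec q _).symm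
    rw [Nat.Coprime, Nat.gcd_comm, ← h2, h1, h3, Nat.gcd_comm]
    exact hcae
  have hne : ((q, a % q) : ℕ × ℕ) ≠ (q, a % q + e) := by
    intro h
    have := congrArg Prod.snd h
    simp only at this
    omega
  obtain ⟨S, hS, h1⟩ := hmain (X + e + 1) {(q, a % q), (q, a % q + e)} (by omega)
    (card_pair hne)
    (by
      intro l hl
      rw [mem_insert, mem_singleton] at hl
      rcases hl with rfl | rfl
      · exact ⟨hq, hca'.symm⟩
      · exact ⟨hq, hcae'.symm⟩)
    (by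
      intro l hl
      rw [mem_insert, mem_singleton] at hl
      rcases hl with rfl | rfl
      · exact ⟨by show q ≤ X + e + 1; omega, by show a % q ≤ X + e + 1; omega⟩
      · exact ⟨by show q ≤ X + e + 1; omega, by show a % q + e ≤ X + e + 1; omega⟩)
    (by
      intro A hA _ _
      left
      intro l hl l' hl'
      have g1 := hA hl
      have g2 := hA hl'
      rw [mem_insert, mem_singleton] at g1 g2
      rcases g1 with rfl | rfl <;> rcases g2 with rfl | rfl
      · show a % q ≤ a % q + e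
        omega
      · show a % q ≤ a % q + e + e
        omega
      · show a % q + e ≤ a % q + e
        omega
      · show a % q + e ≤ a % q + e + e
        omega)
    0 ((X - a % q) / q) (Nat.zero_le _)
    ((Nat.div_le_self _ _).trans (by omega))
    (by
      push_cast
      rw [sub_zero]
      exact hlen)
  rw [q1g_lam lam hinv q (a % q) e he0, ← ht] at h1
  have hHLS := Pool.MP_92ef0c_nt.SH.isHL_of_isD q (a % q) e hq he0 hca' hcae' S hS
  obtain ⟨hS0, hS1, -⟩ := hHL q hq S hHLS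
  rw [hcard] at hS1
  rw [Nat.cast_zero, sub_zero, show max 0 1 = 1 from rfl] at h1
  have h2 := q1g_card P e q a X hq haX
  have h3 := q1g_int X x hX2' hXx hxX.le
  have h7 := hsi q (a % q) X hq ha₀ hX2 haX
  have hconst := pair_const e q he he0 hq S hHLS
  suffices hgoal : |(open Classical in (((Finset.range (X + 1)).filter
        (fun n => n ∈ P ∧ n + e ∈ P ∧ n ≡ a [MOD q])).card : ℝ)) -
      t * (S / q * ∫ t in (2 : ℝ)..x, 1 / (Real.log t) ^ 2)| ≤ (1 + t + K) * x / (Real.log x) ^ C by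
    rw [hconst] at hgoal
    exact hgoal
  -- bound of the constant
  have hSb : S ≤ C₀ * ((Real.log x) ^ B) ^ 2 := by
    have e1 : 1 + Real.log q ≤ q := by linarith [Real.log_le_sub_one_of_pos hqpos]
    have e2 : 0 ≤ Real.log q := Real.log_nonneg hq1
    calc S ≤ C₀ * (1 + Real.log q) ^ 2 := hS1
      _ ≤ C₀ * ((Real.log x) ^ B) ^ 2 := by
          refine mul_le_mul_of_nonneg_left ?_ hC₀.le
          exact pow_le_pow_left₀ (by linarith) (e1.trans hqB) 2
  have hSq : S / q ≤ S := div_le_self hS0 hq1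
  have hSq0 : 0 ≤ S / q := div_nonneg hS0 hqpos.le
  set G := ∑ m ∈ Ioc 1 ((X - a % q) / q), gg {(q, a % q), (q, a % q + e)} m with hG
  set I := ∑ m ∈ Ioc 0 ((X - a % q) / q), ind P {(q, a % q), (q, a % q + e)} m with hI
  -- bound of the main error
  have h4 : K * (((X - a % q) / q : ℕ) : ℝ) * Real.exp (-(c * √(Real.log ((X + e + 1 : ℕ) : ℝ)))) ≤
      K * (x / (Real.log x) ^ C) := by
    have e1 : (((X - a % q) / q : ℕ) : ℝ) ≤ x := by
      have : (X - a % q) / q ≤ X := (Nat.div_le_self _ _).trans (Nat.sub_le _ _)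
      have h : (((X - a % q) / q : ℕ) : ℝ) ≤ X := by exact_mod_cast this
      exact h.trans hXx
    have e2 : Real.log x ≤ Real.log ((X + e + 1 : ℕ) : ℝ) := by
      apply Real.log_le_log hxpos
      push_cast
      have : (0 : ℝ) ≤ e := Nat.cast_nonneg e
      linarith
    have e5 : Real.exp (-(c * √(Real.log ((X + e + 1 : ℕ) : ℝ)))) ≤ Real.exp (-(c * √(Real.log x))) := by
      apply Real.exp_le_exp.2
      have := mul_le_mul_of_nonneg_left (Real.sqrt_le_sqrt e2) hc.le
      linarith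
    calc K * (((X - a % q) / q : ℕ) : ℝ) * Real.exp (-(c * √(Real.log ((X + e + 1 : ℕ) : ℝ))))
        ≤ K * x * (1 / (Real.log x) ^ C) := by
          refine mul_le_mul (mul_le_mul_of_nonneg_left e1 hK.le) (e5.trans b4)
            (Real.exp_pos _).le (by positivity)
      _ = K * (x / (Real.log x) ^ C) := by ring
  have h5 : |S / q * (∫ t in (2 : ℝ)..x, 1 / (Real.log t) ^ 2) -
      S / q * ∫ t in (2 : ℝ)..(X : ℝ), 1 / (Real.log t) ^ 2| ≤ 3 * S := by
    rw [← mul_sub, abs_mul, abs_of_nonneg hSq0]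
    calc S / q * |(∫ t in (2 : ℝ)..x, 1 / (Real.log t) ^ 2) -
          ∫ t in (2 : ℝ)..(X : ℝ), 1 / (Real.log t) ^ 2|
        ≤ S * 3 := mul_le_mul hSq h3 (abs_nonneg _) hS0
      _ = 3 * S := by ring
  have h8 : |S * G - S / q * ∫ t in (2 : ℝ)..(X : ℝ), 1 / (Real.log t) ^ 2| ≤ C₁ * S := by
    have e1 : S * G - S / q * ∫ t in (2 : ℝ)..(X : ℝ), 1 / (Real.log t) ^ 2 =
        S * (G - (1 / (q : ℝ)) * ∫ t in (2 : ℝ)..(X : ℝ), 1 / (Real.log t) ^ 2) := by ring
    rw [e1, abs_mul, abs_of_nonneg hS0, mul_comm C₁]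
    exact mul_le_mul_of_nonneg_left h7 hS0
  have h9 : (C₁ + 3) * S ≤ x / (Real.log x) ^ C := by
    refine le_trans ?_ b3
    calc (C₁ + 3) * S ≤ (C₁ + 3) * (C₀ * ((Real.log x) ^ B) ^ 2) :=
          mul_le_mul_of_nonneg_left hSb (by linarith)
      _ = C₀ * (C₁ + 3) * ((Real.log x) ^ B) ^ 2 := by ring
  have h6 : (1 + t + K) * x / (Real.log x) ^ C =
      1 * (x / (Real.log x) ^ C) + t * (x / (Real.log x) ^ C) + K * (x / (Real.log x) ^ C) := by ring
  have h10 : (C₁ + 3) * S = C₁ * S + 3 * S := by ring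
  have h11 : |t * S * G - t * (S / q * ∫ t in (2 : ℝ)..x, 1 / (Real.log t) ^ 2)| ≤
      t * (x / (Real.log x) ^ C) := by
    have e1 : t * S * G - t * (S / q * ∫ t in (2 : ℝ)..x, 1 / (Real.log t) ^ 2) =
        t * (S * G - S / q * ∫ t in (2 : ℝ)..x, 1 / (Real.log t) ^ 2) := by ring
    rw [e1, abs_mul, abs_of_nonneg ht0]
    refine mul_le_mul_of_nonneg_left ?_ ht0
    rw [abs_le] at h5 h8 ⊢
    constructor
    · linarith [h5.2, h8.1]
    · linarith [h5.1, h8.2]
  rw [h6, one_mul]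
  rw [abs_le] at h1 h2 h11 ⊢
  constructor
  · linarith [h1.1, h2.1, h11.1]
  · linarith [h1.2, h2.2, h11.2]

end Pool.MP_92ef0c_nt.SG
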