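import Pool.Agent.Lib_MP_92ef0c_sg.Defs
import Pool.Agent.Lib_MP_92ef0c_pb.NotQ1

/-! # [SG-V] the factor in Q1 is determined by the set -/

set_option autoImplicit false

namespace Pool.MP_92ef0c_nt.SG

open Finset

private theorem main_ge (e : ℕ) (c x0 : ℝ) :
    ∃ x : ℝ, x0 ≤ x ∧ c ≤ Real.log x ∧ 4 ≤ x ∧ 0 < Real.log x ∧ (x / 2) / (Real.log x) ^ 2 ≤
      2 / (((Finset.range 1).filter
                (fun A => Nat.Coprime A 1 ∧ Nat.Coprime (A + e) 1)).card : ℝ)
            * (∏ p ∈ e.primeFactors.filter (fun p => 2 < p),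
                (((p : ℝ) - 1) / ((p : ℝ) - 2)))
            * (∏' p : {p : ℕ // p.Prime ∧ 2 < p}, (1 - 1 / (((p : ℕ) : ℝ) - 1) ^ 2))
            * (∫ t in (2 : ℝ)..x, 1 / (Real.log t) ^ 2) := by
  have hcard : ((Finset.range 1).filter
      (fun A => Nat.Coprime A 1 ∧ Nat.Coprime (A + e) 1)).card = 1 := by
    simp
  have hprod : 1 ≤ ∏ p ∈ e.primeFactors.filter (fun p => 2 < p), (((p : ℝ) - 1) / ((p : ℝ) - 2)) := by
    have h0 : ∏ _p ∈ e.primeFactors.filter (fun p => 2 < p), (1 : ℝ) ≤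
        ∏ p ∈ e.primeFactors.filter (fun p => 2 < p), (((p : ℝ) - 1) / ((p : ℝ) - 2)) := by
      apply Finset.prod_le_prod (fun _ _ => zero_le_one)
      intro p hp
      rw [mem_filter] at hp
      have h1 : (3 : ℝ) ≤ p := by exact_mod_cast hp.2
      rw [one_le_div (by linarith)]
      linarith
    rwa [Finset.prod_const_one] at h0
  have hC := Pool.MP_92ef0c_nt.PB.twin_const_ge
  rw [hcard]
  generalize (∏ p ∈ e.primeFactors.filter (fun p => 2 < p), (((p : ℝ) - 1) / ((p : ℝ) - 2))) = A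
    at hprod
  generalize (∏' p : {p : ℕ // p.Prime ∧ 2 < p}, (1 - 1 / (((p : ℕ) : ℝ) - 1) ^ 2)) = C₂ at hC
  have hev : ∀ᶠ x : ℝ in Filter.atTop, c ≤ Real.log x :=
    Real.tendsto_log_atTop.eventually_ge_atTop _
  obtain ⟨x, hx1, hx2, hx3⟩ := (hev.and ((Filter.eventually_ge_atTop (4 : ℝ)).and
    (Filter.eventually_ge_atTop x0))).exists
  have hlog : 0 < Real.log x := Real.log_pos (by linarith)
  refine ⟨x, hx3, hx1, hx2, hlog, ?_⟩
  have hint : (x - 2) / (Real.log x) ^ 2 ≤ ∫ t in (2 : ℝ)..x, 1 / (Real.log t) ^ 2 := by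
    have hcont : ContinuousOn (fun t : ℝ => 1 / (Real.log t) ^ 2) (Set.uIcc 2 x) := by
      intro t ht
      rw [Set.uIcc_of_le (by linarith)] at ht
      have h1 : 0 < Real.log t := Real.log_pos (by linarith [ht.1])
      apply ContinuousAt.continuousWithinAt
      apply ContinuousAt.div continuousAt_const
      · exact (Real.continuousAt_log (by linarith [ht.1])).pow 2
      · positivity
    have h1 : ∫ _t in (2 : ℝ)..x, 1 / (Real.log x) ^ 2 ≤ ∫ t in (2 : ℝ)..x, 1 / (Real.log t) ^ 2 := by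
      apply intervalIntegral.integral_mono_on (by linarith) intervalIntegrable_const
        hcont.intervalIntegrable
      intro t ht
      have h2 : 0 < Real.log t := Real.log_pos (by linarith [ht.1])
      have h3 : Real.log t ≤ Real.log x := Real.log_le_log (by linarith [ht.1]) ht.2
      apply one_div_le_one_div_of_le (by positivity)
      exact pow_le_pow_left₀ h2.le h3 2
    rw [intervalIntegral.integral_const, smul_eq_mul] at h1
    refine le_trans (le_of_eq ?_) h1
    ring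
  have hI0 : 0 ≤ (x - 2) / (Real.log x) ^ 2 := by
    apply div_nonneg (by linarith) (by positivity)
  have h2 : (1 : ℝ) ≤ 2 / ((1 : ℕ) : ℝ) * A * C₂ := by
    rw [Nat.cast_one, div_one]
    nlinarith
  calc (x / 2) / (Real.log x) ^ 2 ≤ (x - 2) / (Real.log x) ^ 2 := by
        apply div_le_div_of_nonneg_right (by linarith) (by positivity)
    _ ≤ ∫ t in (2 : ℝ)..x, 1 / (Real.log t) ^ 2 := hint
    _ ≤ _ := le_mul_of_one_le_left (hI0.trans hint) h2

/-- [SG-V] PROOF: `B = 0`, `C = 3`, `q = 1`, `a = 0` in both: the two main terms differ by `|t - t'| * T(x)`, where `T(x) = 2/1 * ∏ * ∏' * ∫ ≥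
(x/2) / (log x)^2` for large `x` (see the proof of `main_term_large'` in `Lib_MP_92ef0c_sh/Q1c.lean`: `twin_const_ge`, `hprod`,
`hint`), while the difference is at most `(K + K') x / (log x)^3`; let `x → ∞`. -/
theorem q1_unique (P : Set ℕ) (e : ℕ) (t t' : ℝ) (h : PQ P e t) (h' : PQ P e t') : t = t' := by
  by_contra hne
  obtain ⟨K, x0, hK⟩ := h 0 3 le_rfl (by norm_num)
  obtain ⟨K', x0', hK'⟩ := h' 0 3 le_rfl (by norm_num)
  have hd : 0 < |t - t'| := abs_pos.mpr (sub_ne_zero.mpr hne)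
  obtain ⟨x, hx, hlx, hx4, hlog, hM⟩ := main_ge e (2 * (|K| + |K'| + 1) / |t - t'|) (max x0 x0')
  have hq : ((1 : ℕ) : ℝ) ≤ Real.log x ^ (0 : ℝ) := by
    rw [Real.rpow_zero, Nat.cast_one]
  have h1 := hK x ((le_max_left _ _).trans hx) 1 0 Nat.one_pos hq (Nat.coprime_one_right _)
    (Nat.coprime_one_right _)
  have h2 := hK' x ((le_max_right _ _).trans hx) 1 0 Nat.one_pos hq (Nat.coprime_one_right _)
    (Nat.coprime_one_right _)
  generalize 2 / (((Finset.range 1).filter
                (fun A => Nat.Coprime A 1 ∧ Nat.Coprime (A + e) 1)).card : ℝ)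
            * (∏ p ∈ e.primeFactors.filter (fun p => 2 < p),
                (((p : ℝ) - 1) / ((p : ℝ) - 2)))
            * (∏' p : {p : ℕ // p.Prime ∧ 2 < p}, (1 - 1 / (((p : ℕ) : ℝ) - 1) ^ 2))
            * (∫ t in (2 : ℝ)..x, 1 / (Real.log t) ^ 2) = T at h1 h2 hM
  have hx0 : 0 < x := by linarith
  have h3 : (Real.log x) ^ (3 : ℝ) = (Real.log x) ^ 2 * Real.log x := by
    rw [show (3 : ℝ) = ((3 : ℕ) : ℝ) by norm_num, Real.rpow_natCast]; ring
  rw [h3] at h1 h2
  have hT0 : 0 ≤ T := le_trans (by positivity) hM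
  set N : ℝ := (open Classical in (((Finset.range (⌊x⌋₊ + 1)).filter
            (fun n => n ∈ P ∧ n + e ∈ P ∧ n ≡ 0 [MOD 1])).card : ℝ)) with hN
  have h4 : |t - t'| * T ≤ (K + K') * x / ((Real.log x) ^ 2 * Real.log x) := by
    have h5 : |t - t'| * T = |(N - t' * T) - (N - t * T)| := by
      rw [← abs_of_nonneg hT0, ← abs_mul, abs_of_nonneg hT0]
      congr 1
      ring
    rw [h5]
    refine (abs_sub _ _).trans ?_
    have h6 : (K + K') * x / ((Real.log x) ^ 2 * Real.log x) =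
        K' * x / ((Real.log x) ^ 2 * Real.log x) + K * x / ((Real.log x) ^ 2 * Real.log x) := by ring
    rw [h6]
    exact add_le_add h2 h1
  have h7 : |t - t'| * ((x / 2) / (Real.log x) ^ 2) ≤ (K + K') * x / ((Real.log x) ^ 2 * Real.log x) :=
    (mul_le_mul_of_nonneg_left hM hd.le).trans h4
  have h8 : |t - t'| * Real.log x ≤ 2 * (K + K') := by
    have h9 : 0 < (Real.log x) ^ 2 * Real.log x := by positivity
    rw [le_div_iff₀ h9] at h7
    have h10 : |t - t'| * ((x / 2) / (Real.log x) ^ 2) * ((Real.log x) ^ 2 * Real.log x) =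
        |t - t'| * Real.log x * (x / 2) := by
      field_simp
    rw [h10] at h7
    have h11 : |t - t'| * Real.log x * (x / 2) ≤ 2 * (K + K') * (x / 2) := by linarith
    exact le_of_mul_le_mul_right h11 (by linarith)
  rw [div_le_iff₀ hd] at hlx
  have := le_abs_self K
  have := le_abs_self K'
  linarith

end Pool.MP_92ef0c_nt.SG
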