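import Pool.Agent.Lib_MP_92ef0c_sg.ExistW
import Pool.Agent.Lib_MP_92ef0c_sg.Exist
import Pool.Agent.Lib_MP_92ef0c_pb.Mert
import Pool.Agent.Lib_MP_92ef0c_sg.FinP
import Pool.Agent.Lib_MP_92ef0c_sg.MainB
import Pool.Agent.Lib_MP_92ef0c_sg.Dick
import Pool.Agent.Lib_MP_92ef0c_sg.Q1g
import Pool.Agent.Lib_MP_92ef0c_sg.Q1u
import Pool.Agent.Lib_MP_92ef0c_sg.CompF
import Pool.Agent.Lib_MP_92ef0c_sg.Bil

/-! # assembly -/

set_option autoImplicit false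

namespace Pool.MP_92ef0c_nt.SG

open Finset
open Pool.MP_92ef0c_nt.PB (Pz V zz Rough rho rho_bounds rough_of_rho_pos)
open Pool.MP_92ef0c_nt.SH (EX ind rr gg Bd Prim IsD SSL Del Lam Exc Inter)

/-- nonnegative and translation invariant -/
def Adm (lam : Finset ℕ → ℝ) : Prop :=
  (∀ A, 0 ≤ lam A) ∧ ∀ (A : Finset ℕ) (t : ℕ), lam (A.image (fun a => a + t)) = lam A

/-- everything -/
theorem main (F : ℕ → ℕ → ℝ) : ∃ P : (Finset ℕ → ℝ) → Set ℕ,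
    ∀ lam : Finset ℕ → ℝ, Adm lam →
      (∀ n ∈ P lam, ∀ p, p.Prime → p ∣ n → 2 ^ Nat.sqrt (Nat.log 2 n) < p) ∧
      (∀ A : Finset ℕ, 2 ≤ A.card → lam A = 0 → {n | ∀ a ∈ A, n + a ∈ P lam}.Finite) ∧
      (∀ (k R : ℕ) (ε : ℝ), 0 < ε → ∃ c K : ℝ, 0 < c ∧ 0 < K ∧
        ∀ (x : ℕ) (L : Finset (ℕ × ℕ)),
        2 ≤ x → L.card = k → Prim L → (∀ l ∈ L, l.1 ≤ x ∧ l.2 ≤ x) → Near lam R L →
        ∀ u v : ℕ, u ≤ v → v ≤ x → (x : ℝ) ^ ε ≤ (v : ℝ) - u → ∃ S : ℝ, IsD L S ∧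
          |∑ n ∈ Ioc u v, ind (P lam) L n - lamL lam L * S * ∑ n ∈ Ioc (max u 1) v, gg L n| ≤
            K * ((v : ℝ) - u) * Real.exp (-(c * √(Real.log x)))) ∧
      (∀ e : ℕ, 0 < e → Even e → ∀ t : ℝ, (PQ (P lam) e t ↔ t = lam {0, e})) ∧
      (∀ lam' : Finset ℕ → ℝ, Adm lam' → ∀ k R : ℕ, ∃ K : ℝ, 0 < K ∧
        ∀ (x : ℕ) (L : Finset (ℕ × ℕ)), 2 ≤ x → L.card = k →
        (∀ l ∈ L, 0 < l.1 ∧ l.1 ≤ x ∧ l.2 ≤ x) → Near lam R L → Near lam' R L →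
        Same lam lam' L →
        (∀ i u v : ℕ, u ≤ v → v ≤ x →
          |∑ n ∈ Ioc u v, F i n * (ind (P lam) L n - ind (P lam') L n)| ≤
            K * √(Real.log x * Real.log ((x : ℝ) + i) * ∑ n ∈ Ioc u v, (F i n) ^ 2)) ∧
        ∀ (m₀ n₀ : ℕ), m₀ * n₀ ≤ x → ∀ α β : ℕ → ℝ, (∀ m, |α m| ≤ 1) → (∀ n, |β n| ≤ 1) →
          |∑ m ∈ Icc 1 m₀, ∑ n ∈ Icc 1 n₀, α m * β n *
            (ind (P lam) L (m * n) - ind (P lam') L (m * n))| ≤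
            K * (Real.log x) ^ 2 * √((m₀ : ℝ) * n₀ * (m₀ + n₀))) := by
  classical
  obtain ⟨N₁, hN₁⟩ := rho_bounds
  have hρ := hN₁ N₁ le_rfl
  have hW : ∀ lam : Finset ℕ → ℝ, ∃ w : ℕ → ℕ, ∃ P : Set ℕ, Adm lam → Wid N₁ lam w ∧
      (∀ n ∈ P, 0 < rho N₁ n) ∧
      (∀ A : Finset ℕ, (∀ a ∈ A, a ∈ P) → kap lam w A ≠ 0) ∧ Tst N₁ lam w (FF F) P := by
    intro lam
    by_cases h : Adm lam
    · obtain ⟨w, hw, hpos⟩ := exists_width N₁ hρ lam h.1 h.2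
      obtain ⟨P, hP⟩ := exists_PP N₁ hρ lam w hw hpos (FF F)
      exact ⟨w, P, fun _ => ⟨hw, hP⟩⟩
    · exact ⟨fun _ => 0, ∅, fun h' => absurd h' h⟩
  choose w P hP using hW
  refine ⟨P, fun lam hlam => ?_⟩
  obtain ⟨hwid, hpos, hker, htst⟩ := hP lam hlam
  have hdick : ∀ (k R : ℕ) (ε : ℝ), 0 < ε → ∃ c K : ℝ, 0 < c ∧ 0 < K ∧
        ∀ (x : ℕ) (L : Finset (ℕ × ℕ)),
        2 ≤ x → L.card = k → Prim L → (∀ l ∈ L, l.1 ≤ x ∧ l.2 ≤ x) → Near lam R L →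
        ∀ u v : ℕ, u ≤ v → v ≤ x → (x : ℝ) ^ ε ≤ (v : ℝ) - u → ∃ S : ℝ, IsD L S ∧
          |∑ n ∈ Ioc u v, ind (P lam) L n - lamL lam L * S * ∑ n ∈ Ioc (max u 1) v, gg L n| ≤
            K * ((v : ℝ) - u) * Real.exp (-(c * √(Real.log x))) := by
    intro k R ε hε
    obtain ⟨K₁, hK₁, h1⟩ := main_bound N₁ hρ lam hlam.1 hlam.2 (w lam) hwid k R
    obtain ⟨K₂, hK₂, h2⟩ := lamL_bound lam hlam.1 hlam.2 k R
    refine dickson_gen N₁ hρ lam (P lam) k R (K₁ + K₂) ?_ ?_ ε hε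
    · intro M L hk hB hN u v huv hv
      refine (h1 (FF F) (P lam) (FF_zero F) htst M L hk hB hN u v huv hv).trans ?_
      have h3 : 0 ≤ √((v : ℝ) - u) + 1 := by positivity
      have h4 : 0 ≤ (M : ℝ) + 1 := by positivity
      refine mul_le_mul_of_nonneg_right (mul_le_mul_of_nonneg_right ?_ h4) h3
      linarith
    · intro L hk hN
      exact ⟨(h2 L hk hN).1, (h2 L hk hN).2.trans (by linarith)⟩
  refine ⟨?_, ?_, hdick, ?_, ?_⟩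
  · intro n hn p hp hpn
    have h2 := rough_of_rho_pos (hpos n hn)
    by_contra h3
    exact h2 p hp (not_lt.1 h3) hpn
  · intro A hA h0
    exact fin_pattern lam hlam.2 (w lam) hwid.2.1 (P lam) hker A hA h0
  · intro e he0 he t
    have h1 := q1_gen (P lam) lam hlam.1 hlam.2 e he0 he (fun ε hε => hdick 2 e ε hε)
    constructor
    · intro h
      exact q1_unique (P lam) e t _ h h1
    · rintro rfl
      exact h1
  · intro lam' hlam' k R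
    obtain ⟨hwid', -, -, htst'⟩ := hP lam' hlam'
    obtain ⟨K₁, hK₁, h1⟩ := compare_F N₁ lam lam' hlam.2 hlam'.2 (w lam) (w lam') hwid hwid' k R
    obtain ⟨K₂, hK₂, h2⟩ := compare_bil N₁ lam lam' hlam.2 hlam'.2 (w lam) (w lam') hwid hwid' k R
    refine ⟨K₁ + K₂, by linarith, fun x L hx hk hL hN hN' hS => ⟨?_, ?_⟩⟩
    · intro i u v huv hv
      refine (h1 F (P lam) (P lam') htst htst' x i L hx hk hL hN hN' hS u v huv hv).trans ?_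
      exact mul_le_mul_of_nonneg_right (by linarith) (Real.sqrt_nonneg _)
    · intro m₀ n₀ hmn α β hα hβ
      refine (h2 F (P lam) (P lam') htst htst' x L hx hk hL hN hN' hS m₀ n₀ hmn α β hα hβ).trans ?_
      refine mul_le_mul_of_nonneg_right ?_ (Real.sqrt_nonneg _)
      exact mul_le_mul_of_nonneg_right (by linarith) (sq_nonneg _)

end Pool.MP_92ef0c_nt.SG
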