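import Pool.Agent.Lib_MP_92ef0c_sg.Mul
import Pool.Agent.Lib_MP_92ef0c_sg.Conf
import Pool.Agent.Lib_MP_92ef0c_sh.Tests

/-! # [SG-F] the finite configuration (helper11) -/

set_option autoImplicit false

namespace Pool.MP_92ef0c_nt.SG

open Finset
open Pool.MP_92ef0c_nt.SH (EX ind rr gg Bd Prim IsD SSL Del Lam Exc Inter tests tests_sum mem_tests
  inter_deg greedy)

private theorem mem_sites' (L : Finset (ℕ × ℕ)) (n s : ℕ) :
    s ∈ sites L n ↔ ∃ l ∈ L, l.1 * n + l.2 = s := by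
  unfold sites
  rw [mem_image]

private theorem site_lt' (M n : ℕ) (l : ℕ × ℕ) (h1 : l.1 < 2 ^ M) (h2 : l.2 < 2 ^ M)
    (hn : n < 2 ^ M) : l.1 * n + l.2 < 2 ^ (2 * M) := by
  have e : 2 ^ (2 * M) = 2 ^ M * 2 ^ M := by rw [two_mul, pow_add]
  rw [e]
  calc l.1 * n + l.2 < l.1 * n + 2 ^ M := by omega
    _ ≤ (2 ^ M - 1) * 2 ^ M + 2 ^ M := by
        apply Nat.add_le_add_right
        exact Nat.mul_le_mul (by omega) hn.le
    _ = 2 ^ M * 2 ^ M := by
        have h3 : 1 ≤ 2 ^ M := Nat.one_le_two_pow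
        calc (2 ^ M - 1) * 2 ^ M + 2 ^ M = ((2 ^ M - 1) + 1) * 2 ^ M := by ring
          _ = 2 ^ M * 2 ^ M := by rw [Nat.sub_add_cancel h3]

private theorem w_le' (w : ℕ → ℕ) (hw : ∀ n, w n ≤ Nat.log 2 n) (M s : ℕ) (hs : s < 2 ^ (2 * M)) :
    w s ≤ 2 * M := by
  refine (hw s).trans ?_
  rcases Nat.eq_zero_or_pos s with h | h
  · subst h; simp
  · exact (Nat.log_lt_of_lt_pow h.ne' hs).le

private theorem nbr_close' (w : ℕ → ℕ) (hw : ∀ n, w n ≤ Nat.log 2 n) (M s t : ℕ)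
    (hs : s < 2 ^ (2 * M)) (ht : t < 2 ^ (2 * M)) (h : nbr w s t) :
    s ≤ t + (2 * M + 1) ∧ t ≤ s + (2 * M + 1) := by
  have h1 := w_le' w hw M s hs
  have h2 := w_le' w hw M t ht
  exact ⟨h.1.trans (by omega), h.2.trans (by omega)⟩

private theorem Lam_pos' (k M : ℕ) : 0 < Lam k M := by
  unfold Lam
  positivity

private theorem LL_pos (k M i : ℕ) : 0 < Lam k M + 2 * Real.log ((i : ℝ) + 2) := by
  have h1 := Lam_pos' k M
  have h2 : 0 ≤ Real.log ((i : ℝ) + 2) := Real.log_nonneg (by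
    have : (0 : ℝ) ≤ i := Nat.cast_nonneg i
    linarith)
  linarith

private theorem kraft (N : ℕ) :
    ∑ i ∈ range N, Real.exp (-(2 * Real.log ((i : ℝ) + 2))) ≤ 1 := by
  have h : ∑ i ∈ range N, Real.exp (-(2 * Real.log ((i : ℝ) + 2))) ≤ 1 - 1 / ((N : ℝ) + 1) := by
    induction N with
    | zero => simp
    | succ N ih =>
      rw [sum_range_succ]
      have h0 : (0 : ℝ) ≤ N := Nat.cast_nonneg N
      have h1 : Real.exp (-(2 * Real.log ((N : ℝ) + 2))) = 1 / ((N : ℝ) + 2) ^ 2 := by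
        rw [Real.exp_neg, show 2 * Real.log ((N : ℝ) + 2) = Real.log (((N : ℝ) + 2) ^ 2) by
          rw [Real.log_pow]; push_cast; ring, Real.exp_log (by positivity), one_div]
      rw [h1]
      have h2 : 1 / ((N : ℝ) + 2) ^ 2 ≤ 1 / ((N : ℝ) + 1) - 1 / ((N : ℝ) + 2) := by
        rw [div_sub_div _ _ (by positivity) (by positivity), div_le_div_iff₀ (by positivity)
          (by positivity)]
        nlinarith
      push_cast
      have h3 : (N : ℝ) + 1 + 1 = (N : ℝ) + 2 := by ring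
      rw [h3]
      linarith
  have h2 : 0 ≤ 1 / ((N : ℝ) + 1) := by positivity
  linarith

/-- [SG-F] (helper11) -/
theorem finite_gen (w : ℕ → ℕ) (hw : ∀ n, w n ≤ Nat.log 2 n) (f : Finset ℕ → ℝ) (hf0 : f ∅ = 1)
    (hmul : ∀ T T' : Finset ℕ, Disjoint T T' → (∀ s ∈ T, ∀ t ∈ T', ¬ nbr w s t) →
      f (T ∪ T') = f T * f T')
    (hpos : ∀ U S : Finset ℕ, S ⊆ U → 0 ≤ muG U f S) (F : ℕ → ℕ → ℝ) (N : ℕ) :
    ∃ S : Finset ℕ, (∃ T, S ⊆ T ∧ f T ≠ 0) ∧
      ∀ (M i u v : ℕ) (L : Finset (ℕ × ℕ)), M < N → L.card < N → i < N → Bd M L →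
        u < 2 ^ M → v < 2 ^ M → (∀ l ∈ L, l.1 * v + l.2 < N) →
        |∑ n ∈ Ioc u v, F i n * (ind S L n - f (sites L n))| ≤
          Er L.card M i (∑ n ∈ Ioc u v, (F i n) ^ 2) := by
  classical
  set U : Finset ℕ := range N with hU
  set μ := muG U f with hμd
  have hμ : ∀ S ∈ U.powerset, 0 ≤ μ S := fun S hS => hpos U S (mem_powerset.1 hS)
  -- colourings
  have hcolex : ∀ (M : ℕ) (L : Finset (ℕ × ℕ)) (T : Finset ℕ), ∃ col : ℕ → ℕ,
      (∀ n, col n ≤ Del L.card M) ∧ ((∀ l ∈ L, 0 < l.1) →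
        ∀ n ∈ T, ∀ m ∈ T, m < n → Inter L (2 * M + 1) m n → col m ≠ col n) := by
    intro M L T
    by_cases h0 : ∀ l ∈ L, 0 < l.1
    · obtain ⟨col, h1, h2⟩ := greedy T (Inter L (2 * M + 1)) (Del L.card M) (by
        intro n _
        have h3 := inter_deg L h0 (2 * M + 1) T n
        have h4 : L.card ^ 2 * (2 * (2 * M + 1) + 1) = Del L.card M := by
          unfold Del; ring
        rw [h4] at h3
        refine le_trans (card_le_card ?_) h3
        intro m hm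
        rw [mem_filter] at hm ⊢
        exact ⟨hm.1, hm.2.2⟩)
      exact ⟨col, h1, fun _ => h2⟩
    · exact ⟨fun _ => 0, fun _ => Nat.zero_le _, fun h => absurd h h0⟩
  choose col hcol1 hcol2 using hcolex
  -- the tests
  set valid : ℕ × ℕ × Finset (ℕ × ℕ) × ℕ × ℕ × ℕ → Prop := fun t =>
    Bd t.1 t.2.2.1 ∧ t.2.2.2.2.1 < 2 ^ t.1 ∧ ∀ l ∈ t.2.2.1, l.1 * t.2.2.2.2.1 + l.2 < N with hvalid
  set T : (ℕ × ℕ × Finset (ℕ × ℕ) × ℕ × ℕ × ℕ) × ℕ → Finset ℕ := fun t =>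
    if valid t.1 then (Ioc t.1.2.2.2.1 t.1.2.2.2.2.1).filter
      (fun n => col t.1.1 t.1.2.2.1 (Ioc t.1.2.2.2.1 t.1.2.2.2.2.1) n = t.1.2.2.2.2.2)
    else ∅ with hT
  set g : (ℕ × ℕ × Finset (ℕ × ℕ) × ℕ × ℕ × ℕ) × ℕ → ℕ → Finset ℕ → ℝ := fun t n S =>
    F t.2 n * (if sites t.1.2.2.1 n ⊆ S then 1 else 0) with hg
  set J : Finset ((ℕ × ℕ × Finset (ℕ × ℕ) × ℕ × ℕ × ℕ) × ℕ) :=
    (tests N).filter (fun t => t.2.1 = 0) ×ˢ range N with hJ
  have hg1 : ∀ t ∈ J, ∀ n ∈ T t, ∀ S ∈ U.powerset, |g t n S| ≤ |F t.2 n| := by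
    intro t _ n _ S _
    rw [hg]
    dsimp only
    rw [abs_mul]
    split_ifs
    · rw [abs_one, mul_one]
    · rw [abs_zero, mul_zero]; exact abs_nonneg _
  have hTmem : ∀ t n, n ∈ T t → valid t.1 ∧ n ∈ Ioc t.1.2.2.2.1 t.1.2.2.2.2.1 ∧
      col t.1.1 t.1.2.2.1 (Ioc t.1.2.2.2.1 t.1.2.2.2.2.1) n = t.1.2.2.2.2.2 := by
    intro t n hn
    rw [hT] at hn
    dsimp only at hn
    split_ifs at hn with hv
    · rw [mem_filter] at hn
      exact ⟨hv, hn.1, hn.2⟩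
    · exact absurd hn (notMem_empty _)
  -- the values for valid tests
  have hsite : ∀ (M : ℕ) (L : Finset (ℕ × ℕ)) (v n : ℕ), Bd M L → v < 2 ^ M → n ≤ v →
      (∀ l ∈ L, l.1 * v + l.2 < N) → ∀ s ∈ sites L n, s < N ∧ s < 2 ^ (2 * M) := by
    intro M L v n hB hv hn hvN s hs
    obtain ⟨l, hl, rfl⟩ := (mem_sites' L n s).1 hs
    refine ⟨lt_of_le_of_lt ?_ (hvN l hl), site_lt' M n l (hB l hl).2.1 (hB l hl).2.2 (by omega)⟩
    exact Nat.add_le_add_right (Nat.mul_le_mul_left _ hn) _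
  have hind : ∀ t ∈ J, ∀ s : ℝ,
      EX U.powerset μ (fun S => ∏ n ∈ T t, Real.exp (s * (g t n S - EX U.powerset μ (g t n)))) =
        ∏ n ∈ T t, EX U.powerset μ (fun S => Real.exp (s * (g t n S - EX U.powerset μ (g t n)))) := by
    intro t _ s
    apply EXG_prod U f hf0 (nbr w) hmul (T t) (fun n => sites t.1.2.2.1 n)
    · intro n hn x hx
      obtain ⟨hv, h1, -⟩ := hTmem t n hn
      rw [mem_Ioc] at h1
      rw [hU, mem_range]
      exact (hsite t.1.1 t.1.2.2.1 _ n hv.1 hv.2.1 h1.2 hv.2.2 x hx).1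
    · intro n hn m hm hnm
      obtain ⟨hv, h1, h1c⟩ := hTmem t n hn
      obtain ⟨-, h2, h2c⟩ := hTmem t m hm
      have h0 : ∀ l ∈ t.1.2.2.1, 0 < l.1 := fun l hl => (hv.1 l hl).1
      have hno : ∀ s ∈ sites t.1.2.2.1 n, ∀ s' ∈ sites t.1.2.2.1 m,
          ¬ (s ≤ s' + (2 * t.1.1 + 1) ∧ s' ≤ s + (2 * t.1.1 + 1)) := by
        intro s hs s' hs' hclose
        obtain ⟨l, hl, rfl⟩ := (mem_sites' _ _ _).1 hs
        obtain ⟨l', hl', rfl⟩ := (mem_sites' _ _ _).1 hs'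
        rcases lt_or_gt_of_ne hnm with h | h
        · exact hcol2 t.1.1 t.1.2.2.1 _ h0 m h2 n h1 h ⟨l, hl, l', hl', hclose.1, hclose.2⟩
            (h1c.trans h2c.symm)
        · exact hcol2 t.1.1 t.1.2.2.1 _ h0 n h1 m h2 h ⟨l', hl', l, hl, hclose.2, hclose.1⟩
            (h2c.trans h1c.symm)
      rw [mem_Ioc] at h1 h2
      constructor
      · rw [Finset.disjoint_left]
        intro s hs hs'
        exact hno s hs s hs' ⟨by omega, by omega⟩
      · intro s hs s' hs' hadj'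
        have e1 := (hsite t.1.1 t.1.2.2.1 _ n hv.1 hv.2.1 h1.2 hv.2.2 s hs).2
        have e2 := (hsite t.1.1 t.1.2.2.1 _ m hv.1 hv.2.1 h2.2 hv.2.2 s' hs').2
        exact hno s hs s' hs' (nbr_close' w hw t.1.1 s s' e1 e2 hadj')
    · intro n _ S
      have h1 : ∀ S : Finset ℕ, (sites t.1.2.2.1 n ⊆ S ∩ sites t.1.2.2.1 n) ↔
          (sites t.1.2.2.1 n ⊆ S) := by
        intro S
        constructor
        · intro h; exact h.trans inter_subset_left
        · intro h; exact subset_inter h (Subset.refl _)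
      rw [hg]
      dsimp only
      simp only [h1]
  have hsum : ∑ t ∈ J, 2 * Real.exp (-(Lam t.1.2.2.1.card t.1.1 + 2 * Real.log ((t.2 : ℝ) + 2))) < 1 := by
    have e1 : ∑ t ∈ J, 2 * Real.exp (-(Lam t.1.2.2.1.card t.1.1 + 2 * Real.log ((t.2 : ℝ) + 2))) =
        (∑ t ∈ (tests N).filter (fun t => t.2.1 = 0), 2 * Real.exp (-(Lam t.2.2.1.card t.1))) *
          ∑ i ∈ range N, Real.exp (-(2 * Real.log ((i : ℝ) + 2))) := by
      rw [hJ, sum_mul_sum, sum_product]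
      apply sum_congr rfl
      intro t _
      apply sum_congr rfl
      intro i _
      dsimp only
      rw [neg_add, Real.exp_add]
      ring
    rw [e1]
    have h1 : ∑ t ∈ (tests N).filter (fun t => t.2.1 = 0), 2 * Real.exp (-(Lam t.2.2.1.card t.1)) ≤
        ∑ t ∈ tests N, 2 * Real.exp (-(Lam t.2.2.1.card t.1)) :=
      sum_le_sum_of_subset_of_nonneg (filter_subset _ _) (fun t _ _ => by positivity)
    have h2 := tests_sum N
    have h3 := kraft N
    have h4 : 0 ≤ ∑ t ∈ (tests N).filter (fun t => t.2.1 = 0),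
        2 * Real.exp (-(Lam t.2.2.1.card t.1)) := sum_nonneg (fun t _ => by positivity)
    calc _ ≤ (∑ t ∈ (tests N).filter (fun t => t.2.1 = 0),
          2 * Real.exp (-(Lam t.2.2.1.card t.1))) * 1 := mul_le_mul_of_nonneg_left h3 h4
      _ < 1 := by linarith
  obtain ⟨S, hSU, hSpos, hStest⟩ := configW U.powerset μ hμ (muG_total U f hf0) J T g
    (fun t n => |F t.2 n|) hg1 hind
    (fun t => Lam t.1.2.2.1.card t.1.1 + 2 * Real.log ((t.2 : ℝ) + 2)) (fun t _ => LL_pos _ _ _) hsum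
  refine ⟨S, muG_supp U f S hSpos.ne', ?_⟩
  intro M i u v L hM hk hi hB hu hv hvN
  have hLs : L ⊆ range (2 ^ M) ×ˢ range (2 ^ M) := by
    intro l hl
    rw [mem_product, mem_range, mem_range]
    exact (hB l hl).2
  set Λ : ℝ := Lam L.card M + 2 * Real.log ((i : ℝ) + 2) with hΛ
  have hΛ0 : 0 ≤ Λ := (LL_pos _ _ _).le
  -- expectation of a test function
  have hE : ∀ n ∈ Ioc u v, ∀ c, EX U.powerset μ (g ((M, 0, L, u, v, c), i) n) =
      F i n * f (sites L n) := by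
    intro n hn c
    rw [mem_Ioc] at hn
    have hst := hsite M L v n hB hv hn.2 hvN
    have hsub : sites L n ⊆ U := by
      intro s hs
      rw [hU, mem_range]
      exact (hst s hs).1
    have h1 : EX U.powerset μ (g ((M, 0, L, u, v, c), i) n) = F i n *
        EX U.powerset μ (fun S => if sites L n ⊆ S then 1 else 0) := by
      unfold EX
      rw [mul_sum]
      apply sum_congr rfl
      intro S _
      rw [hg]
      ring
    rw [h1, hμd, EXG_sub U f (sites L n) hsub]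
  have hval : ∀ c, valid (M, 0, L, u, v, c) := fun c => ⟨hB, hv, hvN⟩
  have hTeq : ∀ c, T ((M, 0, L, u, v, c), i) =
      (Ioc u v).filter (fun n => col M L (Ioc u v) n = c) := by
    intro c
    rw [hT]
    dsimp only
    rw [if_pos (hval c)]
  have hindS : ∀ n c, g ((M, 0, L, u, v, c), i) n S = F i n * ind (S : Set ℕ) L n := by
    intro n c
    rw [hg]
    dsimp only
    congr 1
    unfold ind
    have h1 : (sites L n ⊆ S) ↔ (∀ l ∈ L, l.1 * n + l.2 ∈ (S : Set ℕ)) := by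
      constructor
      · intro h l hl
        exact h ((mem_sites' L n _).2 ⟨l, hl, rfl⟩)
      · intro h s hs
        obtain ⟨l, hl, rfl⟩ := (mem_sites' L n s).1 hs
        exact h l hl
    by_cases h2 : sites L n ⊆ S
    · rw [if_pos h2, if_pos (h1.1 h2)]
    · rw [if_neg h2, if_neg (fun h3 => h2 (h1.2 h3))]
  set Δ : ℕ := Del L.card M with hΔ
  set E : ℝ := ∑ n ∈ Ioc u v, (F i n) ^ 2 with hEd
  have h1 : ∑ n ∈ Ioc u v, F i n * (ind (S : Set ℕ) L n - f (sites L n)) =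
      ∑ c ∈ range (Δ + 1), ∑ n ∈ T ((M, 0, L, u, v, c), i),
        (g ((M, 0, L, u, v, c), i) n S - EX U.powerset μ (g ((M, 0, L, u, v, c), i) n)) := by
    rw [← Finset.sum_fiberwise_of_maps_to (s := Ioc u v) (t := range (Δ + 1))
      (g := fun n => col M L (Ioc u v) n)
      (fun n _ => mem_range.2 (Nat.lt_succ_of_le (hcol1 M L _ n)))]
    apply sum_congr rfl
    intro c _
    rw [hTeq c]
    apply sum_congr rfl
    intro n hn
    rw [mem_filter] at hn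
    rw [hE n hn.1 c, hindS n c]
    ring
  rw [h1]
  have hEc : ∀ c, 0 ≤ ∑ n ∈ T ((M, 0, L, u, v, c), i), (F i n) ^ 2 :=
    fun c => sum_nonneg (fun n _ => sq_nonneg _)
  have h2 : ∀ c ∈ range (Δ + 1), |∑ n ∈ T ((M, 0, L, u, v, c), i),
      (g ((M, 0, L, u, v, c), i) n S - EX U.powerset μ (g ((M, 0, L, u, v, c), i) n))| ≤
      √(8 * Λ) * √(∑ n ∈ T ((M, 0, L, u, v, c), i), (F i n) ^ 2) := by
    intro c hc
    rw [mem_range] at hc
    have h3 := hStest ((M, 0, L, u, v, c), i) (by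
      rw [hJ, mem_product, mem_filter, mem_range]
      exact ⟨⟨(mem_tests N M 0 u v c L).2 ⟨hM, hk, by positivity, hLs, hu, hv, by omega⟩, rfl⟩, hi⟩)
    refine h3.trans (le_of_eq ?_)
    rw [← Real.sqrt_mul (by positivity)]
    congr 1
    simp only [sq_abs]
    ring
  refine (abs_sum_le_sum_abs _ _).trans ((sum_le_sum h2).trans ?_)
  rw [← mul_sum]
  have h3 : (∑ c ∈ range (Δ + 1), √(∑ n ∈ T ((M, 0, L, u, v, c), i), (F i n) ^ 2)) ≤
      √(((Δ : ℝ) + 1) * E) := by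
    apply Real.le_sqrt_of_sq_le
    have h5 : (∑ c ∈ range (Δ + 1), √(∑ n ∈ T ((M, 0, L, u, v, c), i), (F i n) ^ 2)) ^ 2 ≤
        ((range (Δ + 1)).card : ℝ) *
          ∑ c ∈ range (Δ + 1), (√(∑ n ∈ T ((M, 0, L, u, v, c), i), (F i n) ^ 2)) ^ 2 :=
      sq_sum_le_card_mul_sum_sq
    refine h5.trans ?_
    rw [card_range]
    push_cast
    apply mul_le_mul_of_nonneg_left _ (add_nonneg (Nat.cast_nonneg _) zero_le_one)
    have h6 : ∀ c ∈ range (Δ + 1), (√(∑ n ∈ T ((M, 0, L, u, v, c), i), (F i n) ^ 2)) ^ 2 =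
        ∑ n ∈ T ((M, 0, L, u, v, c), i), (F i n) ^ 2 := fun c _ => Real.sq_sqrt (hEc c)
    rw [sum_congr rfl h6]
    have h7 : ∑ c ∈ range (Δ + 1), ∑ n ∈ T ((M, 0, L, u, v, c), i), (F i n) ^ 2 = E := by
      rw [hEd, ← Finset.sum_fiberwise_of_maps_to (s := Ioc u v) (t := range (Δ + 1))
        (g := fun n => col M L (Ioc u v) n)
        (fun n _ => mem_range.2 (Nat.lt_succ_of_le (hcol1 M L _ n)))]
      apply sum_congr rfl
      intro c _
      rw [hTeq c]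
    rw [h7]
  calc √(8 * Λ) * ∑ c ∈ range (Δ + 1), √(∑ n ∈ T ((M, 0, L, u, v, c), i), (F i n) ^ 2)
      ≤ √(8 * Λ) * √(((Δ : ℝ) + 1) * E) := mul_le_mul_of_nonneg_left h3 (Real.sqrt_nonneg _)
    _ = Er L.card M i E := by
        rw [← Real.sqrt_mul (by positivity)]
        unfold Er
        rw [← hΔ, ← hΛ]
        congr 1
        ring

end Pool.MP_92ef0c_nt.SG
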