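import Pool.Agent.Lib_MP_92ef0c_sg.Defs

/-! # [SG-1] measures with given inclusion probabilities -/

set_option autoImplicit false

namespace Pool.MP_92ef0c_nt.SG

open Finset
open Pool.MP_92ef0c_nt.SH (EX)

private theorem alt_sum (U A T : Finset ℕ) (hTU : T ⊆ U) :
    ∑ S ∈ U.powerset, (if A ⊆ S ∧ S ⊆ T then (-1 : ℝ) ^ (T \ S).card else 0) =
      if T = A then 1 else 0 := by
  rw [← sum_filter]
  by_cases hAT : A ⊆ T
  · have h1 : ∑ S ∈ U.powerset.filter (fun S => A ⊆ S ∧ S ⊆ T), (-1 : ℝ) ^ (T \ S).card =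
        ∑ R ∈ (T \ A).powerset, (-1 : ℝ) ^ R.card := by
      refine sum_nbij' (fun S => T \ S) (fun R => T \ R) ?_ ?_ ?_ ?_ ?_
      · intro S hS
        rw [mem_filter] at hS
        exact mem_powerset.2 (sdiff_subset_sdiff (Subset.refl T) hS.2.1)
      · intro R hR
        rw [mem_powerset] at hR
        refine mem_filter.2 ⟨mem_powerset.2 (sdiff_subset.trans hTU), ?_, sdiff_subset⟩
        intro x hx
        refine mem_sdiff.2 ⟨hAT hx, fun hxR => ?_⟩
        exact (mem_sdiff.1 (hR hxR)).2 hx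
      · intro S hS
        rw [mem_filter] at hS
        exact Finset.sdiff_sdiff_eq_self hS.2.2
      · intro R hR
        rw [mem_powerset] at hR
        exact Finset.sdiff_sdiff_eq_self (hR.trans sdiff_subset)
      · intro S _
        rfl
    rw [h1]
    have h2 : (∑ R ∈ (T \ A).powerset, (-1 : ℝ) ^ R.card) =
        ((∑ R ∈ (T \ A).powerset, (-1 : ℤ) ^ R.card : ℤ) : ℝ) := by
      push_cast
      rfl
    rw [h2, sum_powerset_neg_one_pow_card]
    by_cases hTA : T = A
    · subst hTA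
      simp
    · rw [if_neg, if_neg hTA]
      · simp
      · intro h
        exact hTA (Subset.antisymm (sdiff_eq_empty_iff_subset.1 h) hAT)
  · rw [if_neg (fun h : T = A => hAT (h ▸ Subset.refl _))]
    refine sum_eq_zero ?_
    intro S hS
    rw [mem_filter] at hS
    exact absurd (hS.2.1.trans hS.2.2) hAT

/-- [SG-1a] PROOF: as `EX_sub` of `Lib_MP_92ef0c_sh/ShA1.lean` with `wt adj ρ` replaced by `f` (copy, `alt_sum` is private
there). -/
theorem EXG_sub (U : Finset ℕ) (f : Finset ℕ → ℝ) (A : Finset ℕ) (hA : A ⊆ U) :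
    EX U.powerset (muG U f) (fun S => if A ⊆ S then 1 else 0) = f A := by
  unfold EX muG
  have h1 : ∀ S ∈ U.powerset,
      (∑ T ∈ U.powerset.filter (fun T => S ⊆ T), (-1 : ℝ) ^ (T \ S).card * f T) *
        (if A ⊆ S then (1 : ℝ) else 0) =
      ∑ T ∈ U.powerset, f T *
        (if A ⊆ S ∧ S ⊆ T then (-1 : ℝ) ^ (T \ S).card else 0) := by
    intro S _
    rw [sum_filter, sum_mul]
    refine sum_congr rfl fun T _ => ?_
    by_cases h : A ⊆ S <;> by_cases h' : S ⊆ T <;> simp [h, h', mul_comm]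
  rw [sum_congr rfl h1, sum_comm]
  have h2 : ∀ T ∈ U.powerset, ∑ S ∈ U.powerset, f T *
      (if A ⊆ S ∧ S ⊆ T then (-1 : ℝ) ^ (T \ S).card else 0) =
      if T = A then f T else 0 := by
    intro T hT
    rw [← mul_sum, alt_sum U A T (mem_powerset.1 hT)]
    by_cases h : T = A <;> simp [h]
  rw [sum_congr rfl h2, sum_ite_eq' U.powerset A (fun T => f T),
    if_pos (mem_powerset.2 hA)]

/-- [SG-1b] PROOF: `EXG_sub` with `A = ∅`. -/
theorem muG_total (U : Finset ℕ) (f : Finset ℕ → ℝ) (hf0 : f ∅ = 1) :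
    ∑ S ∈ U.powerset, muG U f S = 1 := by
  have h := EXG_sub U f ∅ (empty_subset U)
  rw [hf0] at h
  unfold EX at h
  rw [← h]
  refine sum_congr rfl fun S _ => ?_
  change muG U f S = muG U f S * (if ∅ ⊆ S then 1 else 0)
  rw [if_pos (empty_subset S), mul_one]

/-- [SG-1c] PROOF: otherwise all terms of the sum vanish. -/
theorem muG_supp (U : Finset ℕ) (f : Finset ℕ → ℝ) (S : Finset ℕ) (h : muG U f S ≠ 0) :
    ∃ T, S ⊆ T ∧ f T ≠ 0 := by
  by_contra hcon
  push Not at hcon
  refine h ?_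
  unfold muG
  refine sum_eq_zero fun T hT => ?_
  rw [mem_filter] at hT
  rw [hcon T hT.2, mul_zero]

/-- [SG-1d] PROOF: `EXG_sub` with `U = A = T` : `f T` is the expectation of an indicator for a nonnegative measure
of total mass `1`. -/
theorem f_bounds (f : Finset ℕ → ℝ) (hf0 : f ∅ = 1)
    (hpos : ∀ U S : Finset ℕ, S ⊆ U → 0 ≤ muG U f S) (T : Finset ℕ) : 0 ≤ f T ∧ f T ≤ 1 := by
  have h := EXG_sub T f T (Subset.refl T)
  unfold EX at h
  have hnn : ∀ S ∈ T.powerset, 0 ≤ muG T f S := fun S hS => hpos T S (mem_powerset.1 hS)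
  constructor
  · rw [← h]
    refine sum_nonneg fun S hS => mul_nonneg (hnn S hS) ?_
    beta_reduce
    split_ifs
    · exact zero_le_one
    · exact le_rfl
  · rw [← h]
    refine (sum_le_sum fun S hS => mul_le_of_le_one_right (hnn S hS) ?_).trans
      (le_of_eq (muG_total T f hf0))
    beta_reduce
    split_ifs
    · exact le_rfl
    · exact zero_le_one

end Pool.MP_92ef0c_nt.SG
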