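import Pool.Agent.Lib_MP_92ef0c_sg.Mob
import Pool.Agent.Lib_MP_92ef0c_sh.ShA4a

/-! # [SG-4] independence of separated functions -/

set_option autoImplicit false

namespace Pool.MP_92ef0c_nt.SG

open Finset
open Pool.MP_92ef0c_nt.SH (EX moebius)

private theorem EX_lin {Ω ι : Type} (W : Finset Ω) (μ : Ω → ℝ) (P : Finset ι) (c : ι → ℝ)
    (e : ι → Ω → ℝ) : EX W μ (fun S => ∑ T ∈ P, c T * e T S) = ∑ T ∈ P, c T * EX W μ (e T) := by
  unfold EX
  simp_rw [mul_sum]
  rw [sum_comm]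
  refine sum_congr rfl fun T _ => sum_congr rfl fun S _ => ?_
  ring

/-- [SG-4a] PROOF: as `EX_mul` of `Lib_MP_92ef0c_sh/ShA4.lean` (copy and adapt; `wt_union` there is replaced by the
hypothesis `hmul`). -/
theorem EXG_mul (U : Finset ℕ) (f : Finset ℕ → ℝ) (A B : Finset ℕ) (hA : A ⊆ U) (hB : B ⊆ U)
    (hmul : ∀ T ⊆ A, ∀ T' ⊆ B, f (T ∪ T') = f T * f T') (φ ψ : Finset ℕ → ℝ)
    (hφ : ∀ S, φ S = φ (S ∩ A)) (hψ : ∀ S, ψ S = ψ (S ∩ B)) :
    EX U.powerset (muG U f) (fun S => φ S * ψ S) =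
      EX U.powerset (muG U f) φ * EX U.powerset (muG U f) ψ := by
  classical
  obtain ⟨c, hc⟩ := moebius A φ hφ
  obtain ⟨c', hc'⟩ := moebius B ψ hψ
  have e1 : EX U.powerset (muG U f) φ = ∑ T ∈ A.powerset, c T * f T := by
    rw [show φ = fun S => ∑ T ∈ A.powerset, c T * (if T ⊆ S then 1 else 0) from funext hc,
      EX_lin]
    refine sum_congr rfl fun T hT => ?_
    rw [EXG_sub U f T ((mem_powerset.mp hT).trans hA)]
  have e2 : EX U.powerset (muG U f) ψ = ∑ T ∈ B.powerset, c' T * f T := by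
    rw [show ψ = fun S => ∑ T ∈ B.powerset, c' T * (if T ⊆ S then 1 else 0) from funext hc',
      EX_lin]
    refine sum_congr rfl fun T hT => ?_
    rw [EXG_sub U f T ((mem_powerset.mp hT).trans hB)]
  have e3 : (fun S => φ S * ψ S) = fun S => ∑ p ∈ A.powerset ×ˢ B.powerset,
      (c p.1 * c' p.2) * (if p.1 ∪ p.2 ⊆ S then 1 else 0) := by
    funext S
    rw [hc S, hc' S, sum_mul_sum, sum_product]
    refine sum_congr rfl fun T _ => sum_congr rfl fun T' _ => ?_
    by_cases h1 : T ⊆ S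
    · by_cases h2 : T' ⊆ S
      · rw [if_pos h1, if_pos h2, if_pos (union_subset h1 h2)]
        ring
      · rw [if_neg h2, if_neg (fun h => h2 (subset_union_right.trans h))]
        ring
    · rw [if_neg h1, if_neg (fun h => h1 (subset_union_left.trans h))]
      ring
  rw [e3, EX_lin, e1, e2, sum_mul_sum, sum_product]
  refine sum_congr rfl fun T hT => sum_congr rfl fun T' hT' => ?_
  have hT1 : T ⊆ A := mem_powerset.mp hT
  have hT2 : T' ⊆ B := mem_powerset.mp hT'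
  rw [EXG_sub U f (T ∪ T') (union_subset (hT1.trans hA) (hT2.trans hB)), hmul T hT1 T' hT2]
  ring

/-- [SG-4b] PROOF: as `EX_prod` of `Lib_MP_92ef0c_sh/ShA4.lean`: induction on `T`, `EXG_mul` with `A = K a`,
`B = T.biUnion K` (`hmul` there from `hf`: `T ⊆ K a`, `T' ⊆ T.biUnion K` are disjoint and without neighbours);
`T = ∅`: `muG_total`. -/
theorem EXG_prod (U : Finset ℕ) (f : Finset ℕ → ℝ) (hf0 : f ∅ = 1) (nb : ℕ → ℕ → Prop)
    (hf : ∀ T T' : Finset ℕ, Disjoint T T' → (∀ s ∈ T, ∀ t ∈ T', ¬ nb s t) →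
      f (T ∪ T') = f T * f T')
    (T : Finset ℕ) (K : ℕ → Finset ℕ) (hK : ∀ n ∈ T, K n ⊆ U)
    (hsep : ∀ n ∈ T, ∀ m ∈ T, n ≠ m → Disjoint (K n) (K m) ∧ ∀ s ∈ K n, ∀ t ∈ K m, ¬ nb s t)
    (φ : ℕ → Finset ℕ → ℝ) (hφ : ∀ n ∈ T, ∀ S, φ n S = φ n (S ∩ K n)) :
    EX U.powerset (muG U f) (fun S => ∏ n ∈ T, φ n S) =
      ∏ n ∈ T, EX U.powerset (muG U f) (φ n) := by
  classical
  induction T using Finset.induction_on with
  | empty =>
    unfold EX
    simp only [prod_empty, mul_one]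
    exact muG_total U f hf0
  | insert a T ha ih =>
    have hK' : ∀ n ∈ T, K n ⊆ U := fun n hn => hK n (mem_insert_of_mem hn)
    have hφ' : ∀ n ∈ T, ∀ S, φ n S = φ n (S ∩ K n) := fun n hn => hφ n (mem_insert_of_mem hn)
    have hsep' : ∀ n ∈ T, ∀ m ∈ T, n ≠ m → Disjoint (K n) (K m) ∧
        ∀ s ∈ K n, ∀ t ∈ K m, ¬ nb s t := fun n hn m hm =>
      hsep n (mem_insert_of_mem hn) m (mem_insert_of_mem hm)
    have hne : ∀ n ∈ T, a ≠ n := fun n hn h => ha (h ▸ hn)
    have e0 : (fun S => ∏ n ∈ insert a T, φ n S) = fun S => φ a S * ∏ n ∈ T, φ n S := by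
      funext S
      rw [prod_insert ha]
    rw [e0, prod_insert ha, ← ih hK' hsep' hφ']
    have hd : Disjoint (K a) (T.biUnion K) := by
      rw [disjoint_biUnion_right]
      exact fun n hn => (hsep a (mem_insert_self a T) n (mem_insert_of_mem hn) (hne n hn)).1
    have hno : ∀ s ∈ K a, ∀ t ∈ T.biUnion K, ¬ nb s t := by
      intro s hs t ht
      obtain ⟨n, hn, hnt⟩ := mem_biUnion.mp ht
      exact (hsep a (mem_insert_self a T) n (mem_insert_of_mem hn) (hne n hn)).2 s hs t hnt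
    refine EXG_mul U f (K a) (T.biUnion K) (hK a (mem_insert_self a T))
      (biUnion_subset.mpr hK') ?_ (φ a) (fun S => ∏ n ∈ T, φ n S)
      (hφ a (mem_insert_self a T)) ?_
    · intro R hR R' hR'
      exact hf R R' (disjoint_of_subset_left hR (disjoint_of_subset_right hR' hd))
        (fun s hs t ht => hno s (hR hs) t (hR' ht))
    · intro S
      refine prod_congr rfl fun n hn => ?_
      rw [hφ' n hn S, hφ' n hn (S ∩ T.biUnion K), inter_assoc,
        inter_eq_right.mpr (subset_biUnion_of_mem K hn)]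

end Pool.MP_92ef0c_nt.SG
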