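import Pool.Agent.Lib_MP_92ef0c_sg.Defs

/-! # [SG-N1a] multiplicative energy of two intervals -/

set_option autoImplicit false

namespace Pool.MP_92ef0c_nt.SG

open Finset

/-- the parameters `(g, a, b, h)` -/
private def parQ (m₀ n₀ : ℕ) : Finset (Σ _ : ℕ, Σ _ : ℕ, ℕ × ℕ) :=
  (Icc 1 m₀).sigma fun g => (Icc 1 (m₀ / g)).sigma fun a => Icc 1 a ×ˢ Icc 1 (n₀ / a)

private theorem parQ_card (m₀ n₀ : ℕ) : ((parQ m₀ n₀).card : ℝ) ≤ m₀ * n₀ * (1 + Real.log m₀) := by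
  have h1 : (parQ m₀ n₀).card = ∑ g ∈ Icc 1 m₀, ∑ a ∈ Icc 1 (m₀ / g), a * (n₀ / a) := by
    unfold parQ
    rw [Finset.card_sigma]
    refine Finset.sum_congr rfl fun g _ => ?_
    rw [Finset.card_sigma]
    refine Finset.sum_congr rfl fun a _ => ?_
    rw [Finset.card_product, Nat.card_Icc, Nat.card_Icc, Nat.add_sub_cancel, Nat.add_sub_cancel]
  have h2 : (parQ m₀ n₀).card ≤ ∑ g ∈ Icc 1 m₀, (m₀ / g) * n₀ := by
    rw [h1]
    refine Finset.sum_le_sum fun g _ => ?_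
    refine (Finset.sum_le_sum (fun a _ => Nat.mul_div_le n₀ a)).trans (le_of_eq ?_)
    rw [Finset.sum_const, Nat.card_Icc, Nat.add_sub_cancel, smul_eq_mul]
  have h3 : ((parQ m₀ n₀).card : ℝ) ≤ ∑ g ∈ Icc 1 m₀, ((m₀ : ℝ) / g) * n₀ := by
    have h4 : ((parQ m₀ n₀).card : ℝ) ≤ ((∑ g ∈ Icc 1 m₀, (m₀ / g) * n₀ : ℕ) : ℝ) := by
      exact_mod_cast h2
    refine h4.trans ?_
    push_cast
    refine Finset.sum_le_sum fun g _ => ?_
    exact mul_le_mul_of_nonneg_right Nat.cast_div_le (Nat.cast_nonneg _)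
  have h5 : ∑ g ∈ Icc 1 m₀, ((m₀ : ℝ) / g) * n₀ = m₀ * n₀ * ((harmonic m₀ : ℚ) : ℝ) := by
    rw [harmonic_eq_sum_Icc]
    push_cast
    rw [Finset.mul_sum]
    refine Finset.sum_congr rfl fun g _ => ?_
    rw [div_eq_mul_inv]
    ring
  rw [h5] at h3
  exact h3.trans (mul_le_mul_of_nonneg_left (harmonic_le_one_add_log m₀) (by positivity))

private theorem recQ {m n m' n' : ℕ} (hm : 1 ≤ m) (he : m * n = m' * n') :
    0 < Nat.gcd m m' ∧ 0 < m / Nat.gcd m m' ∧ Nat.gcd m m' * (m / Nat.gcd m m') = m ∧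
    Nat.gcd m m' * (m' / Nat.gcd m m') = m' ∧
    (m / Nat.gcd m m') * (n' / (m / Nat.gcd m m')) = n' ∧
    (m' / Nat.gcd m m') * (n' / (m / Nat.gcd m m')) = n := by
  have hg : 0 < Nat.gcd m m' := Nat.gcd_pos_of_pos_left _ (by omega)
  have e1 : Nat.gcd m m' * (m / Nat.gcd m m') = m := Nat.mul_div_cancel' (Nat.gcd_dvd_left m m')
  have e2 : Nat.gcd m m' * (m' / Nat.gcd m m') = m' := Nat.mul_div_cancel' (Nat.gcd_dvd_right m m')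
  have hcop : Nat.Coprime (m / Nat.gcd m m') (m' / Nat.gcd m m') := Nat.coprime_div_gcd_div_gcd hg
  have ha : 0 < m / Nat.gcd m m' := by
    rcases Nat.eq_zero_or_pos (m / Nat.gcd m m') with h | h
    · rw [h, mul_zero] at e1
      omega
    · exact h
  generalize Nat.gcd m m' = g at *
  generalize m / g = a at *
  generalize m' / g = b at *
  subst e1
  subst e2
  have h1 : a * n = b * n' := by
    have h2 : g * (a * n) = g * (b * n') := by rw [← mul_assoc, he, mul_assoc]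
    exact Nat.eq_of_mul_eq_mul_left hg h2
  have h3 : a ∣ n' := by
    have h4 : a ∣ b * n' := ⟨n, h1.symm⟩
    exact hcop.dvd_of_dvd_mul_left h4
  have e3 : a * (n' / a) = n' := Nat.mul_div_cancel' h3
  refine ⟨hg, ha, rfl, rfl, e3, ?_⟩
  have h5 : a * (b * (n' / a)) = a * n := by
    rw [h1, mul_left_comm, e3]
  exact Nat.eq_of_mul_eq_mul_left ha h5

private theorem half_card (m₀ n₀ : ℕ) :
    ((((Icc 1 m₀ ×ˢ Icc 1 n₀) ×ˢ (Icc 1 m₀ ×ˢ Icc 1 n₀)).filter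
      (fun q => q.1.1 * q.1.2 = q.2.1 * q.2.2)).filter (fun q => q.2.1 ≤ q.1.1)).card ≤
      (parQ m₀ n₀).card := by
  refine Finset.card_le_card_of_injOn (fun q => ⟨Nat.gcd q.1.1 q.2.1, ⟨q.1.1 / Nat.gcd q.1.1 q.2.1,
    (q.2.1 / Nat.gcd q.1.1 q.2.1, q.2.2 / (q.1.1 / Nat.gcd q.1.1 q.2.1))⟩⟩) ?_ ?_
  · rintro ⟨⟨m, n⟩, ⟨m', n'⟩⟩ hq
    simp only [Finset.coe_filter, Finset.mem_filter, Finset.mem_product, Finset.mem_Icc,
      Set.mem_setOf_eq] at hq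
    obtain ⟨⟨⟨⟨hm, hn⟩, hm', hn'⟩, he⟩, hle⟩ := hq
    obtain ⟨hg, ha, e1, e2, e3, e4⟩ := recQ hm.1 he
    have hb : 0 < m' / Nat.gcd m m' := by
      rcases Nat.eq_zero_or_pos (m' / Nat.gcd m m') with h | h
      · rw [h, mul_zero] at e2
        omega
      · exact h
    have hh : 0 < n' / (m / Nat.gcd m m') := by
      rcases Nat.eq_zero_or_pos (n' / (m / Nat.gcd m m')) with h | h
      · rw [h, mul_zero] at e3
        omega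
      · exact h
    have hgm : Nat.gcd m m' ≤ m := Nat.gcd_le_left _ (by omega)
    simp only [parQ, Finset.coe_sigma, Set.mem_sigma_iff, Finset.mem_coe, Finset.mem_sigma,
      Finset.mem_product, Finset.mem_Icc]
    exact ⟨⟨hg, by omega⟩, ⟨ha, Nat.div_le_div_right hm.2⟩, ⟨hb, Nat.div_le_div_right hle⟩,
      ⟨hh, Nat.div_le_div_right hn'.2⟩⟩
  · refine Set.LeftInvOn.injOn (f₁' := fun r => ((r.1 * r.2.1, r.2.2.1 * r.2.2.2),
      (r.1 * r.2.2.1, r.2.1 * r.2.2.2))) ?_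
    rintro ⟨⟨m, n⟩, ⟨m', n'⟩⟩ hq
    simp only [Finset.coe_filter, Finset.mem_filter, Finset.mem_product, Finset.mem_Icc,
      Set.mem_setOf_eq] at hq
    obtain ⟨⟨⟨⟨hm, hn⟩, hm', hn'⟩, he⟩, hle⟩ := hq
    obtain ⟨hg, ha, e1, e2, e3, e4⟩ := recQ hm.1 he
    simp only [e1, e2, e3, e4]

/-- [SG-N1a] PROOF: the quadruples `(m, n, m', n')` with `m n = m' n'` map injectively, by `g = gcd(m, m')`, `m = g a`, `m' = g b`,
`n = b h`, `n' = a h`, to the quadruples `(g, a, b, h)` with `g max(a, b) ≤ m₀`, `h max(a, b) ≤ n₀`; their number is at most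
`∑_{a, b ≤ m₀} (m₀ / max(a, b)) (n₀ / max(a, b)) ≤ m₀ n₀ ∑_{c ≤ m₀} (2 c - 1) / c^2 ≤ 2 m₀ n₀ (1 + log m₀)`. -/
theorem quad_card (m₀ n₀ : ℕ) :
    ((((Icc 1 m₀ ×ˢ Icc 1 n₀) ×ˢ (Icc 1 m₀ ×ˢ Icc 1 n₀)).filter
      (fun q => q.1.1 * q.1.2 = q.2.1 * q.2.2)).card : ℝ) ≤
      2 * m₀ * n₀ * (1 + Real.log m₀) := by
  have hsw : ((((Icc 1 m₀ ×ˢ Icc 1 n₀) ×ˢ (Icc 1 m₀ ×ˢ Icc 1 n₀)).filter
      (fun q => q.1.1 * q.1.2 = q.2.1 * q.2.2)).filter (fun q => ¬ q.2.1 ≤ q.1.1)).card ≤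
      ((((Icc 1 m₀ ×ˢ Icc 1 n₀) ×ˢ (Icc 1 m₀ ×ˢ Icc 1 n₀)).filter
      (fun q => q.1.1 * q.1.2 = q.2.1 * q.2.2)).filter (fun q => q.2.1 ≤ q.1.1)).card := by
    refine Finset.card_le_card_of_injOn Prod.swap ?_ (Prod.swap_injective.injOn)
    rintro ⟨⟨m, n⟩, ⟨m', n'⟩⟩ hq
    simp only [Finset.coe_filter, Finset.mem_filter, Finset.mem_product, Finset.mem_Icc,
      Set.mem_setOf_eq] at hq
    obtain ⟨⟨⟨⟨hm, hn⟩, hm', hn'⟩, he⟩, hle⟩ := hq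
    simp only [Prod.swap_prod_mk, Finset.coe_filter, Finset.mem_filter, Finset.mem_product,
      Finset.mem_Icc, Set.mem_setOf_eq]
    exact ⟨⟨⟨⟨hm', hn'⟩, hm, hn⟩, he.symm⟩, by omega⟩
  have h1 := Finset.card_filter_add_card_filter_not (s := ((Icc 1 m₀ ×ˢ Icc 1 n₀) ×ˢ
    (Icc 1 m₀ ×ˢ Icc 1 n₀)).filter (fun q => q.1.1 * q.1.2 = q.2.1 * q.2.2))
    (fun q => q.2.1 ≤ q.1.1)
  have h2 := half_card m₀ n₀
  have h3 := parQ_card m₀ n₀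
  have h4 : (((Icc 1 m₀ ×ˢ Icc 1 n₀) ×ˢ (Icc 1 m₀ ×ˢ Icc 1 n₀)).filter
      (fun q => q.1.1 * q.1.2 = q.2.1 * q.2.2)).card ≤ 2 * (parQ m₀ n₀).card := by
    omega
  have h5 : ((((Icc 1 m₀ ×ˢ Icc 1 n₀) ×ˢ (Icc 1 m₀ ×ˢ Icc 1 n₀)).filter
      (fun q => q.1.1 * q.1.2 = q.2.1 * q.2.2)).card : ℝ) ≤ 2 * ((parQ m₀ n₀).card : ℝ) := by
    exact_mod_cast h4
  linarith

end Pool.MP_92ef0c_nt.SG
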