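import Pool.Agent.Lib_MP_92ef0c_sg.Defs

/-! # [SG-E] the inclusion probability of the values of a system -/

set_option autoImplicit false

namespace Pool.MP_92ef0c_nt.SG

open Finset
open Pool.MP_92ef0c_nt.PB (Pz V zz Rough rho)
open Pool.MP_92ef0c_nt.SH (EX ind rr gg Bd Prim IsD SSL Del Lam Exc Inter)

/-- values in the same direction -/
private theorem sites_par (lam : Finset ℕ → ℝ)
    (hinv : ∀ (A : Finset ℕ) (t : ℕ), lam (A.image (fun a => a + t)) = lam A)
    (A : Finset (ℕ × ℕ)) (n : ℕ) (hP : Par A) : lam (sites A n) = lam (A.image Prod.snd) := by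
  rcases A.eq_empty_or_nonempty with rfl | ⟨l₀, hl₀⟩
  · simp [sites]
  · have h : sites A n = (A.image Prod.snd).image (fun x => x + l₀.1 * n) := by
      ext x
      simp only [sites, mem_image]
      constructor
      · rintro ⟨l, hl, rfl⟩
        refine ⟨l.2, ⟨l, hl, rfl⟩, ?_⟩
        rw [hP l hl l₀ hl₀, Nat.add_comm]
      · rintro ⟨_, ⟨l, hl, rfl⟩, rfl⟩
        refine ⟨l, hl, ?_⟩
        rw [hP l hl l₀ hl₀, Nat.add_comm]
    rw [h, hinv]

/-- [SG-E] PROOF. `l ↦ l.1 * n + l.2` is injective on `L` (same leading coefficient: trivial; different: by `hE`, as equal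
values are `≤ 2 M + 1` apart), so `∏_{t ∈ sites} ρ t = rr` and the subsets of `sites L n` are the `sites A n`, `A ⊆ L`
(`powerset_image` + injectivity). For `A ⊆ L`: if `A` has two forms with different leading coefficients, their
values `s`, `t` are `< 2 ^ (2 M)` (see `site_lt` in `Lib_MP_92ef0c_sh/Finite.lean`), so `w s, w t ≤ 2 M` and by `hE` they are not
neighbours: `kap = 1`. If `|A| ≤ 1`: `kap = 1`. If `Par A`, `|A| ≥ 2`, common leading coefficient `a`: `sites A n =
(A.image Prod.snd).image (· + a n)`, so `lam (sites A n) = lam (A.image Prod.snd)`, `|sites A n| = |A|`; by `hNear`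
either this is `1`, and `kap = 1` in both cases, or all differences are `≤ R ≤ w s` (`s = a n + b ≥ n ≥ n₀` since `a ≥ 1`), so `kap
= lam`. -/
theorem value_eq (N₁ : ℕ) (lam : Finset ℕ → ℝ)
    (hinv : ∀ (A : Finset ℕ) (t : ℕ), lam (A.image (fun a => a + t)) = lam A)
    (w : ℕ → ℕ) (hw : ∀ n, w n ≤ Nat.log 2 n) (R n₀ : ℕ) (hR : ∀ n, n₀ ≤ n → R ≤ w n)
    (M : ℕ) (L : Finset (ℕ × ℕ)) (hB : Bd M L) (hNear : Near lam R L) (n : ℕ) (hn : n₀ ≤ n)
    (hnM : n < 2 ^ M) (hE : ¬ Exc L (2 * M + 1) n) :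
    wtG (kap lam w) (rho N₁) (sites L n) = lamL lam L * rr N₁ L n := by
  classical
  have hinj : Set.InjOn (fun l : ℕ × ℕ => l.1 * n + l.2) (L : Set (ℕ × ℕ)) := by
    intro l hl l' hl' h
    have h' : l.1 * n + l.2 = l'.1 * n + l'.2 := h
    by_cases h1 : l.1 = l'.1
    · rw [h1] at h'
      exact Prod.ext h1 (Nat.add_left_cancel h')
    · exact absurd ⟨l, hl, l', hl', h1, by omega, by omega⟩ hE
  have hw2 : ∀ l ∈ L, w (l.1 * n + l.2) ≤ 2 * M := by
    intro l hl
    obtain ⟨-, h1, h2⟩ := hB l hl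
    refine (hw _).trans ?_
    have h3 : l.1 * n + l.2 < 2 ^ (2 * M) := by
      have e : 2 ^ (2 * M) = 2 ^ M * 2 ^ M := by rw [two_mul, pow_add]
      rw [e]
      have h4 : (l.1 + 1) * 2 ^ M ≤ 2 ^ M * 2 ^ M := Nat.mul_le_mul_right _ h1
      have h5 : l.1 * n ≤ l.1 * 2 ^ M := Nat.mul_le_mul_left _ hnM.le
      have h6 : (l.1 + 1) * 2 ^ M = l.1 * 2 ^ M + 2 ^ M := by ring
      omega
    rcases Nat.eq_zero_or_pos (l.1 * n + l.2) with h0 | h0
    · rw [h0]
      simp
    · exact (Nat.log_lt_of_lt_pow h0.ne' h3).le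
  have h1 : ∏ t ∈ sites L n, rho N₁ t = rr N₁ L n := by
    unfold sites rr
    rw [prod_image hinj]
  have hpow : (sites L n).powerset = L.powerset.image (fun A => sites A n) := by
    unfold sites
    exact powerset_image
  have hinj2 : Set.InjOn (fun A : Finset (ℕ × ℕ) => sites A n) (L.powerset : Set (Finset (ℕ × ℕ))) := by
    intro A hA B hB' hAB
    have hA' : A ⊆ L := mem_powerset.1 (mem_coe.1 hA)
    have hB'' : B ⊆ L := mem_powerset.1 (mem_coe.1 hB')
    have hAB' : A.image (fun l : ℕ × ℕ => l.1 * n + l.2) = B.image (fun l : ℕ × ℕ => l.1 * n + l.2) := hAB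
    have key : ∀ C D : Finset (ℕ × ℕ), C ⊆ L → D ⊆ L →
        C.image (fun l : ℕ × ℕ => l.1 * n + l.2) = D.image (fun l : ℕ × ℕ => l.1 * n + l.2) → C ⊆ D := by
      intro C D hC hD hCD l hl
      have h2 : l.1 * n + l.2 ∈ D.image (fun l : ℕ × ℕ => l.1 * n + l.2) := by
        rw [← hCD]
        exact mem_image_of_mem (fun l : ℕ × ℕ => l.1 * n + l.2) hl
      obtain ⟨l', hl', h3⟩ := mem_image.1 h2
      have h4 : l' = l := hinj (hD hl') (hC hl) h3
      rwa [← h4]
    exact Subset.antisymm (key A B hA' hB'' hAB') (key B A hB'' hA' hAB'.symm)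
  have h2 : ∏ A ∈ (sites L n).powerset, kap lam w A = lamL lam L := by
    rw [hpow, prod_image hinj2]
    unfold lamL
    refine prod_congr rfl fun A hA => ?_
    have hAL : A ⊆ L := mem_powerset.1 hA
    have hcard : (sites A n).card = A.card := by
      unfold sites
      exact card_image_of_injOn (hinj.mono (coe_subset.2 hAL))
    unfold kap
    rw [hcard]
    by_cases hc : 2 ≤ A.card
    · by_cases hP : Par A
      · have hpp : 2 ≤ A.card ∧ Par A := ⟨hc, hP⟩
        rw [if_pos hpp, sites_par lam hinv A n hP]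
        rcases hNear A hAL hc hP with h3 | h3
        · have hnn : 2 ≤ A.card ∧ ∀ s ∈ sites A n, ∀ t ∈ sites A n, nbr w s t := by
            refine ⟨hc, ?_⟩
            intro s hs t ht
            obtain ⟨l, hl, rfl⟩ := mem_image.1 hs
            obtain ⟨l', hl', rfl⟩ := mem_image.1 ht
            have hlow : ∀ l ∈ A, R ≤ w (l.1 * n + l.2) := by
              intro l hl
              refine hR _ (hn.trans ?_)
              have h4 : 1 * n ≤ l.1 * n := Nat.mul_le_mul_right _ (hB l (hAL hl)).1
              omega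
            have h5 := hP l hl l' hl'
            have h6 := h3 l hl l' hl'
            have h7 := h3 l' hl' l hl
            have h8 := hlow l hl
            have h9 := hlow l' hl'
            unfold nbr
            rw [h5] at h8 ⊢
            constructor <;> omega
          rw [if_pos hnn]
        · rw [h3]
          split_ifs <;> rfl
      · have hpp : ¬ (2 ≤ A.card ∧ Par A) := fun h => hP h.2
        rw [if_neg hpp, if_neg]
        rintro ⟨-, h3⟩
        apply hP
        intro l hl l' hl'
        by_contra h4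
        apply hE
        have h5 := h3 (l.1 * n + l.2) (mem_image_of_mem (fun l : ℕ × ℕ => l.1 * n + l.2) hl)
          (l'.1 * n + l'.2) (mem_image_of_mem (fun l : ℕ × ℕ => l.1 * n + l.2) hl')
        unfold nbr at h5
        have h6 := hw2 l (hAL hl)
        have h7 := hw2 l' (hAL hl')
        exact ⟨l, hAL hl, l', hAL hl', h4, by omega, by omega⟩
    · rw [if_neg (fun h => hc h.1), if_neg (fun h => hc h.1)]
  unfold wtG
  rw [h1, h2, mul_comm]

end Pool.MP_92ef0c_nt.SG
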